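import Pool.Agent.VN.Defs

/-!
# MP_7e9189_lc: the definitions of the hand-in

* `l2 G` : the Hilbert space `ℓ²(G)` over `ℂ`.
* `leftTr g` : the left translation `(leftTr g ξ) h = ξ (g⁻¹ * h)`.
* `bicommutant S` : the double commutant of a set of operators closed under adjoints or not
  (commutant of the commutant, both taken together with adjoints).
* `groupVN G` : the group von Neumann algebra, the double commutant of the left translations.
* `StarIsomorphic A B` : there is a `*`-algebra isomorphism between `A` and `B`.
-/

set_option autoImplicit false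

namespace Pool.Agent.VN

open scoped ENNReal

/-- The double commutant of a set of bounded operators (and their adjoints), as a von Neumann
algebra. -/
noncomputable def bicommutant {E : Type} [NormedAddCommGroup E] [InnerProductSpace ℂ E]
    [CompleteSpace E] (S : Set (E →L[ℂ] E)) : VonNeumannAlgebra E where
  toStarSubalgebra :=
    StarSubalgebra.centralizer ℂ (StarSubalgebra.centralizer ℂ S : Set (E →L[ℂ] E))
  centralizer_centralizer' := by
    have h := StarSubalgebra.coe_centralizer_centralizer ℂ S
    change Set.centralizer (Set.centralizer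
      ((StarSubalgebra.centralizer ℂ (StarSubalgebra.centralizer ℂ S : Set (E →L[ℂ] E)) :
          StarSubalgebra ℂ (E →L[ℂ] E)) : Set (E →L[ℂ] E))) =
      ((StarSubalgebra.centralizer ℂ (StarSubalgebra.centralizer ℂ S : Set (E →L[ℂ] E)) :
          StarSubalgebra ℂ (E →L[ℂ] E)) : Set (E →L[ℂ] E))
    rw [h]
    simp

/-- Two von Neumann algebras are isomorphic as `*`-algebras. -/
def StarIsomorphic {E F : Type} [NormedAddCommGroup E] [InnerProductSpace ℂ E] [CompleteSpace E]
    [NormedAddCommGroup F] [InnerProductSpace ℂ F] [CompleteSpace F] (A : VonNeumannAlgebra E)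
    (B : VonNeumannAlgebra F) : Prop :=
  Nonempty (A.toStarSubalgebra ≃⋆ₐ[ℂ] B.toStarSubalgebra)

/-- The Hilbert space `ℓ²(G)`. -/
abbrev l2 (G : Type) : Type := lp (fun _ : G => ℂ) 2

/-- The set of left translations: the bounded operators `T` on `ℓ²(G)` for which there is `g`
with `(T ξ) h = ξ (g⁻¹ * h)` for all `ξ`, `h`. -/
def leftTranslations (G : Type) [Group G] : Set (l2 G →L[ℂ] l2 G) :=
  {T | ∃ g : G, ∀ (ξ : l2 G) (h : G), T ξ h = ξ (g⁻¹ * h)}

/-- The group von Neumann algebra: the double commutant of the left translations. -/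
noncomputable def groupVN (G : Type) [Group G] : VonNeumannAlgebra (l2 G) :=
  bicommutant (leftTranslations G)

theorem leftTranslations_eq (G : Type) [Group G] :
    leftTranslations G = Set.range (lam (G := G)) := by
  ext T
  constructor
  · rintro ⟨g, hg⟩
    refine ⟨g, ?_⟩
    ext ξ h
    rw [hg ξ h]
    rfl
  · rintro ⟨g, rfl⟩
    exact ⟨g, fun ξ h => rfl⟩

theorem groupVN_eq (G : Type) [Group G] : groupVN G = vN G := by
  unfold groupVN
  rw [leftTranslations_eq]
  rfl

end Pool.Agent.VN
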