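import Mathlib

/-!
# MP_7e9189_lc: the group generated by `1 + E₀₁`, `1 + E₁₂`, `1 + t E₂₀` in `SL₃(𝔽₅[t])`
-/

set_option autoImplicit false

namespace Pool.Agent.VN.PT

open Polynomial Matrix Matrix.SpecialLinearGroup

/-- The ambient group. -/
abbrev SL3 : Type := Matrix.SpecialLinearGroup (Fin 3) (Polynomial (ZMod 5))

/-- Elementary matrices. -/
noncomputable abbrev el {i j : Fin 3} (h : i ≠ j) (f : Polynomial (ZMod 5)) : SL3 :=
  Matrix.SpecialLinearGroup.transvection h f

instance fact5 : Fact (Nat.Prime 5) := ⟨by norm_num⟩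

theorem el_comm {i j k : Fin 3} (hij : i ≠ j) (hjk : j ≠ k) (hik : i ≠ k)
    (f g : Polynomial (ZMod 5)) :
    el hij f * el hjk g * (el hij f)⁻¹ * (el hjk g)⁻¹ = el hik (f * g) := by
  rw [mul_inv_eq_iff_eq_mul, mul_inv_eq_iff_eq_mul]
  apply Subtype.ext
  simp only [Matrix.SpecialLinearGroup.coe_mul, transvection_coe, mul_add, add_mul, mul_one,
    one_mul, single_mul_single_same,
    single_mul_single_of_ne _ _ _ _ hjk.symm, single_mul_single_of_ne _ _ _ _ hik.symm, add_zero]
  abel

theorem el_commute_left {i j k : Fin 3} (hij : i ≠ j) (hik : i ≠ k)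
    (f g : Polynomial (ZMod 5)) : Commute (el hik g) (el hij f) := by
  apply Subtype.ext
  simp only [Matrix.SpecialLinearGroup.coe_mul, transvection_coe, mul_add, add_mul, mul_one, one_mul,
    single_mul_single_of_ne _ _ _ _ hij.symm,
    single_mul_single_of_ne _ _ _ _ hik.symm, add_zero]
  abel

theorem el_commute_right {i j k : Fin 3} (hjk : j ≠ k) (hik : i ≠ k)
    (f g : Polynomial (ZMod 5)) : Commute (el hik g) (el hjk f) := by
  apply Subtype.ext
  simp only [Matrix.SpecialLinearGroup.coe_mul, transvection_coe, mul_add, add_mul, mul_one, one_mul,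
    single_mul_single_of_ne _ _ _ _ hjk.symm,
    single_mul_single_of_ne _ _ _ _ hik.symm, add_zero]
  abel

theorem el_pow {i j : Fin 3} (h : i ≠ j) (f : Polynomial (ZMod 5)) (n : ℕ) :
    el h f ^ n = el h (n • f) := by
  induction n with
  | zero => simp
  | succ n ih => rw [pow_succ, ih, ← transvection_add, succ_nsmul]

theorem five_eq_zero (f : Polynomial (ZMod 5)) : (5 : ℕ) • f = 0 := by
  rw [nsmul_eq_mul]
  have : ((5 : ℕ) : Polynomial (ZMod 5)) = 0 := CharP.cast_eq_zero _ 5
  rw [this, zero_mul]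

theorem el_pow_five {i j : Fin 3} (h : i ≠ j) (f : Polynomial (ZMod 5)) : el h f ^ 5 = 1 := by
  rw [el_pow, five_eq_zero]
  exact transvection_coeff_zero h

theorem h01 : (0 : Fin 3) ≠ 1 := by decide
theorem h12 : (1 : Fin 3) ≠ 2 := by decide
theorem h20 : (2 : Fin 3) ≠ 0 := by decide
theorem h02 : (0 : Fin 3) ≠ 2 := by decide
theorem h10 : (1 : Fin 3) ≠ 0 := by decide
theorem h21 : (2 : Fin 3) ≠ 1 := by decide

/-- The generators. -/
noncomputable def gens : Set SL3 := {el h01 1, el h12 1, el h20 X}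

/-- The subgroup. -/
noncomputable def KK : Subgroup SL3 := Subgroup.closure gens

theorem a_mem : el h01 1 ∈ KK := Subgroup.subset_closure (by simp [gens])
theorem b_mem : el h12 1 ∈ KK := Subgroup.subset_closure (by simp [gens])
theorem c_mem : el h20 X ∈ KK := Subgroup.subset_closure (by simp [gens])

theorem comm_mem {i j k : Fin 3} {hij : i ≠ j} {hjk : j ≠ k} (hik : i ≠ k)
    {f g : Polynomial (ZMod 5)} (h1 : el hij f ∈ KK) (h2 : el hjk g ∈ KK) :
    el hik (f * g) ∈ KK := by
  rw [← el_comm hij hjk hik]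
  exact KK.mul_mem (KK.mul_mem (KK.mul_mem h1 h2) (KK.inv_mem h1)) (KK.inv_mem h2)

theorem mem21 : el h21 X ∈ KK := by
  have := comm_mem h21 c_mem a_mem
  rwa [mul_one] at this

theorem mem10 : el h10 X ∈ KK := by
  have := comm_mem h10 b_mem c_mem
  rwa [one_mul] at this

theorem mem01 (n : ℕ) : el h01 (X ^ n) ∈ KK := by
  induction n with
  | zero => rw [pow_zero]; exact a_mem
  | succ n ih =>
    have h1 := comm_mem h02 ih b_mem
    rw [mul_one] at h1
    have h2 := comm_mem h01 h1 mem21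
    rwa [← pow_succ] at h2

theorem mem02 (n : ℕ) : el h02 (X ^ n) ∈ KK := by
  have h1 := comm_mem h02 (mem01 n) b_mem
  rwa [mul_one] at h1

theorem mem12 (n : ℕ) : el h12 (X ^ (n + 1)) ∈ KK := by
  have h1 := comm_mem h12 mem10 (mem02 n)
  rwa [← pow_succ'] at h1

theorem mem21' (n : ℕ) : el h21 (X ^ (n + 1)) ∈ KK := by
  have h1 := comm_mem h21 c_mem (mem01 n)
  rwa [← pow_succ'] at h1

theorem mem20 (n : ℕ) : el h20 (X ^ (n + 2)) ∈ KK := by
  have h1 := comm_mem h20 (mem21' n) mem10
  rwa [← pow_succ] at h1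

theorem mem10' (n : ℕ) : el h10 (X ^ (n + 2)) ∈ KK := by
  have h1 := comm_mem h10 (mem12 n) c_mem
  rwa [← pow_succ] at h1

theorem mem_all {i j : Fin 3} (h : i ≠ j) (n : ℕ) : el h (X ^ (n + 2)) ∈ KK := by
  fin_cases i <;> fin_cases j
  · exact absurd rfl h
  · exact mem01 _
  · exact mem02 _
  · exact mem10' _
  · exact absurd rfl h
  · exact mem12 _
  · exact mem20 _
  · exact mem21' _
  · exact absurd rfl h

theorem pow_sub_ne {m n : ℕ} (h : m ≠ n) :
    (X : Polynomial (ZMod 5)) ^ m - X ^ n ≠ 0 := by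
  intro h0
  apply h
  have h1 : (X : Polynomial (ZMod 5)) ^ m = X ^ n := sub_eq_zero.mp h0
  have h2 := congrArg Polynomial.natDegree h1
  simpa using h2

/-- A non-trivial element of `KK` has infinitely many conjugates. -/
theorem icc_KK (g : KK) (hg : g ≠ 1) : (Set.range fun k : KK => k * g * k⁻¹).Infinite := by
  by_contra hfin
  rw [Set.not_infinite] at hfin
  apply hg
  have key : ∀ (i j : Fin 3), i ≠ j → Commute (single i j 1)
      ((g : SL3) : Matrix (Fin 3) (Fin 3) (Polynomial (ZMod 5))) := by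
    intro i j h
    let kk : ℕ → KK := fun n => ⟨el h (X ^ (n + 2)), mem_all h n⟩
    have : Finite (Set.range fun k : KK => k * g * k⁻¹) := hfin
    obtain ⟨m, n, hmn, he⟩ := Finite.exists_ne_map_eq_of_infinite
      (fun n : ℕ => (⟨kk n * g * (kk n)⁻¹, kk n, rfl⟩ : Set.range fun k : KK => k * g * k⁻¹))
    have he1 : kk m * g * (kk m)⁻¹ = kk n * g * (kk n)⁻¹ := congrArg Subtype.val he
    have he2 : ((kk n)⁻¹ * kk m) * g = g * ((kk n)⁻¹ * kk m) := by
      calc ((kk n)⁻¹ * kk m) * g = (kk n)⁻¹ * (kk m * g * (kk m)⁻¹) * kk m := by group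
        _ = (kk n)⁻¹ * (kk n * g * (kk n)⁻¹) * kk m := by rw [he1]
        _ = g * ((kk n)⁻¹ * kk m) := by group
    have he3 : el h (X ^ (m + 2) - X ^ (n + 2)) * (g : SL3)
        = (g : SL3) * el h (X ^ (m + 2) - X ^ (n + 2)) := by
      have h4 : el h (X ^ (m + 2) - X ^ (n + 2)) = (((kk n)⁻¹ * kk m : KK) : SL3) := by
        rw [sub_eq_neg_add, el, transvection_add, ← transvection_inv]
        rfl
      rw [h4]
      exact congrArg Subtype.val he2
    set d : Polynomial (ZMod 5) := X ^ (m + 2) - X ^ (n + 2) with hd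
    have hd0 : d ≠ 0 := pow_sub_ne (by omega)
    have he4 : (single i j d : Matrix (Fin 3) (Fin 3) (Polynomial (ZMod 5)))
        * ((g : SL3) : Matrix (Fin 3) (Fin 3) (Polynomial (ZMod 5)))
        = ((g : SL3) : Matrix (Fin 3) (Fin 3) (Polynomial (ZMod 5))) * single i j d := by
      have := congrArg Subtype.val he3
      simp only [Matrix.SpecialLinearGroup.coe_mul, transvection_coe, mul_add, add_mul, mul_one, one_mul] at this
      exact add_left_cancel this
    have hs : (single i j d : Matrix (Fin 3) (Fin 3) (Polynomial (ZMod 5)))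
        = d • single i j 1 := by
      rw [smul_single, smul_eq_mul, mul_one]
    rw [hs, smul_mul_assoc, mul_smul_comm] at he4
    exact smul_right_injective _ hd0 he4
  obtain ⟨r, hr⟩ := mem_range_scalar_iff_commute_single.mpr key
  have hdet : r ^ 3 = 1 := by
    have h1 := (g : SL3).2
    rw [← hr, scalar_apply, det_diagonal] at h1
    simpa using h1
  have hu : IsUnit r := by
    refine IsUnit.of_mul_eq_one (r ^ 2) ?_
    rw [← hdet]; ring
  obtain ⟨u, -, hu2⟩ := Polynomial.isUnit_iff.mp hu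
  have hu3 : u ^ 3 = 1 := by
    have : (C u : Polynomial (ZMod 5)) ^ 3 = C 1 := by rw [hu2, hdet, map_one]
    rw [← C_pow] at this
    exact C_injective this
  have hdec : ∀ u : ZMod 5, u ^ 3 = 1 → u = 1 := by decide
  have hu4 : u = 1 := hdec u hu3
  have hr1 : r = 1 := by rw [← hu2, hu4, map_one]
  apply Subtype.ext
  apply Subtype.ext
  rw [← hr, hr1, map_one]
  rfl

theorem a_ne : (⟨el h01 1, a_mem⟩ : KK) ≠ 1 := by
  intro h
  have h1 : el h01 (1 : Polynomial (ZMod 5)) = 1 := congrArg Subtype.val h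
  have h2 := congrArg (fun M : SL3 => M.1 0 1) h1
  simp [transvection_coe] at h2

theorem infinite_KK : Infinite KK := by
  by_contra h
  rw [not_infinite_iff_finite] at h
  exact icc_KK _ a_ne (Set.toFinite _)

theorem countable_KK : Countable KK := by
  have h1 : Countable (Polynomial (ZMod 5)) := by
    rw [← Cardinal.mk_le_aleph0_iff]
    refine Polynomial.cardinalMk_le_max.trans ?_
    simp
  have h2 : Countable (Fin 3 → Fin 3 → Polynomial (ZMod 5)) := inferInstance
  have h3 : Countable (Matrix (Fin 3) (Fin 3) (Polynomial (ZMod 5))) := h2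
  have h4 : Countable SL3 := by
    have : Function.Injective (fun M : SL3 => M.1) := Subtype.val_injective
    exact this.countable
  infer_instance

theorem closure_KK : Subgroup.closure
    ({⟨el h01 1, a_mem⟩, ⟨el h12 1, b_mem⟩, ⟨el h20 X, c_mem⟩} : Set KK) = ⊤ := by
  have h := Subgroup.closure_closure_coe_preimage (k := gens)
  have e : ({⟨el h01 1, a_mem⟩, ⟨el h12 1, b_mem⟩, ⟨el h20 X, c_mem⟩} : Set KK)
      = Subtype.val ⁻¹' gens := by
    ext x
    simp only [Set.mem_insert_iff, Set.mem_singleton_iff, Set.mem_preimage, gens, Subtype.ext_iff]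
  rw [e]
  exact h

end Pool.Agent.VN.PT
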