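import Pool.Agent.VN.PTC
import Pool.Agent.VN.PTK

/-!
# MP_7e9189_lc: an icc group with property (T)
-/

set_option autoImplicit false

namespace Pool.Agent.VN

/-- Property (T), in the form of uniform closeness of orbits (for Hilbert spaces in `Type`). -/
def PropT (K : Type) [Group K] : Prop :=
  ∃ (S : Finset K) (C : ℝ), 0 < C ∧
    ∀ (H : Type) [NormedAddCommGroup H] [InnerProductSpace ℂ H] [CompleteSpace H]
      (π : K →* (H →L[ℂ] H)), (∀ g x, ‖π g x‖ = ‖x‖) →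
      ∀ (x : H) (δ : ℝ), (∀ s ∈ S, ‖π s x - x‖ ≤ δ) → ∀ g, ‖π g x - x‖ ≤ C * δ

/-- Infinite conjugacy classes. -/
def Icc (K : Type) [Group K] : Prop :=
  ∀ g : K, g ≠ 1 → (Set.range fun k : K => k * g * k⁻¹).Infinite

/-- The abstract criterion: three elements of order dividing `5` whose pairwise commutators are
central in the subgroup generated by the pair. -/
theorem propT_of_triangle {K : Type} [Group K] (a b c : K)
    (ha : a ^ 5 = 1) (hb : b ^ 5 = 1) (hc : c ^ 5 = 1)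
    (hab : Commute (a * b * a⁻¹ * b⁻¹) a ∧ Commute (a * b * a⁻¹ * b⁻¹) b)
    (hbc : Commute (b * c * b⁻¹ * c⁻¹) b ∧ Commute (b * c * b⁻¹ * c⁻¹) c)
    (hca : Commute (c * a * c⁻¹ * a⁻¹) c ∧ Commute (c * a * c⁻¹ * a⁻¹) a)
    (hK : Subgroup.closure {a, b, c} = ⊤) : PropT K := by
  classical
  obtain ⟨C, hC, h⟩ := PT.kazhdan ha hb hc hab hbc hca hK
  refine ⟨{a, b, c}, C, hC, ?_⟩
  intro H _ _ _ π hπ x δ hx
  exact h H π hπ x δ (hx a (by simp)) (hx b (by simp)) (hx c (by simp))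

/-- There is a countable infinite icc group with property (T). -/
theorem exists_K : ∃ (K : Type) (_ : Group K), Countable K ∧ Infinite K ∧ PropT K ∧ Icc K := by
  refine ⟨PT.KK, inferInstance, PT.countable_KK, PT.infinite_KK, ?_, PT.icc_KK⟩
  have cab : Commute (PT.el PT.h01 1 * PT.el PT.h12 1 * (PT.el PT.h01 1)⁻¹ * (PT.el PT.h12 1)⁻¹)
      (PT.el PT.h01 1) ∧
      Commute (PT.el PT.h01 1 * PT.el PT.h12 1 * (PT.el PT.h01 1)⁻¹ * (PT.el PT.h12 1)⁻¹)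
      (PT.el PT.h12 1) := by
    rw [PT.el_comm PT.h01 PT.h12 PT.h02]
    exact ⟨PT.el_commute_left PT.h01 PT.h02 _ _, PT.el_commute_right PT.h12 PT.h02 _ _⟩
  have cbc : Commute (PT.el PT.h12 1 * PT.el PT.h20 Polynomial.X * (PT.el PT.h12 1)⁻¹
        * (PT.el PT.h20 Polynomial.X)⁻¹) (PT.el PT.h12 1) ∧
      Commute (PT.el PT.h12 1 * PT.el PT.h20 Polynomial.X * (PT.el PT.h12 1)⁻¹
        * (PT.el PT.h20 Polynomial.X)⁻¹) (PT.el PT.h20 Polynomial.X) := by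
    rw [PT.el_comm PT.h12 PT.h20 PT.h10]
    exact ⟨PT.el_commute_left PT.h12 PT.h10 _ _, PT.el_commute_right PT.h20 PT.h10 _ _⟩
  have cca : Commute (PT.el PT.h20 Polynomial.X * PT.el PT.h01 1 * (PT.el PT.h20 Polynomial.X)⁻¹
        * (PT.el PT.h01 1)⁻¹) (PT.el PT.h20 Polynomial.X) ∧
      Commute (PT.el PT.h20 Polynomial.X * PT.el PT.h01 1 * (PT.el PT.h20 Polynomial.X)⁻¹
        * (PT.el PT.h01 1)⁻¹) (PT.el PT.h01 1) := by
    rw [PT.el_comm PT.h20 PT.h01 PT.h21]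
    exact ⟨PT.el_commute_left PT.h20 PT.h21 _ _, PT.el_commute_right PT.h01 PT.h21 _ _⟩
  exact propT_of_triangle ⟨PT.el PT.h01 1, PT.a_mem⟩ ⟨PT.el PT.h12 1, PT.b_mem⟩
    ⟨PT.el PT.h20 Polynomial.X, PT.c_mem⟩
    (Subtype.ext (PT.el_pow_five PT.h01 _)) (Subtype.ext (PT.el_pow_five PT.h12 _))
    (Subtype.ext (PT.el_pow_five PT.h20 _))
    ⟨Subtype.ext cab.1, Subtype.ext cab.2⟩ ⟨Subtype.ext cbc.1, Subtype.ext cbc.2⟩
    ⟨Subtype.ext cca.1, Subtype.ext cca.2⟩ PT.closure_KK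

end Pool.Agent.VN
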