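import Mathlib
import Pool.Agent.VN.PropT

/-!
# MP_7e9189_lc: the group `GA K A = (⊕_A K) ⋊ (K × A)`
-/

set_option autoImplicit false
set_option linter.unusedSectionVars false

namespace Pool.Agent.VN

/-- Elements `(f, k, a)` of `(⊕_A K) ⋊ (K × A)`; `K` acts on the sum by conjugation of values and
`A` by translation. -/
@[ext] structure GA (K A : Type) [Group K] where
  f : A → K
  hf : (Function.mulSupport f).Finite
  k : K
  a : A

namespace GA

variable {K A : Type} [Group K] [Group A]

instance : Mul (GA K A) := ⟨fun x y =>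
  { f := fun b => x.f b * (x.k * y.f (x.a⁻¹ * b) * x.k⁻¹)
    hf := by
      apply (x.hf.union (y.hf.image fun b => x.a * b)).subset
      intro b hb
      by_contra h
      simp only [Set.mem_union, Function.mem_mulSupport, Set.mem_image, not_or, not_not,
        not_exists, not_and] at h
      apply hb
      have h2 : y.f (x.a⁻¹ * b) = 1 := by
        by_contra h3
        exact h.2 _ h3 (by simp)
      simp [h.1, h2]
    k := x.k * y.k
    a := x.a * y.a }⟩

instance : One (GA K A) := ⟨{ f := fun _ => 1, hf := by simp, k := 1, a := 1 }⟩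

instance : Inv (GA K A) := ⟨fun x =>
  { f := fun b => x.k⁻¹ * (x.f (x.a * b))⁻¹ * x.k
    hf := by
      apply (x.hf.image fun b => x.a⁻¹ * b).subset
      intro b hb
      refine ⟨x.a * b, ?_, by simp⟩
      intro h
      apply hb
      simp [h]
    k := x.k⁻¹
    a := x.a⁻¹ }⟩

@[simp] theorem mul_f (x y : GA K A) (b : A) :
    (x * y).f b = x.f b * (x.k * y.f (x.a⁻¹ * b) * x.k⁻¹) := rfl
@[simp] theorem mul_k (x y : GA K A) : (x * y).k = x.k * y.k := rfl
@[simp] theorem mul_a (x y : GA K A) : (x * y).a = x.a * y.a := rfl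
@[simp] theorem one_f (b : A) : (1 : GA K A).f b = 1 := rfl
@[simp] theorem one_k : (1 : GA K A).k = 1 := rfl
@[simp] theorem one_a : (1 : GA K A).a = 1 := rfl
@[simp] theorem inv_f (x : GA K A) (b : A) : (x⁻¹).f b = x.k⁻¹ * (x.f (x.a * b))⁻¹ * x.k := rfl
@[simp] theorem inv_k (x : GA K A) : (x⁻¹).k = x.k⁻¹ := rfl
@[simp] theorem inv_a (x : GA K A) : (x⁻¹).a = x.a⁻¹ := rfl

instance : Group (GA K A) where
  mul_assoc x y z := by
    ext b <;> simp [mul_assoc]
  one_mul x := by ext b <;> simp
  mul_one x := by ext b <;> simp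
  inv_mul_cancel x := by ext b <;> simp [mul_assoc]

/-- The element `a` of `A` in `GA K A`. -/
def inA (a : A) : GA K A := { f := fun _ => 1, hf := by simp, k := 1, a := a }

open Classical in
/-- `ι k h` is the function equal to `k` off `e` and to `h` at `e`. -/
noncomputable def iot (k h : K) : GA K A where
  f := fun b => if b = 1 then h * k⁻¹ else 1
  hf := (Set.finite_singleton (1 : A)).subset (by
    intro b hb
    by_contra h1
    apply hb
    simp only [Set.mem_singleton_iff] at h1
    simp [h1])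
  k := k
  a := 1

variable (K A) in
/-- The embedding of `K × K` in `GA K A`. -/
noncomputable def iota : K × K →* GA K A where
  toFun p := iot p.1 p.2
  map_one' := by ext b <;> simp [iot]
  map_mul' p q := by
    ext b
    · by_cases hb : b = 1 <;> simp [iot, hb, mul_assoc]
    · simp [iot]
    · simp [iot]

theorem GA_iota_f (p : K × K) (b : A) [Decidable (b = 1)] :
    (iota K A p).f b = if b = 1 then p.2 * p.1⁻¹ else 1 := by
  by_cases hb : b = 1 <;> simp [iota, iot, hb]

theorem GA_iota_k (p : K × K) : (iota K A p).k = p.1 := rfl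

theorem GA_iota_a (p : K × K) : (iota K A p).a = 1 := rfl

theorem GA_iota_diag_f (k : K) (b : A) : (iota K A (k, k)).f b = 1 := by
  classical
  rw [GA_iota_f]
  simp

theorem GA_conj_k (k : K) (x : GA K A) :
    (iota K A (k, k) * x * (iota K A (k, k))⁻¹).k = k * x.k * k⁻¹ := rfl

theorem GA_conj_f (k : K) (x : GA K A) (b : A) :
    (iota K A (k, k) * x * (iota K A (k, k))⁻¹).f b = k * x.f b * k⁻¹ := by
  rw [mul_f, mul_f, inv_f, GA_iota_diag_f, GA_iota_diag_f, GA_iota_k, GA_iota_a]
  simp

theorem GA_inA_f (a b : A) : (inA a : GA K A).f b = 1 := rfl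

theorem GA_inA_k (a : A) : (inA a : GA K A).k = 1 := rfl

theorem GA_inA_a (a : A) : (inA a : GA K A).a = a := rfl

theorem GA_conj_inA_f (a : A) (h : K) (b : A) :
    (inA a * iota K A (1, h) * (inA a)⁻¹).f b = (iota K A (1, h)).f (a⁻¹ * b) := by
  rw [mul_f, mul_f, inv_f, GA_inA_f, GA_inA_f, GA_inA_k, GA_inA_a]
  simp

theorem GA_conj_inA_k (a : A) (h : K) :
    (inA a * iota K A (1, h) * (inA a)⁻¹).k = 1 := by
  rw [mul_k, mul_k, inv_k, GA_inA_k, GA_iota_k]
  simp

theorem GA_conj_inA_a (a : A) (h : K) :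
    (inA a * iota K A (1, h) * (inA a)⁻¹).a = 1 := by
  rw [mul_a, mul_a, inv_a, GA_inA_a, GA_iota_a]
  simp

/-- (F1) an element with finite orbit under conjugation by the constants lies in `A`. -/
theorem eq_inA_of_finite (hK : Icc K) (x : GA K A)
    (h : (Set.range fun k : K => iota K A (k, k) * x * (iota K A (k, k))⁻¹).Finite) :
    ∃ a : A, x = inA a := by
  have hk : x.k = 1 := by
    by_contra h1
    refine hK x.k h1 ((h.image GA.k).subset ?_)
    rintro _ ⟨k, rfl⟩
    exact ⟨_, ⟨k, rfl⟩, rfl⟩
  have hf : ∀ b, x.f b = 1 := by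
    intro b
    by_contra h1
    refine hK (x.f b) h1 ((h.image (fun y => y.f b)).subset ?_)
    rintro _ ⟨k, rfl⟩
    exact ⟨_, ⟨k, rfl⟩, GA_conj_f k x b⟩
  refine ⟨x.a, ?_⟩
  ext b
  · exact hf b
  · exact hk
  · rfl

/-- (F2) an element with finite orbit under conjugation by the copy of `K` at `e`
has trivial `A`-part. -/
theorem a_eq_one_of_finite [Infinite K] (x : GA K A)
    (h : (Set.range fun k : K => iota K A (1, k) * x * (iota K A (1, k))⁻¹).Finite) :
    x.a = 1 := by
  classical
  by_contra h1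
  have h2 : ∀ k : K, (iota K A (1, k) * x * (iota K A (1, k))⁻¹).f 1 = k * x.f 1 := by
    intro k
    have h3 : x.a⁻¹ ≠ 1 := by
      intro h4
      exact h1 (inv_eq_one.mp h4)
    rw [mul_f, mul_f, inv_f, mul_k, mul_a, GA_iota_k, GA_iota_a, GA_iota_f, GA_iota_f]
    simp [h3]
  have h3 : Function.Injective (fun k : K => k * x.f 1) := by
    intro k k' e
    exact mul_right_cancel e
  refine Set.infinite_range_of_injective h3 ((h.image (fun y => y.f 1)).subset ?_)
  rintro _ ⟨k, rfl⟩
  exact ⟨_, ⟨k, rfl⟩, h2 k⟩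

theorem inA_mul (a b : A) : (inA (a * b) : GA K A) = inA a * inA b := by
  ext c
  · simp [inA]
  · simp [inA]
  · simp [inA]

theorem inA_injective : Function.Injective (inA : A → GA K A) := by
  intro a b h
  exact congrArg GA.a h

theorem inA_commute (a : A) (k : K) : Commute (inA a) (iota K A (k, k)) := by
  change inA a * iota K A (k, k) = iota K A (k, k) * inA a
  ext b
  · rw [mul_f, mul_f, GA_iota_diag_f, GA_iota_diag_f, GA_inA_f, GA_inA_f]
    simp
  · rw [mul_k, mul_k, GA_inA_k, one_mul, mul_one]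
  · rw [mul_a, mul_a, GA_iota_a, one_mul, mul_one]

/-- the copies of `K` at `a ≠ 1` and at `1` commute. -/
theorem conj_commute (a : A) (ha : a ≠ 1) (h h' : K) :
    Commute (inA a * iota K A (1, h) * (inA a)⁻¹) (iota K A (1, h')) := by
  classical
  change inA a * iota K A (1, h) * (inA a)⁻¹ * iota K A (1, h') =
    iota K A (1, h') * (inA a * iota K A (1, h) * (inA a)⁻¹)
  ext b
  · rw [mul_f _ (iota K A (1, h')), mul_f (iota K A (1, h')), GA_conj_inA_f, GA_conj_inA_f,
      GA_conj_inA_k, GA_conj_inA_a, GA_iota_k, GA_iota_a]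
    simp only [inv_one, one_mul, mul_one]
    rw [GA_iota_f, GA_iota_f]
    by_cases hb : b = 1
    · have h2 : a⁻¹ * b ≠ 1 := by
        rw [hb, mul_one]
        intro h3
        exact ha (inv_eq_one.mp h3)
      rw [if_neg h2, one_mul, mul_one]
    · rw [if_neg hb, one_mul, mul_one]
  · rw [mul_k _ (iota K A (1, h')), mul_k (iota K A (1, h')), GA_conj_inA_k, GA_iota_k]
  · rw [mul_a _ (iota K A (1, h')), mul_a (iota K A (1, h')), GA_conj_inA_a, GA_iota_a]

/-- (F4) -/
theorem conj_injective (h : K) (hh : h ≠ 1) (b b' : A)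
    (e : (inA b * iota K A (1, h) * (inA b)⁻¹ : GA K A) =
      inA b' * iota K A (1, h) * (inA b')⁻¹) : b = b' := by
  classical
  have h1 := congrArg (fun x : GA K A => x.f b) e
  beta_reduce at h1
  rw [GA_conj_inA_f, GA_conj_inA_f, GA_iota_f, GA_iota_f] at h1
  rw [if_pos (inv_mul_cancel b)] at h1
  by_cases h2 : b'⁻¹ * b = 1
  · exact (inv_mul_eq_one.mp h2).symm
  · rw [if_neg h2] at h1
    exact absurd (by simpa using h1) hh

instance countable [Countable K] [Countable A] : Countable (GA K A) := by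
  have : Countable (Additive K) := Countable.of_equiv K Additive.ofMul
  have hfin : ∀ x : GA K A,
      (Function.support (fun b => Additive.ofMul (x.f b))).Finite := by
    intro x
    refine x.hf.subset ?_
    intro b hb h1
    apply hb
    change Additive.ofMul (x.f b) = 0
    rw [h1]
    rfl
  have hinj : Function.Injective (fun x : GA K A =>
      ((Finsupp.ofSupportFinite _ (hfin x) : A →₀ Additive K), x.k, x.a)) := by
    intro x y h
    rw [Prod.mk.injEq, Prod.mk.injEq] at h
    ext b
    · have h1 := DFunLike.congr_fun h.1 b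
      exact Additive.ofMul.injective h1
    · exact h.2.1
    · exact h.2.2
  exact hinj.countable

end GA

end Pool.Agent.VN
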