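import Pool.Agent.VN.BFSys
import Pool.Agent.VN.GA

/-!
# MP_7e9189_lc: back-and-forth systems and the functor `GA K`
-/

set_option autoImplicit false

namespace Pool.Agent.VN

variable {G H : Type} [Group G] [Group H] {α : Ordinal.{0}}

/-- the graph of the induced partial isomorphism -/
def BFGa_hat (K : Type) [Group K] {G H : Type} [Group G] [Group H] (Γ : Subgroup (G × H)) :
    Subgroup (GA K G × GA K H) where
  carrier := {p | p.1.k = p.2.k ∧ (p.1.a, p.2.a) ∈ Γ ∧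
    (∀ x y, (x, y) ∈ Γ → p.1.f x = p.2.f y) ∧
    (∀ x, p.1.f x ≠ 1 → ∃ y, (x, y) ∈ Γ) ∧ (∀ y, p.2.f y ≠ 1 → ∃ x, (x, y) ∈ Γ)}
  one_mem' := by
    refine ⟨rfl, Γ.one_mem, fun x y _ => rfl, fun x hx => absurd rfl hx, fun y hy => absurd rfl hy⟩
  mul_mem' := by
    rintro p q ⟨h1, h2, h3, h4, h5⟩ ⟨g1, g2, g3, g4, g5⟩
    refine ⟨?_, ?_, ?_, ?_, ?_⟩
    · simp [h1, g1]
    · have := Γ.mul_mem h2 g2
      simpa using this
    · intro x y hxy
      have h6 : (p.1.a⁻¹ * x, p.2.a⁻¹ * y) ∈ Γ := by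
        have := Γ.mul_mem (Γ.inv_mem h2) hxy
        simpa using this
      simp [h3 x y hxy, g3 _ _ h6, h1]
    · intro x hx
      by_cases h6 : p.1.f x = 1
      · have h7 : q.1.f (p.1.a⁻¹ * x) ≠ 1 := by
          intro h8
          apply hx
          simp [h6, h8]
        obtain ⟨y, hy⟩ := g4 _ h7
        refine ⟨p.2.a * y, ?_⟩
        have := Γ.mul_mem h2 hy
        simpa using this
      · exact h4 x h6
    · intro y hy
      by_cases h6 : p.2.f y = 1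
      · have h7 : q.2.f (p.2.a⁻¹ * y) ≠ 1 := by
          intro h8
          apply hy
          simp [h6, h8]
        obtain ⟨x, hx⟩ := g5 _ h7
        refine ⟨p.1.a * x, ?_⟩
        have := Γ.mul_mem h2 hx
        simpa using this
      · exact h5 y h6
  inv_mem' := by
    rintro p ⟨h1, h2, h3, h4, h5⟩
    refine ⟨?_, ?_, ?_, ?_, ?_⟩
    · simp [h1]
    · have := Γ.inv_mem h2
      simpa using this
    · intro x y hxy
      have h6 : (p.1.a * x, p.2.a * y) ∈ Γ := by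
        have := Γ.mul_mem h2 hxy
        simpa using this
      simp [h3 _ _ h6, h1]
    · intro x hx
      have h7 : p.1.f (p.1.a * x) ≠ 1 := by
        intro h8
        apply hx
        simp [h8]
      obtain ⟨y, hy⟩ := h4 _ h7
      refine ⟨p.2.a⁻¹ * y, ?_⟩
      have := Γ.mul_mem (Γ.inv_mem h2) hy
      simpa using this
    · intro y hy
      have h7 : p.2.f (p.2.a * y) ≠ 1 := by
        intro h8
        apply hy
        simp [h8]
      obtain ⟨x, hx⟩ := h5 _ h7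
      refine ⟨p.1.a⁻¹ * x, ?_⟩
      have := Γ.mul_mem (Γ.inv_mem h2) hx
      simpa using this

theorem BFGa_mem_hat {K : Type} [Group K] {Γ : Subgroup (G × H)} {p : GA K G × GA K H} :
    p ∈ BFGa_hat K Γ ↔ p.1.k = p.2.k ∧ (p.1.a, p.2.a) ∈ Γ ∧
    (∀ x y, (x, y) ∈ Γ → p.1.f x = p.2.f y) ∧
    (∀ x, p.1.f x ≠ 1 → ∃ y, (x, y) ∈ Γ) ∧ (∀ y, p.2.f y ≠ 1 → ∃ x, (x, y) ∈ Γ) := Iff.rfl

theorem BFGa_inj_right {Γ : Subgroup (G × H)} (hΓ : ∀ p ∈ Γ, p.1 = 1 ↔ p.2 = 1) {x : G}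
    {y y' : H} (h : (x, y) ∈ Γ) (h' : (x, y') ∈ Γ) : y = y' := by
  have h1 := Γ.mul_mem (Γ.inv_mem h) h'
  have h2 := hΓ _ h1
  have h3 : y⁻¹ * y' = 1 := by
    apply h2.1
    simp
  exact (inv_mul_eq_one.1 h3)

theorem BFGa_inj_left {Γ : Subgroup (G × H)} (hΓ : ∀ p ∈ Γ, p.1 = 1 ↔ p.2 = 1) {x x' : G}
    {y : H} (h : (x, y) ∈ Γ) (h' : (x', y) ∈ Γ) : x = x' := by
  have h1 := Γ.mul_mem (Γ.inv_mem h) h'
  have h2 := hΓ _ h1
  have h3 : x⁻¹ * x' = 1 := by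
    apply h2.2
    simp
  exact (inv_mul_eq_one.1 h3)

theorem BFGa_hat_iso {K : Type} [Group K] {Γ : Subgroup (G × H)}
    (hΓ : ∀ p ∈ Γ, p.1 = 1 ↔ p.2 = 1) (p : GA K G × GA K H) (hp : p ∈ BFGa_hat K Γ) :
    p.1 = 1 ↔ p.2 = 1 := by
  obtain ⟨h1, h2, h3, h4, h5⟩ := hp
  have h6 := hΓ _ h2
  simp only at h6
  constructor
  · intro h
    rw [h] at h1 h3 h6
    apply GA.ext
    · funext y
      by_contra hc
      obtain ⟨x, hx⟩ := h5 y hc
      exact hc (h3 x y hx).symm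
    · exact h1.symm
    · exact h6.1 rfl
  · intro h
    rw [h] at h1 h3 h6
    apply GA.ext
    · funext x
      by_contra hc
      obtain ⟨y, hy⟩ := h4 x hc
      exact hc (h3 x y hy)
    · exact h1
    · exact h6.2 rfl

theorem BFGa_hat_mono {K : Type} [Group K] {Γ Γ' : Subgroup (G × H)} (hle : Γ ≤ Γ')
    (hΓ' : ∀ p ∈ Γ', p.1 = 1 ↔ p.2 = 1) : BFGa_hat K Γ ≤ BFGa_hat K Γ' := by
  rintro p ⟨h1, h2, h3, h4, h5⟩
  refine ⟨h1, hle h2, ?_, ?_, ?_⟩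
  · intro x y hxy
    by_cases hx : p.1.f x = 1
    · by_cases hy : p.2.f y = 1
      · rw [hx, hy]
      · obtain ⟨x', hx'⟩ := h5 y hy
        have : x = x' := BFGa_inj_left hΓ' hxy (hle hx')
        subst this
        exact h3 x y hx'
    · obtain ⟨y', hy'⟩ := h4 x hx
      have : y = y' := BFGa_inj_right hΓ' hxy (hle hy')
      subst this
      exact h3 x y hy'
  · intro x hx
    obtain ⟨y, hy⟩ := h4 x hx
    exact ⟨y, hle hy⟩
  · intro y hy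
    obtain ⟨x, hx⟩ := h5 y hy
    exact ⟨x, hle hx⟩

open Classical in
theorem BFGa_partner {K : Type} [Group K] {Γ : Subgroup (G × H)}
    (hΓ : ∀ p ∈ Γ, p.1 = 1 ↔ p.2 = 1) (z : GA K G) (ha : ∃ b, (z.a, b) ∈ Γ)
    (hs : ∀ x ∈ Function.mulSupport z.f, ∃ y, (x, y) ∈ Γ) :
    ∃ w : GA K H, (z, w) ∈ BFGa_hat K Γ := by
  obtain ⟨b, hb⟩ := ha
  let F : H → K := fun y => if h : ∃ x, (x, y) ∈ Γ then z.f h.choose else 1
  let P : G → H := fun x => if h : ∃ y, (x, y) ∈ Γ then h.choose else 1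
  have hF : ∀ x y, (x, y) ∈ Γ → F y = z.f x := by
    intro x y hxy
    have h : ∃ x, (x, y) ∈ Γ := ⟨x, hxy⟩
    have h1 : F y = z.f h.choose := dif_pos h
    rw [h1, BFGa_inj_left hΓ h.choose_spec hxy]
  have hP : ∀ x y, (x, y) ∈ Γ → P x = y := by
    intro x y hxy
    have h : ∃ y, (x, y) ∈ Γ := ⟨y, hxy⟩
    have h1 : P x = h.choose := dif_pos h
    rw [h1, BFGa_inj_right hΓ h.choose_spec hxy]
  have hF' : ∀ y, F y ≠ 1 → ∃ x, (x, y) ∈ Γ := by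
    intro y hy
    by_contra hc
    exact hy (dif_neg hc)
  have hfin : (Function.mulSupport F).Finite := by
    apply (z.hf.image P).subset
    intro y hy
    obtain ⟨x, hx⟩ := hF' y hy
    refine ⟨x, ?_, hP x y hx⟩
    rw [Function.mem_mulSupport] at hy ⊢
    rwa [hF x y hx] at hy
  refine ⟨{ f := F, hf := hfin, k := z.k, a := b }, rfl, hb, fun x y hxy => (hF x y hxy).symm, ?_, ?_⟩
  · intro x hx
    exact hs x hx
  · intro y hy
    exact hF' y hy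

/-- the inverse graph -/
def BFGa_swap (Γ : Subgroup (G × H)) : Subgroup (H × G) :=
  Γ.comap (MulEquiv.prodComm : H × G ≃* G × H).toMonoidHom

theorem BFGa_mem_swap {Γ : Subgroup (G × H)} {x : G} {y : H} :
    (y, x) ∈ BFGa_swap Γ ↔ (x, y) ∈ Γ := Iff.rfl

theorem BFGa_swap_hat {K : Type} [Group K] {Γ : Subgroup (G × H)} {z : GA K G} {w : GA K H}
    (h : (w, z) ∈ BFGa_hat K (BFGa_swap Γ)) : (z, w) ∈ BFGa_hat K Γ := by
  obtain ⟨h1, h2, h3, h4, h5⟩ := h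
  exact ⟨h1.symm, h2, fun x y hxy => (h3 y x hxy).symm, h5, h4⟩

/-- A system between `A` and `B` gives one between `GA K A` and `GA K B`. -/
theorem BFSys.ga (K : Type) [Group K] (S : BFSys G H α) : Nonempty (BFSys (GA K G) (GA K H) α) := by
  refine ⟨⟨fun β => {Δ | ∃ Γ ∈ S.I β, Δ = BFGa_hat K Γ}, ?_, ?_, ?_, ?_⟩⟩
  · rintro β hβ _ ⟨Γ, hΓ, rfl⟩ p hp
    exact BFGa_hat_iso (S.iso β hβ Γ hΓ) p hp
  · rintro β hβ γ hγ _ ⟨Γ, hΓ, rfl⟩ s hs
    obtain ⟨Γ', hΓ', hle, ht⟩ := S.forth β hβ γ hγ Γ hΓ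
      (⋃ z ∈ s, insert z.a (Function.mulSupport z.f))
      (hs.biUnion (fun z _ => z.hf.insert _))
    have hiso := S.iso γ (hγ.le.trans hβ) Γ' hΓ'
    refine ⟨BFGa_hat K Γ', ⟨Γ', hΓ', rfl⟩, BFGa_hat_mono hle hiso, ?_⟩
    intro z hz
    apply BFGa_partner hiso z
    · apply ht
      exact Set.mem_biUnion hz (Set.mem_insert _ _)
    · intro x hx
      apply ht
      exact Set.mem_biUnion hz (Set.mem_insert_of_mem _ hx)
  · rintro β hβ γ hγ _ ⟨Γ, hΓ, rfl⟩ s hs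
    obtain ⟨Γ', hΓ', hle, ht⟩ := S.back β hβ γ hγ Γ hΓ
      (⋃ z ∈ s, insert z.a (Function.mulSupport z.f))
      (hs.biUnion (fun z _ => z.hf.insert _))
    have hiso := S.iso γ (hγ.le.trans hβ) Γ' hΓ'
    have hiso' : ∀ p ∈ BFGa_swap Γ', p.1 = 1 ↔ p.2 = 1 := by
      rintro ⟨y, x⟩ hp
      exact (hiso (x, y) hp).symm
    refine ⟨BFGa_hat K Γ', ⟨Γ', hΓ', rfl⟩, BFGa_hat_mono hle hiso, ?_⟩
    intro w hw
    have h1 : ∃ z : GA K G, (w, z) ∈ BFGa_hat K (BFGa_swap Γ') := by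
      apply BFGa_partner hiso' w
      · exact ht _ (Set.mem_biUnion hw (Set.mem_insert _ _))
      · intro y hy
        exact ht _ (Set.mem_biUnion hw (Set.mem_insert_of_mem _ hy))
    obtain ⟨z, hz⟩ := h1
    exact ⟨z, BFGa_swap_hat hz⟩
  · obtain ⟨Γ, hΓ⟩ := S.ne
    exact ⟨_, Γ, hΓ, rfl⟩

end Pool.Agent.VN
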