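import Pool.Agent.VN.Defs

/-!
# MP_7e9189_lc: back-and-forth systems
-/

set_option autoImplicit false

namespace Pool.Agent.VN

/-- A back-and-forth system of partial isomorphisms (given by their graphs) up to level `α`. -/
structure BFSys (G H : Type) [Group G] [Group H] (α : Ordinal.{0}) where
  I : Ordinal.{0} → Set (Subgroup (G × H))
  iso : ∀ β ≤ α, ∀ Γ ∈ I β, ∀ p ∈ Γ, p.1 = 1 ↔ p.2 = 1
  forth : ∀ β ≤ α, ∀ γ < β, ∀ Γ ∈ I β, ∀ s : Set G, s.Finite →
    ∃ Γ' ∈ I γ, Γ ≤ Γ' ∧ ∀ x ∈ s, ∃ y, (x, y) ∈ Γ'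
  back : ∀ β ≤ α, ∀ γ < β, ∀ Γ ∈ I β, ∀ s : Set H, s.Finite →
    ∃ Γ' ∈ I γ, Γ ≤ Γ' ∧ ∀ y ∈ s, ∃ x, (x, y) ∈ Γ'
  ne : (I α).Nonempty

variable {G H : Type} [Group G] [Group H] {α : Ordinal.{0}}

theorem BFSys_sameAtomic {Γ : Subgroup (G × H)} (hΓ : ∀ p ∈ Γ, p.1 = 1 ↔ p.2 = 1) {n : ℕ}
    (a : Fin n → G) (b : Fin n → H) (h : ∀ i, (a i, b i) ∈ Γ) : SameAtomic a b := by
  intro w
  have h1 : FreeGroup.lift (fun i => (a i, b i)) w ∈ Γ :=
    FreeGroup.range_lift_le (s := Γ) (by rintro _ ⟨i, rfl⟩; exact h i) ⟨w, rfl⟩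
  have h2 : (FreeGroup.lift (fun i => (a i, b i)) w).1 = FreeGroup.lift a w := by
    have : (MonoidHom.fst G H).comp (FreeGroup.lift (fun i => (a i, b i))) = FreeGroup.lift a := by
      ext i; simp
    exact DFunLike.congr_fun this w
  have h3 : (FreeGroup.lift (fun i => (a i, b i)) w).2 = FreeGroup.lift b w := by
    have : (MonoidHom.snd G H).comp (FreeGroup.lift (fun i => (a i, b i))) = FreeGroup.lift b := by
      ext i; simp
    exact DFunLike.congr_fun this w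
  rw [← h2, ← h3]
  exact hΓ _ h1

theorem BFSys_append {Γ : Subgroup (G × H)} {n m : ℕ} {a : Fin n → G} {b : Fin n → H}
    {c : Fin m → G} {d : Fin m → H} (h : ∀ i, (a i, b i) ∈ Γ) (h' : ∀ i, (c i, d i) ∈ Γ) :
    ∀ i, (Fin.append a c i, Fin.append b d i) ∈ Γ := by
  intro i
  refine Fin.addCases (fun j => ?_) (fun j => ?_) i
  · simpa using h j
  · simpa using h' j

theorem BFSys.bf (S : BFSys G H α) (β : Ordinal.{0}) :
    β ≤ α → ∀ Γ ∈ S.I β, ∀ (n : ℕ) (a : Fin n → G) (b : Fin n → H),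
      (∀ i, (a i, b i) ∈ Γ) → BF G H β n a b := by
  induction β using WellFoundedLT.induction with
  | ind β ih =>
    intro hβ Γ hΓ n a b hab
    rcases Ordinal.zero_or_succ_or_isSuccLimit β with h0 | ⟨γ, h1⟩ | h2
    · subst h0
      rw [BF_zero]
      exact BFSys_sameAtomic (S.iso 0 hβ Γ hΓ) a b hab
    · have h1' : β = γ + 1 := by rw [← Order.succ_eq_add_one]; exact h1.symm
      subst h1'
      have hlt : γ < γ + 1 := Order.lt_add_one_iff.2 le_rfl
      rw [BF_succ]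
      constructor
      · intro m c
        obtain ⟨Γ', hΓ', hle, hs⟩ := S.forth (γ + 1) hβ γ hlt Γ hΓ (Set.range c)
          (Set.finite_range c)
        choose d hd using fun i => hs (c i) ⟨i, rfl⟩
        refine ⟨d, ih γ hlt (hlt.le.trans hβ) Γ' hΓ' _ _ _ ?_⟩
        exact BFSys_append (fun i => hle (hab i)) hd
      · intro m d
        obtain ⟨Γ', hΓ', hle, hs⟩ := S.back (γ + 1) hβ γ hlt Γ hΓ (Set.range d)
          (Set.finite_range d)
        choose c hc using fun i => hs (d i) ⟨i, rfl⟩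
        refine ⟨c, ih γ hlt (hlt.le.trans hβ) Γ' hΓ' _ _ _ ?_⟩
        exact BFSys_append (fun i => hle (hab i)) hc
    · rw [BF_limit β h2]
      intro γ hγ
      obtain ⟨Γ', hΓ', hle, -⟩ := S.forth β hβ γ hγ Γ hΓ ∅ Set.finite_empty
      exact ih γ hγ (hγ.le.trans hβ) Γ' hΓ' n a b (fun i => hle (hab i))

/-- A system gives back-and-forth equivalence. -/
theorem BFSys.bfEquiv (S : BFSys G H α) : BFEquiv G H α := by
  obtain ⟨Γ, hΓ⟩ := S.ne
  exact S.bf α le_rfl Γ hΓ 0 _ _ (fun i => i.elim0)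

end Pool.Agent.VN
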