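import Pool.Agent.VN.Defs

/-!
# MP_7e9189_lc: the group von Neumann algebra is the commutant of the right translations;
coefficients of elements commuting with group elements
-/

set_option autoImplicit false

namespace Pool.Agent.VN

open Pool.H88.RFP

open scoped InnerProductSpace

variable {G : Type} [Group G]

open Classical in
theorem lam_mem (g : G) : lam g ∈ LG G := by
  rw [mem_LG]
  intro h
  rw [lam, rho, permL_mul, permL_mul]
  congr 1
  ext x
  simp [mul_assoc]

theorem lam_mul (g h : G) : lam (g * h) = lam g * lam h := by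
  rw [lam, lam, lam, permL_mul]
  congr 1
  ext x
  simp [mul_assoc]

theorem lam_one : lam (1 : G) = 1 := by
  rw [lam, ← permL_one]
  congr 1
  ext x
  simp

theorem star_lam (g : G) : star (lam g) = lam g⁻¹ := by
  rw [lam, star_permL, lam]
  congr 1
  ext x
  simp [Equiv.Perm.inv_def]

open Classical in
theorem Coef_lam_dl (g h : G) : lam g (dl h) = dl (g * h) := by
  rw [lam, permL_dl]
  rfl

open Classical in
/-- matrix coefficients of a bounded operator -/
theorem Coef_apply (y : HG G →L[ℂ] HG G) (ξ : HG G) (g : G) :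
    y ξ g = ∑' h, y (dl h) g * ξ h := by
  rw [← inner_dl, ← ContinuousLinearMap.adjoint_inner_left, lp.inner_eq_tsum]
  refine tsum_congr fun h => ?_
  have h1 : (ContinuousLinearMap.adjoint y (dl g)) h = (starRingEnd ℂ) (y (dl h) g) := by
    rw [← inner_dl h, ContinuousLinearMap.adjoint_inner_right, ← inner_conj_symm, inner_dl]
  rw [h1]
  simp [mul_comm]

open Classical in
theorem Coef_ext {T S : HG G →L[ℂ] HG G} (h : ∀ g, T (dl g) = S (dl g)) : T = S := by
  ext ξ g
  rw [Coef_apply T, Coef_apply S]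
  exact tsum_congr fun k => by rw [h k]

open Classical in
theorem Coef_comm_one {x y : HG G →L[ℂ] HG G} (hx : x ∈ LG G)
    (hy : ∀ g, lam g * y = y * lam g) : x (y (dl 1)) = y (x (dl 1)) := by
  apply lp.ext
  funext g
  rw [Coef_apply x, Coef_apply y]
  have hyd : ∀ h : G, y (dl h) g = y (dl 1) (h⁻¹ * g) := by
    intro h
    have h1 := congrArg (fun T : HG G →L[ℂ] HG G => T (dl (1 : G)) g) (hy h)
    change lam h (y (dl 1)) g = y (lam h (dl 1)) g at h1
    rw [Coef_lam_dl, mul_one] at h1
    rw [← h1]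
    rfl
  have hxd : ∀ h : G, x (dl h) g = x (dl 1) (g * h⁻¹) := fun h => apply_dl hx h g
  let e : G ≃ G :=
    { toFun := fun h => h⁻¹ * g
      invFun := fun k => g * k⁻¹
      left_inv := fun h => by simp
      right_inv := fun k => by simp }
  rw [← Equiv.tsum_eq e]
  refine tsum_congr fun h => ?_
  rw [hxd, hyd]
  have h2 : g * (e h)⁻¹ = h := by
    change g * (h⁻¹ * g)⁻¹ = h
    simp
  rw [h2]
  change x (dl 1) h * y (dl 1) (h⁻¹ * g) = y (dl 1) (h⁻¹ * g) * x (dl 1) h
  ring

open Classical in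
theorem Coef_comm {x y : HG G →L[ℂ] HG G} (hx : x ∈ LG G)
    (hy : ∀ g, lam g * y = y * lam g) : x * y = y * x := by
  apply Coef_ext
  intro h
  have h1 := Coef_comm_one (mul_mem hx (lam_mem h)) hy
  change x (lam h (y (dl 1))) = y (x (lam h (dl 1))) at h1
  have h2 := congrArg (fun T : HG G →L[ℂ] HG G => T (dl (1 : G))) (hy h)
  change lam h (y (dl 1)) = y (lam h (dl 1)) at h2
  rw [h2, Coef_lam_dl, mul_one] at h1
  exact h1

/-- Commutation theorem: `λ(G)'' = ρ(G)'`. -/
theorem vNA_eq_LG : vNA G = LG G := by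
  classical
  have hmem : ∀ y : HG G →L[ℂ] HG G,
      y ∈ StarSubalgebra.centralizer ℂ (Set.range (lam (G := G))) ↔
        ∀ g, lam g * y = y * lam g := by
    intro y
    rw [StarSubalgebra.mem_centralizer_iff]
    constructor
    · intro h g
      exact (h _ ⟨g, rfl⟩).1
    · rintro h _ ⟨g, rfl⟩
      refine ⟨h g, ?_⟩
      rw [star_lam]
      exact h g⁻¹
  ext x
  change x ∈ StarSubalgebra.centralizer ℂ
    (StarSubalgebra.centralizer ℂ (Set.range (lam (G := G))) : Set (HG G →L[ℂ] HG G)) ↔ x ∈ LG G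
  rw [StarSubalgebra.mem_centralizer_iff]
  constructor
  · intro h
    rw [mem_LG]
    intro g
    have h1 : rho g ∈ StarSubalgebra.centralizer ℂ (Set.range (lam (G := G))) := by
      rw [hmem]
      intro k
      exact (mem_LG.1 (lam_mem k) g).symm
    exact (h _ h1).1
  · intro hx y hy
    have hy' : y ∈ StarSubalgebra.centralizer ℂ (Set.range (lam (G := G))) := hy
    refine ⟨(Coef_comm hx ((hmem y).1 hy')).symm, ?_⟩
    exact (Coef_comm hx ((hmem (star y)).1 (star_mem hy'))).symm

open Classical in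
/-- An element of `L(G)` commuting with infinitely many-conjugating elements has coefficient `0`. -/
theorem cf_eq_zero_of_infinite {x : HG G →L[ℂ] HG G} (hx : x ∈ LG G) {ι : Type} (s : ι → G)
    (hs : ∀ i, lam (s i) * x = x * lam (s i)) (g : G)
    (hinf : (Set.range fun i => s i * g * (s i)⁻¹).Infinite) : cf x g = 0 := by
  by_contra hne
  have hconj : ∀ i, x (dl 1) (s i * g * (s i)⁻¹) = x (dl 1) g := by
    intro i
    have h1 := congrArg (fun T : HG G →L[ℂ] HG G => T (dl (1 : G)) (s i * g)) (hs i)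
    change lam (s i) (x (dl 1)) (s i * g) = x (lam (s i) (dl 1)) (s i * g) at h1
    rw [Coef_lam_dl, mul_one, apply_dl hx] at h1
    have h2 : lam (s i) (x (dl 1)) (s i * g) = x (dl 1) g := by
      rw [lam, permL_apply]
      simp
    rw [h2] at h1
    exact h1.symm
  have h2 : (0 : ℝ) < (2 : ENNReal).toReal := by norm_num
  have hsum := (memℓp_gen_iff h2).1 (lp.memℓp (x (dl (1 : G))))
  have hc : 0 < ‖x (dl (1 : G)) g‖ ^ (2 : ENNReal).toReal :=
    Real.rpow_pos_of_pos (norm_pos_iff.2 hne) _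
  have hev := (hsum.tendsto_cofinite_zero).eventually (gt_mem_nhds hc)
  rw [Filter.eventually_cofinite] at hev
  apply hinf
  refine hev.subset ?_
  rintro _ ⟨i, rfl⟩
  simp only [Set.mem_setOf_eq, not_lt]
  rw [hconj i]

open Classical in
theorem cf_lam (g h : G) : cf (lam g) h = if h = g then 1 else 0 := by
  rw [cf, Coef_lam_dl, mul_one, dl_apply]

open Classical in
theorem eq_of_cf {x y : HG G →L[ℂ] HG G} (hx : x ∈ LG G) (hy : y ∈ LG G)
    (h : ∀ g, cf x g = cf y g) : x = y := by
  have h1 : x - y = 0 := by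
    apply eq_zero_of_cf (sub_mem hx hy)
    intro g
    have h2 := h g
    rw [cf, cf] at h2
    rw [cf]
    change x (dl 1) g - y (dl 1) g = 0
    rw [h2, sub_self]
  exact sub_eq_zero.1 h1

open Classical in
theorem cf_mul_lam {x : HG G →L[ℂ] HG G} (hx : x ∈ LG G) (h g : G) :
    cf (x * lam h) g = cf x (g * h⁻¹) := by
  rw [cf]
  change x (lam h (dl 1)) g = _
  rw [Coef_lam_dl, mul_one, apply_dl hx]

open Classical in
/-- The sum of the squares of the coefficients of a unitary is `1`; in particular two different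
coefficients cannot both have modulus `1`. -/
theorem cf_unitary {x : HG G →L[ℂ] HG G} (hx : star x * x = 1) {g h : G} (hg : ‖cf x g‖ = 1)
    (hh : ‖cf x h‖ = 1) : g = h := by
  by_contra hne
  have hdl : ‖dl (1 : G)‖ = 1 := by
    rw [dl, lp.norm_single (by norm_num)]
    simp
  have hnorm : ‖x (dl (1 : G))‖ = 1 := by
    have h1 : ⟪x (dl (1 : G)), x (dl (1 : G))⟫_ℂ = ⟪dl (1 : G), dl (1 : G)⟫_ℂ := by
      rw [← ContinuousLinearMap.adjoint_inner_right, ← ContinuousLinearMap.star_eq_adjoint]
      change ⟪dl (1 : G), (star x * x) (dl (1 : G))⟫_ℂ = _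
      rw [hx]
      rfl
    rw [inner_self_eq_norm_sq_to_K, inner_self_eq_norm_sq_to_K, hdl] at h1
    have h3 : ‖x (dl (1 : G))‖ ^ 2 = 1 := by
      have h4 : ((‖x (dl (1 : G))‖ ^ 2 : ℝ) : ℂ) = ((1 : ℝ) : ℂ) := by
        push_cast
        simpa using h1
      exact_mod_cast h4
    nlinarith [norm_nonneg (x (dl (1 : G))), sq_nonneg (‖x (dl (1 : G))‖ - 1)]
  have h2 : (0 : ℝ) < (2 : ENNReal).toReal := by norm_num
  have hle := lp.sum_rpow_le_norm_rpow h2 (x (dl (1 : G))) {g, h}
  rw [Finset.sum_pair hne, hnorm] at hle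
  rw [cf] at hg hh
  rw [hg, hh] at hle
  norm_num at hle

end Pool.Agent.VN
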