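import Pool.Agent.H88.RFP.Group

/-!
# MP_7e9189_lc: definitions used in the statement

* `vN G` : the group von Neumann algebra of `G`, i.e. the double commutant of the left regular
  representation on `ℓ²(G)`.
* `BF G H α n a b` : the back-and-forth relation of level `α` between the tuples `a` of `G` and
  `b` of `H`.
-/

set_option autoImplicit false

namespace Pool.Agent.VN

open Pool.H88.RFP

/-- The left regular representation, `(lam g ξ) h = ξ (g⁻¹ * h)`, on `ℓ²(G)`. -/
noncomputable def lam {G : Type} [Group G] (g : G) : HG G →L[ℂ] HG G := permL (Equiv.mulLeft g)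

/-- The group von Neumann algebra: the double commutant of the left regular representation. -/
noncomputable def vN (G : Type) [Group G] : VonNeumannAlgebra (HG G) where
  toStarSubalgebra := StarSubalgebra.centralizer ℂ
    (StarSubalgebra.centralizer ℂ (Set.range (lam (G := G))) : Set (HG G →L[ℂ] HG G))
  centralizer_centralizer' := by
    have h := StarSubalgebra.coe_centralizer_centralizer ℂ (Set.range (lam (G := G)))
    change Set.centralizer (Set.centralizer
      ((StarSubalgebra.centralizer ℂ
        (StarSubalgebra.centralizer ℂ (Set.range (lam (G := G))) : Set (HG G →L[ℂ] HG G)) :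
          StarSubalgebra ℂ (HG G →L[ℂ] HG G)) : Set (HG G →L[ℂ] HG G))) =
      ((StarSubalgebra.centralizer ℂ
        (StarSubalgebra.centralizer ℂ (Set.range (lam (G := G))) : Set (HG G →L[ℂ] HG G)) :
          StarSubalgebra ℂ (HG G →L[ℂ] HG G)) : Set (HG G →L[ℂ] HG G))
    rw [h]
    simp

/-- The group von Neumann algebra as a `*`-algebra. -/
noncomputable abbrev vNA (G : Type) [Group G] : StarSubalgebra ℂ (HG G →L[ℂ] HG G) :=
  (vN G).toStarSubalgebra

/-- Two tuples satisfy the same atomic formulas of the language of groups. -/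
def SameAtomic {G H : Type} [Group G] [Group H] {n : ℕ} (a : Fin n → G) (b : Fin n → H) : Prop :=
  ∀ w : FreeGroup (Fin n), FreeGroup.lift a w = 1 ↔ FreeGroup.lift b w = 1

/-- The back-and-forth relation of level `α` between tuples of two groups. -/
noncomputable def BF (G H : Type) [Group G] [Group H] (α : Ordinal.{0}) :
    (n : ℕ) → (Fin n → G) → (Fin n → H) → Prop :=
  Ordinal.limitRecOn (motive := fun _ => (n : ℕ) → (Fin n → G) → (Fin n → H) → Prop) α
    (fun _ a b => SameAtomic a b)
    (fun _ R n a b =>
      (∀ (m : ℕ) (c : Fin m → G), ∃ d : Fin m → H, R (n + m) (Fin.append a c) (Fin.append b d)) ∧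
      (∀ (m : ℕ) (d : Fin m → H), ∃ c : Fin m → G, R (n + m) (Fin.append a c) (Fin.append b d)))
    (fun β _ R n a b => ∀ (γ : Ordinal.{0}) (h : γ < β), R γ h n a b)

/-- `G` and `H` are back-and-forth equivalent to level `α`. -/
def BFEquiv (G H : Type) [Group G] [Group H] (α : Ordinal.{0}) : Prop :=
  BF G H α 0 Fin.elim0 Fin.elim0

variable {G H : Type} [Group G] [Group H]

theorem BF_zero {n : ℕ} (a : Fin n → G) (b : Fin n → H) :
    BF G H 0 n a b ↔ SameAtomic a b := by
  rw [BF, Ordinal.limitRecOn_zero]

theorem BF_succ (β : Ordinal.{0}) {n : ℕ} (a : Fin n → G) (b : Fin n → H) :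
    BF G H (β + 1) n a b ↔
      (∀ (m : ℕ) (c : Fin m → G), ∃ d : Fin m → H,
        BF G H β (n + m) (Fin.append a c) (Fin.append b d)) ∧
      (∀ (m : ℕ) (d : Fin m → H), ∃ c : Fin m → G,
        BF G H β (n + m) (Fin.append a c) (Fin.append b d)) := by
  rw [BF, Ordinal.limitRecOn_add_one]
  rfl

theorem BF_limit (β : Ordinal.{0}) (hβ : Order.IsSuccLimit β) {n : ℕ} (a : Fin n → G)
    (b : Fin n → H) :
    BF G H β n a b ↔ ∀ γ < β, BF G H γ n a b := by
  rw [BF, Ordinal.limitRecOn_limit _ _ _ _ hβ]
  rfl

end Pool.Agent.VN
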