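import Pool.Agent.VN.Tree
import Pool.Agent.VN.BFSys

/-!
# MP_7e9189_lc: the back-and-forth system between the tree groups
-/

set_option autoImplicit false

namespace Pool.Agent.VN

open Ordinal Finsupp

/-- Finite isomorphisms between subtrees, respecting ranks below `o`. -/
structure RT (g g' : Om) (o : Ordinal.{0}) (E : Set (Nd Om × Nd Om)) : Prop where
  fin : E.Finite
  nil : (([] : Nd Om), ([] : Nd Om)) ∈ E
  left : ∀ (c : Om × ℕ) (s u : Nd Om), (c :: s, u) ∈ E → ∃ c' s', u = c' :: s' ∧ (s, s') ∈ E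
  right : ∀ (c' : Om × ℕ) (s' s : Nd Om), (s, c' :: s') ∈ E → ∃ c t, s = c :: t ∧ (t, s') ∈ E
  fn : ∀ s u u', (s, u) ∈ E → (s, u') ∈ E → u = u'
  inj : ∀ s s' u, (s, u) ∈ E → (s', u) ∈ E → s = s'
  tl : ∀ s u, (s, u) ∈ E → IsT g s
  tr : ∀ s u, (s, u) ∈ E → IsT g' u
  rk : ∀ s u, (s, u) ∈ E →
    r (rkN g s) = r (rkN g' u) ∨ (o ≤ r (rkN g s) ∧ o ≤ r (rkN g' u))

variable {g g' : Om}

theorem RT.mono {o o' : Ordinal.{0}} {E : Set (Nd Om × Nd Om)} (h : RT g g' o E) (ho : o' ≤ o) :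
    RT g g' o' E :=
  { h with
    rk := fun s u hs => (h.rk s u hs).imp id (fun h1 => ⟨ho.trans h1.1, ho.trans h1.2⟩) }

theorem RT.swap {o : Ordinal.{0}} {E : Set (Nd Om × Nd Om)} (h : RT g g' o E) :
    RT g' g o (Prod.swap ⁻¹' E) where
  fin := h.fin.preimage (Prod.swap_injective.injOn)
  nil := h.nil
  left := fun c s u hs => by
    obtain ⟨c', t, h1, h2⟩ := h.right c s u hs
    exact ⟨c', t, h1, h2⟩
  right := fun c' s' s hs => by
    obtain ⟨c, t, h1, h2⟩ := h.left c' s' s hs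
    exact ⟨c, t, h1, h2⟩
  fn := fun s u u' h1 h2 => h.inj u u' s h1 h2
  inj := fun s s' u h1 h2 => h.fn u s s' h1 h2
  tl := fun s u h1 => h.tr u s h1
  tr := fun s u h1 => h.tl u s h1
  rk := fun s u h1 => (h.rk u s h1).imp Eq.symm And.symm

theorem RT.base {o : Ordinal.{0}} (h : o ≤ r g) (h' : o ≤ r g') :
    RT g g' o {(([] : Nd Om), ([] : Nd Om))} where
  fin := Set.finite_singleton _
  nil := rfl
  left := fun c s u hs => by
    have := congrArg Prod.fst (Set.mem_singleton_iff.1 hs)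
    exact absurd this (by simp)
  right := fun c s u hs => by
    have := congrArg Prod.snd (Set.mem_singleton_iff.1 hs)
    exact absurd this (by simp)
  fn := fun s u u' h1 h2 =>
    (congrArg Prod.snd (Set.mem_singleton_iff.1 h1)).trans
      (congrArg Prod.snd (Set.mem_singleton_iff.1 h2)).symm
  inj := fun s u u' h1 h2 =>
    (congrArg Prod.fst (Set.mem_singleton_iff.1 h1)).trans
      (congrArg Prod.fst (Set.mem_singleton_iff.1 h2)).symm
  tl := fun s u h1 => by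
    have : s = [] := congrArg Prod.fst (Set.mem_singleton_iff.1 h1)
    rw [this]; trivial
  tr := fun s u h1 => by
    have : u = [] := congrArg Prod.snd (Set.mem_singleton_iff.1 h1)
    rw [this]; trivial
  rk := fun s u h1 => by
    have h2 : s = [] := congrArg Prod.fst (Set.mem_singleton_iff.1 h1)
    have h3 : u = [] := congrArg Prod.snd (Set.mem_singleton_iff.1 h1)
    rw [h2, h3]
    exact Or.inr ⟨h, h'⟩

/-- One-point extension. -/
theorem RT.ext1 {o : Ordinal.{0}} {E : Set (Nd Om × Nd Om)} (h : RT g g' (o + 1) E)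
    {c : Om × ℕ} {s v : Nd Om} (hcs : IsT g (c :: s)) (hv : (s, v) ∈ E)
    (hnew : ∀ u, (c :: s, u) ∉ E) :
    ∃ E', E ⊆ E' ∧ RT g g' o E' ∧ ∃ u, (c :: s, u) ∈ E' := by
  have ho : o < o + 1 := Order.lt_succ o
  have key : ∃ ρ : Om, ρ < rkN g' v ∧ (r c.1 = r ρ ∨ (o ≤ r c.1 ∧ o ≤ r ρ)) := by
    rcases h.rk s v hv with h1 | ⟨h1, h2⟩
    · refine ⟨c.1, ?_, Or.inl rfl⟩
      rw [← r_strictMono.injective h1]
      exact hcs.1
    · by_cases hc : r c.1 < o
      · refine ⟨c.1, ?_, Or.inl rfl⟩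
        exact r_strictMono.lt_iff_lt.1 (lt_of_lt_of_le (hc.trans ho) h2)
      · obtain ⟨ρ, hρ⟩ := exists_r ((lt_of_lt_of_le ho h2).trans (r_lt _))
        refine ⟨ρ, ?_, Or.inr ⟨not_lt.1 hc, hρ.ge⟩⟩
        apply r_strictMono.lt_iff_lt.1
        rw [hρ]
        exact lt_of_lt_of_le ho h2
  obtain ⟨ρ, hρ1, hρ2⟩ := key
  have hfin : {m : ℕ | ((ρ, m) :: v : Nd Om) ∈ Prod.snd '' E}.Finite := by
    apply (h.fin.image Prod.snd).preimage
    intro m _ m' _ hm
    simpa using hm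
  obtain ⟨m, hm⟩ := hfin.exists_notMem
  have hm' : ∀ t, (t, ((ρ, m) :: v : Nd Om)) ∉ E := fun t ht => hm ⟨(t, _), ht, rfl⟩
  refine ⟨insert (c :: s, (ρ, m) :: v) E, Set.subset_insert _ _, ?_, ⟨_, Set.mem_insert _ _⟩⟩
  refine ⟨h.fin.insert _, Or.inr h.nil, ?_, ?_, ?_, ?_, ?_, ?_, ?_⟩
  · intro d t u hu
    rcases hu with hu | hu
    · have h1 : d :: t = c :: s := congrArg Prod.fst hu
      have h2 : u = (ρ, m) :: v := congrArg Prod.snd hu
      rw [List.cons.injEq] at h1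
      refine ⟨_, _, h2, Or.inr ?_⟩
      rw [h1.2]; exact hv
    · obtain ⟨c', s', h1, h2⟩ := h.left d t u hu
      exact ⟨c', s', h1, Or.inr h2⟩
  · intro d t u hu
    rcases hu with hu | hu
    · have h1 : u = c :: s := congrArg Prod.fst hu
      have h2 : d :: t = (ρ, m) :: v := congrArg Prod.snd hu
      rw [List.cons.injEq] at h2
      refine ⟨_, _, h1, Or.inr ?_⟩
      rw [h2.2]; exact hv
    · obtain ⟨c', s', h1, h2⟩ := h.right d t u hu
      exact ⟨c', s', h1, Or.inr h2⟩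
  · intro t u u' h1 h2
    rcases h1 with h1 | h1
    · rcases h2 with h2 | h2
      · exact (congrArg Prod.snd h1).trans (congrArg Prod.snd h2).symm
      · have h3 : t = c :: s := congrArg Prod.fst h1
        rw [h3] at h2
        exact absurd h2 (hnew u')
    · rcases h2 with h2 | h2
      · have h3 : t = c :: s := congrArg Prod.fst h2
        rw [h3] at h1
        exact absurd h1 (hnew u)
      · exact h.fn t u u' h1 h2
  · intro t t' u h1 h2
    rcases h1 with h1 | h1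
    · rcases h2 with h2 | h2
      · exact (congrArg Prod.fst h1).trans (congrArg Prod.fst h2).symm
      · have h3 : u = (ρ, m) :: v := congrArg Prod.snd h1
        rw [h3] at h2
        exact absurd h2 (hm' t')
    · rcases h2 with h2 | h2
      · have h3 : u = (ρ, m) :: v := congrArg Prod.snd h2
        rw [h3] at h1
        exact absurd h1 (hm' t)
      · exact h.inj t t' u h1 h2
  · intro t u h1
    rcases h1 with h1 | h1
    · have h3 : t = c :: s := congrArg Prod.fst h1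
      rw [h3]; exact hcs
    · exact h.tl t u h1
  · intro t u h1
    rcases h1 with h1 | h1
    · have h3 : u = (ρ, m) :: v := congrArg Prod.snd h1
      rw [h3]; exact ⟨hρ1, h.tr s v hv⟩
    · exact h.tr t u h1
  · intro t u h1
    rcases h1 with h1 | h1
    · have h3 : u = (ρ, m) :: v := congrArg Prod.snd h1
      have h4 : t = c :: s := congrArg Prod.fst h1
      rw [h3, h4]; exact hρ2
    · exact (h.rk t u h1).imp id (fun h2 => ⟨ho.le.trans h2.1, ho.le.trans h2.2⟩)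

/-- Adding a node. -/
theorem RT.extNode {o : Ordinal.{0}} (u : Nd Om) : ∀ (n : ℕ) (E : Set (Nd Om × Nd Om)),
    IsT g u → RT g g' (o + ((n + u.length : ℕ) : Ordinal.{0})) E →
    ∃ E', E ⊆ E' ∧ RT g g' (o + (n : Ordinal.{0})) E' ∧ ∃ w, (u, w) ∈ E' := by
  induction u with
  | nil =>
    intro n E _ h
    exact ⟨E, subset_rfl, by simpa using h, [], h.nil⟩
  | cons c s ih =>
    intro n E hu h
    have h1 : RT g g' (o + (((n + 1) + s.length : ℕ) : Ordinal.{0})) E := by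
      have h2 : n + (c :: s).length = (n + 1) + s.length := by
        rw [List.length_cons]; omega
      rwa [h2] at h
    obtain ⟨E1, hE1, hR1, v, hv⟩ := ih (n + 1) E hu.2 h1
    have hR2 : RT g g' ((o + (n : Ordinal.{0})) + 1) E1 := by
      rw [add_assoc]
      exact_mod_cast hR1
    by_cases hex : ∃ w, (c :: s, w) ∈ E1
    · exact ⟨E1, hE1, hR2.mono (Order.le_succ _), hex⟩
    · obtain ⟨E2, hE2, hR3, w⟩ := hR2.ext1 hu hv (fun w hw => hex ⟨w, hw⟩)
      exact ⟨E2, hE1.trans hE2, hR3, w⟩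

/-- Adding finitely many nodes. -/
theorem RT.extFinset {o : Ordinal.{0}} (F : Finset (Nd Om)) (hF : ∀ s ∈ F, IsT g s) :
    ∃ N : ℕ, ∀ (n : ℕ) (E : Set (Nd Om × Nd Om)),
      RT g g' (o + ((n + N : ℕ) : Ordinal.{0})) E →
      ∃ E', E ⊆ E' ∧ RT g g' (o + (n : Ordinal.{0})) E' ∧ ∀ s ∈ F, ∃ w, (s, w) ∈ E' := by
  classical
  induction F using Finset.induction_on with
  | empty => exact ⟨0, fun n E h => ⟨E, subset_rfl, by simpa using h, by simp⟩⟩
  | insert u F _ ih =>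
    obtain ⟨N, hN⟩ := ih (fun s hs => hF s (Finset.mem_insert_of_mem hs))
    refine ⟨u.length + N, fun n E h => ?_⟩
    have h1 : RT g g' (o + (((n + u.length) + N : ℕ) : Ordinal.{0})) E := by
      rwa [add_assoc n u.length N]
    obtain ⟨E1, hE1, hR1, h2⟩ := hN (n + u.length) E h1
    obtain ⟨E2, hE2, hR2, w, hw⟩ := RT.extNode u n E1 (hF u (Finset.mem_insert_self _ _)) hR1
    refine ⟨E2, hE1.trans hE2, hR2, fun s hs => ?_⟩
    rcases Finset.mem_insert.1 hs with h3 | h3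
    · rw [h3]; exact ⟨w, hw⟩
    · obtain ⟨w', hw'⟩ := h2 s h3
      exact ⟨w', hE2 hw'⟩

theorem RT.ext_lt {β γ : Ordinal.{0}} (hγ : γ < β) {E : Set (Nd Om × Nd Om)}
    (h : RT g g' (ω * β) E) (F : Finset (Nd Om)) (hF : ∀ s ∈ F, IsT g s) :
    ∃ E', E ⊆ E' ∧ RT g g' (ω * γ) E' ∧ ∀ s ∈ F, ∃ w, (s, w) ∈ E' := by
  obtain ⟨N, hN⟩ := RT.extFinset (g := g) (g' := g') (o := ω * γ) F hF
  have h1 : ω * γ + ((0 + N : ℕ) : Ordinal.{0}) ≤ ω * β := by
    calc ω * γ + ((0 + N : ℕ) : Ordinal.{0}) ≤ ω * γ + ω := by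
          gcongr
          exact (Ordinal.natCast_lt_omega0 _).le
      _ = ω * (γ + 1) := by rw [mul_add, mul_one]
      _ ≤ ω * β := by
          gcongr
          exact Order.succ_le_of_lt hγ
  obtain ⟨E', h2, h3, h4⟩ := hN 0 E (h.mono h1)
  exact ⟨E', h2, by simpa using h3, h4⟩

/-- The graph of the isomorphism of the groups. -/
noncomputable def gr (g g' : Om) (E : Set (Nd Om × Nd Om)) : Subgroup (Ag g × Ag g') :=
  Subgroup.closure {p | ∃ s u, (s, u) ∈ E ∧
    ((Multiplicative.toAdd p.1 : AG g) : Nd Om →₀ QZ) = xg s ∧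
    ((Multiplicative.toAdd p.2 : AG g') : Nd Om →₀ QZ) = xg u}

theorem gr_mono {E E' : Set (Nd Om × Nd Om)} (h : E ⊆ E') : gr g g' E ≤ gr g g' E' :=
  Subgroup.closure_mono (fun _ ⟨s, u, h1, h2⟩ => ⟨s, u, h h1, h2⟩)

theorem gr_swap {E : Set (Nd Om × Nd Om)} {p : Ag g × Ag g'} (h : p ∈ gr g g' E) :
    p.swap ∈ gr g' g (Prod.swap ⁻¹' E) := by
  induction h using Subgroup.closure_induction with
  | mem x hx =>
    obtain ⟨s, u, h1, h2, h3⟩ := hx
    exact Subgroup.subset_closure ⟨u, s, h1, h3, h2⟩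
  | one => exact Subgroup.one_mem _
  | mul x y _ _ hx hy => exact Subgroup.mul_mem _ hx hy
  | inv x _ hx => exact Subgroup.inv_mem _ hx

theorem RT.suffix {o : Ordinal.{0}} {E : Set (Nd Om × Nd Om)} (h : RT g g' o E) (s : Nd Om) :
    ∀ u t, (s, u) ∈ E → t <:+ s → ∃ v, (t, v) ∈ E := by
  induction s with
  | nil =>
    intro u t hu ht
    rw [List.suffix_nil] at ht
    rw [ht]; exact ⟨_, hu⟩
  | cons c s ih =>
    intro u t hu ht
    rcases List.suffix_cons_iff.1 ht with h1 | h1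
    · rw [h1]; exact ⟨_, hu⟩
    · obtain ⟨c', s', _, h3⟩ := h.left c s u hu
      exact ih s' t h3 h1

theorem RT.gr_eq_one {o : Ordinal.{0}} {E : Set (Nd Om × Nd Om)} (h : RT g g' o E)
    {p : Ag g × Ag g'} (hp : p ∈ gr g g' E) (h1 : p.1 = 1) : p.2 = 1 := by
  classical
  let P : Nd Om → Nd Om := fun s => if hs : ∃ u, (s, u) ∈ E then hs.choose else []
  have hP : ∀ s u, (s, u) ∈ E → P s = u := by
    intro s u hs
    have h2 : ∃ u, (s, u) ∈ E := ⟨u, hs⟩
    have h3 : P s = h2.choose := dif_pos h2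
    rw [h3]
    exact h.fn s _ _ h2.choose_spec hs
  have key : ((Multiplicative.toAdd p.2 : AG g') : Nd Om →₀ QZ) =
      mapDomain P ((Multiplicative.toAdd p.1 : AG g) : Nd Om →₀ QZ) := by
    clear h1
    induction hp using Subgroup.closure_induction with
    | mem x hx =>
      obtain ⟨s, u, h1, h2, h3⟩ := hx
      rw [h2, h3, ← hP s u h1]
      symm
      refine mapDomain_XX P s 0 (hP _ _ h.nil) ?_
      intro c t hct
      obtain ⟨v, hv⟩ := h.suffix s u _ h1 hct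
      obtain ⟨c', s', h4, h5⟩ := h.left c t v hv
      exact ⟨c', by rw [hP _ _ hv, hP _ _ h5, h4]⟩
    | one => simp
    | mul x y _ _ hx hy =>
      have e1 : ((Multiplicative.toAdd (x * y).1 : AG g) : Nd Om →₀ QZ) =
        ((Multiplicative.toAdd x.1 : AG g) : Nd Om →₀ QZ) +
          ((Multiplicative.toAdd y.1 : AG g) : Nd Om →₀ QZ) := rfl
      have e2 : ((Multiplicative.toAdd (x * y).2 : AG g') : Nd Om →₀ QZ) =
        ((Multiplicative.toAdd x.2 : AG g') : Nd Om →₀ QZ) +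
          ((Multiplicative.toAdd y.2 : AG g') : Nd Om →₀ QZ) := rfl
      rw [e1, e2, hx, hy, mapDomain_add]
    | inv x _ hx =>
      have e1 : ((Multiplicative.toAdd (x⁻¹).1 : AG g) : Nd Om →₀ QZ) =
        - ((Multiplicative.toAdd x.1 : AG g) : Nd Om →₀ QZ) := rfl
      have e2 : ((Multiplicative.toAdd (x⁻¹).2 : AG g') : Nd Om →₀ QZ) =
        - ((Multiplicative.toAdd x.2 : AG g') : Nd Om →₀ QZ) := rfl
      rw [e1, e2, hx]
      have h4 : mapDomain P (- ((Multiplicative.toAdd x.1 : AG g) : Nd Om →₀ QZ)) +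
          mapDomain P ((Multiplicative.toAdd x.1 : AG g) : Nd Om →₀ QZ) = 0 := by
        rw [← mapDomain_add, neg_add_cancel, mapDomain_zero]
      exact (eq_neg_of_add_eq_zero_left h4).symm
  have h2 : ((Multiplicative.toAdd p.2 : AG g') : Nd Om →₀ QZ) = 0 := by
    rw [key, h1]
    exact mapDomain_zero
  have h3 : (Multiplicative.toAdd p.2 : AG g') = 0 := Subtype.ext h2
  exact Multiplicative.toAdd.injective h3

/-- Every element needs only finitely many nodes. -/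
theorem exists_nodes (g' : Om) (x : Ag g) : ∃ F : Finset (Nd Om), (∀ s ∈ F, IsT g s) ∧
    ∀ (E : Set (Nd Om × Nd Om)), (∀ s u, (s, u) ∈ E → IsT g' u) →
      (∀ s ∈ F, ∃ w, (s, w) ∈ E) → ∃ z : Ag g', (x, z) ∈ gr g g' E := by
  classical
  obtain ⟨y, hy⟩ : ∃ y : AG g, Multiplicative.ofAdd y = x := ⟨Multiplicative.toAdd x, rfl⟩
  obtain ⟨y, hy'⟩ := y
  subst hy
  induction hy' using AddSubgroup.closure_induction with
  | mem y hy =>
    obtain ⟨s, hs, rfl⟩ := hy
    refine ⟨{s}, by simpa using hs, fun E hE h => ?_⟩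
    obtain ⟨w, hw⟩ := h s (Finset.mem_singleton_self s)
    exact ⟨Multiplicative.ofAdd (xG (hE s w hw)), Subgroup.subset_closure ⟨s, w, hw, rfl, rfl⟩⟩
  | zero => exact ⟨∅, by simp, fun E _ _ => ⟨1, Subgroup.one_mem _⟩⟩
  | add y z hy hz ihy ihz =>
    obtain ⟨F1, h1, h2⟩ := ihy
    obtain ⟨F2, h3, h4⟩ := ihz
    refine ⟨F1 ∪ F2, ?_, fun E hE h => ?_⟩
    · intro s hs
      rcases Finset.mem_union.1 hs with h | h
      · exact h1 s h
      · exact h3 s h
    · obtain ⟨a, ha⟩ := h2 E hE (fun s hs => h s (Finset.mem_union_left _ hs))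
      obtain ⟨b, hb⟩ := h4 E hE (fun s hs => h s (Finset.mem_union_right _ hs))
      exact ⟨a * b, Subgroup.mul_mem _ ha hb⟩
  | neg y hy ihy =>
    obtain ⟨F1, h1, h2⟩ := ihy
    refine ⟨F1, h1, fun E hE h => ?_⟩
    obtain ⟨a, ha⟩ := h2 E hE h
    exact ⟨a⁻¹, Subgroup.inv_mem _ ha⟩

theorem exists_nodes_set (g' : Om) (S : Set (Ag g)) (hS : S.Finite) :
    ∃ F : Finset (Nd Om), (∀ s ∈ F, IsT g s) ∧
    ∀ (E : Set (Nd Om × Nd Om)), (∀ s u, (s, u) ∈ E → IsT g' u) →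
      (∀ s ∈ F, ∃ w, (s, w) ∈ E) → ∀ x ∈ S, ∃ z : Ag g', (x, z) ∈ gr g g' E := by
  classical
  induction S, hS using Set.Finite.induction_on with
  | empty => exact ⟨∅, by simp, fun E _ _ x hx => absurd hx (by simp)⟩
  | insert _ _ ih =>
    rename_i a S _ _
    obtain ⟨F1, h1, h2⟩ := ih
    obtain ⟨F2, h3, h4⟩ := exists_nodes g' a
    refine ⟨F1 ∪ F2, ?_, fun E hE h x hx => ?_⟩
    · intro s hs
      rcases Finset.mem_union.1 hs with h | h
      · exact h1 s h
      · exact h3 s h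
    · rcases hx with hx | hx
      · rw [hx]
        exact h4 E hE (fun s hs => h s (Finset.mem_union_right _ hs))
      · exact h2 E hE (fun s hs => h s (Finset.mem_union_left _ hs)) x hx

theorem RT.forth {β γ : Ordinal.{0}} (hγ : γ < β) {E : Set (Nd Om × Nd Om)}
    (h : RT g g' (ω * β) E) (S : Set (Ag g)) (hS : S.Finite) :
    ∃ E', E ⊆ E' ∧ RT g g' (ω * γ) E' ∧ ∀ x ∈ S, ∃ z : Ag g', (x, z) ∈ gr g g' E' := by
  obtain ⟨F, h1, h2⟩ := exists_nodes_set g' S hS
  obtain ⟨E', h3, h4, h5⟩ := h.ext_lt hγ F h1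
  exact ⟨E', h3, h4, h2 E' h4.tr h5⟩

/-- The groups of `g` and `g'` are related by a back-and-forth system up to `α` as soon as both
ordinals are at least `ω * α`. -/
theorem tree_sys (α : Ordinal.{0}) (g g' : Om) (h : ω * α ≤ r g) (h' : ω * α ≤ r g') :
    Nonempty (BFSys (Ag g) (Ag g') α) := by
  refine ⟨{ I := fun β => {Γ | ∃ E, RT g g' (ω * β) E ∧ Γ = gr g g' E}
            iso := ?_, forth := ?_, back := ?_, ne := ?_ }⟩
  · rintro β _ Γ ⟨E, hE, rfl⟩ p hp
    constructor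
    · exact fun h1 => hE.gr_eq_one hp h1
    · exact fun h1 => hE.swap.gr_eq_one (gr_swap hp) h1
  · rintro β _ γ hγ Γ ⟨E, hE, rfl⟩ S hS
    obtain ⟨E', h1, h2, h3⟩ := hE.forth hγ S hS
    exact ⟨gr g g' E', ⟨E', h2, rfl⟩, gr_mono h1, h3⟩
  · rintro β _ γ hγ Γ ⟨E, hE, rfl⟩ S hS
    obtain ⟨E', h1, h2, h3⟩ := hE.swap.forth hγ S hS
    refine ⟨gr g g' (Prod.swap ⁻¹' E'), ⟨_, h2.swap, rfl⟩, gr_mono ?_, ?_⟩
    · intro p hp
      exact h1 (show p.swap ∈ Prod.swap ⁻¹' E from by simpa using hp)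
    · intro y hy
      obtain ⟨x, hx⟩ := h3 y hy
      exact ⟨x, gr_swap hx⟩
  · exact ⟨_, _, RT.base h h', rfl⟩

end Pool.Agent.VN
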