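import Pool.Agent.VN.Tree

/-!
# MP_7e9189_lc: the tree groups are pairwise non-isomorphic
-/

set_option autoImplicit false

namespace Pool.Agent.VN

open Ordinal

/-- Non-isomorphism. -/
theorem Ag_not_iso (g g' : Om) (e : Ag g ≃* Ag g') : g = g' :=
  AG_eq_of_addEquiv (AddEquiv.toMultiplicative.symm e)

end Pool.Agent.VN
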