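import Pool.Agent.VN.Sep
import Pool.Agent.VN.TreeBF
import Pool.Agent.VN.TreeIso
import Pool.Agent.VN.BFGa

/-!
# MP_7e9189_lc: the final theorem
-/

set_option autoImplicit false

namespace Pool.Agent.VN

open Ordinal

theorem uncountable_above {o : Ordinal.{0}} (ho : o < ω₁) :
    Uncountable {g : Om // o ≤ r g} := by
  rw [← not_countable_iff]
  intro hc
  have h1 : Countable {g : Om // ¬ o ≤ r g} := by
    have h2 : Countable (Set.Iio o) := by
      rw [← Cardinal.mk_le_aleph0_iff, Cardinal.mk_Iio_ordinal]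
      have h3 : o.card < (ω₁ : Ordinal.{0}).card := (isInitial_omega 1).card_lt_card.2 ho
      rw [card_omega, ← Cardinal.succ_aleph0, Order.lt_succ_iff] at h3
      exact Cardinal.lift_le_aleph0.2 h3
    have h4 : Function.Injective
        (fun g : {g : Om // ¬ o ≤ r g} => (⟨r g.1, not_le.1 g.2⟩ : Set.Iio o)) := by
      intro a b hab
      exact Subtype.ext (r_strictMono.injective (Subtype.mk.inj hab))
    exact h4.countable
  have h5 : Countable Om := by
    rw [← Set.countable_univ_iff]
    have h6 : (Set.univ : Set Om) = {g | o ≤ r g} ∪ {g | ¬ o ≤ r g} := by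
      ext g
      simp [le_or_gt]
    rw [h6]
    exact Set.Countable.union (Set.countable_coe_iff.1 hc) (Set.countable_coe_iff.1 h1)
  rw [← Cardinal.mk_le_aleph0_iff, Cardinal.mk_toType, card_omega, ← not_lt] at h5
  exact h5 (Cardinal.aleph0_lt_aleph_one)

/-- For every countable ordinal `α` there are countable groups which are back-and-forth equivalent
to level `α` and whose group von Neumann algebras are not `*`-isomorphic. -/
theorem final (α : Ordinal.{0}) (hα : α < ω₁) :
    ∃ (G H : Type) (_ : Group G) (_ : Group H), Countable G ∧ Countable H ∧ BFEquiv G H α ∧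
      IsEmpty (vNA G ≃⋆ₐ[ℂ] vNA H) := by
  obtain ⟨K, hgr, hc, hinf, hT, hicc⟩ := exists_K
  have hα2 : ω * α < ω₁ :=
    (isInitial_omega 1).isPrincipal_mul (omega0_le_omega 1) omega0_lt_omega_one hα
  let I : Type := {g : Om // ω * α ≤ r g}
  obtain ⟨g0, hg0⟩ := exists_r hα2
  have hI : Uncountable I := uncountable_above hα2
  by_contra hne
  have key : ∀ i : I, Nonempty (vNA (GA K (Ag i.1)) ≃⋆ₐ[ℂ] vNA (GA K (Ag g0))) := by
    intro i
    by_contra h
    apply hne
    obtain ⟨S⟩ := tree_sys α i.1 g0 i.2 hg0.ge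
    obtain ⟨S'⟩ := S.ga K
    exact ⟨GA K (Ag i.1), GA K (Ag g0), inferInstance, inferInstance, inferInstance, inferInstance,
      S'.bfEquiv, not_nonempty_iff.1 h⟩
  have key2 : ∀ i : I, Nonempty (Pool.H88.RFP.LG (GA K (Ag i.1)) ≃⋆ₐ[ℂ] Pool.H88.RFP.LG (GA K (Ag g0))) := by
    intro i
    have h := key i
    rw [vNA_eq_LG, vNA_eq_LG] at h
    exact h
  obtain ⟨i, j, hij, ⟨e⟩⟩ := exists_iso hicc hT (fun i : I => Ag i.1)
    (M := GA K (Ag g0)) (fun i => (key2 i).some)
  exact hij (Subtype.ext (Ag_not_iso _ _ e))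

end Pool.Agent.VN
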