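import Pool.Agent.VN.Rig
import Mathlib.Analysis.Normed.Operator.Extend
import Mathlib.Analysis.InnerProductSpace.Projection.Minimal

/-!
# MP_7e9189_lc: property (T) gives intertwiners
-/

set_option autoImplicit false

namespace Pool.Agent.VN

open Pool.H88.RFP

open scoped InnerProductSpace

section least

/-- The element of least norm of a closed convex set which is invariant under a group of
isometries is invariant. -/
theorem Inter_least {P H : Type} [Group P] [NormedAddCommGroup H] [InnerProductSpace ℂ H]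
    [CompleteSpace H] (π : P →* (H →L[ℂ] H)) (hπ : ∀ g x, ‖π g x‖ = ‖x‖) (D : Set H)
    (hne : D.Nonempty) (hcl : IsClosed D)
    (hco : ∀ x ∈ D, ∀ y ∈ D, ∀ a b : ℝ, 0 ≤ a → 0 ≤ b → a + b = 1 →
      (a : ℂ) • x + (b : ℂ) • y ∈ D)
    (hinv : ∀ g, ∀ x ∈ D, π g x ∈ D) : ∃ x ∈ D, ∀ g, π g x = x := by
  let _ : InnerProductSpace ℝ H := InnerProductSpace.rclikeToReal ℂ H
  have hconv : Convex ℝ D := by
    intro x hx y hy a b ha hb hab
    exact hco x hx y hy a b ha hb hab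
  obtain ⟨v, hv, hmin⟩ := exists_norm_eq_iInf_of_complete_convex hne hcl.isComplete hconv 0
  have hle : ∀ w ∈ D, ‖v‖ ≤ ‖w‖ := by
    intro w hw
    have h1 : (⨅ w : D, ‖(0 : H) - w‖) ≤ ‖(0 : H) - w‖ :=
      ciInf_le ⟨0, Set.forall_mem_range.2 fun _ => norm_nonneg _⟩ (⟨w, hw⟩ : D)
    rw [← hmin] at h1
    simpa using h1
  refine ⟨v, hv, ?_⟩
  intro g
  set w := π g v with hw
  have hwD : w ∈ D := hinv g v hv
  have hwn : ‖w‖ = ‖v‖ := hπ g v
  have hmid := hle _ (hco w hwD v hv (1 / 2) (1 / 2) (by norm_num) (by norm_num) (by norm_num))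
  have h1 : ((1 / 2 : ℝ) : ℂ) • w + ((1 / 2 : ℝ) : ℂ) • v = ((1 / 2 : ℝ) : ℂ) • (w + v) := by
    rw [smul_add]
  rw [h1, norm_smul] at hmid
  have h2 : ‖((1 / 2 : ℝ) : ℂ)‖ = 1 / 2 := by
    rw [Complex.norm_real]
    norm_num
  rw [h2] at hmid
  have hpar := parallelogram_law_with_norm ℂ w v
  rw [hwn] at hpar
  have h3 : ‖w - v‖ * ‖w - v‖ ≤ 0 := by nlinarith [norm_nonneg (w + v), norm_nonneg v]
  have h4 : ‖w - v‖ = 0 := by nlinarith [norm_nonneg (w - v)]
  exact sub_eq_zero.1 (norm_eq_zero.1 h4)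

end least

section J

variable {M : Type} [Group M]

/-- The conjugation `(J ξ) g = conj (ξ g⁻¹)`. -/
noncomputable def Inter_J : HG M →SL[starRingEnd ℂ] HG M :=
  LinearMap.mkContinuous
    { toFun := fun ξ => ⟨fun h => starRingEnd ℂ (ξ h⁻¹), by
        have h2 : (0 : ℝ) < (2 : ENNReal).toReal := by norm_num
        have h1 := (memℓp_gen_iff h2).1 (lp.memℓp ξ)
        apply (memℓp_gen_iff h2).2
        have h3 := (Equiv.summable_iff (Equiv.inv M)).2 h1
        simpa [Function.comp_def] using h3⟩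
      map_add' := fun ξ η => by
        apply lp.ext
        funext h
        change starRingEnd ℂ ((ξ + η) h⁻¹) = starRingEnd ℂ (ξ h⁻¹) + starRingEnd ℂ (η h⁻¹)
        simp
      map_smul' := fun c ξ => by
        apply lp.ext
        funext h
        change starRingEnd ℂ ((c • ξ) h⁻¹) = starRingEnd ℂ c • starRingEnd ℂ (ξ h⁻¹)
        simp }
    1 (fun ξ => by
      have h2 : (0 : ℝ) < (2 : ENNReal).toReal := by norm_num
      rw [one_mul, lp.norm_eq_tsum_rpow h2, lp.norm_eq_tsum_rpow h2]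
      apply le_of_eq
      congr 1
      rw [← Equiv.tsum_eq (Equiv.inv M)]
      refine tsum_congr fun g => ?_
      change ‖starRingEnd ℂ (ξ (g⁻¹)⁻¹)‖ ^ (2 : ENNReal).toReal = ‖ξ g‖ ^ (2 : ENNReal).toReal
      rw [inv_inv, RCLike.norm_conj])

theorem Inter_J_apply (ξ : HG M) (g : M) : Inter_J ξ g = starRingEnd ℂ (ξ g⁻¹) := rfl

theorem Inter_J_J (ξ : HG M) : Inter_J (Inter_J ξ) = ξ := by
  apply lp.ext
  funext g
  rw [Inter_J_apply, Inter_J_apply, inv_inv, Complex.conj_conj]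

theorem Inter_norm_J (ξ : HG M) : ‖Inter_J ξ‖ = ‖ξ‖ := by
  have h1 : ∀ η : HG M, ‖Inter_J η‖ ≤ ‖η‖ := by
    intro η
    have h2 : ‖(Inter_J : HG M →SL[starRingEnd ℂ] HG M)‖ ≤ 1 :=
      LinearMap.mkContinuous_norm_le _ zero_le_one _
    calc ‖Inter_J η‖ ≤ ‖(Inter_J : HG M →SL[starRingEnd ℂ] HG M)‖ * ‖η‖ :=
          ContinuousLinearMap.le_opNorm _ _
      _ ≤ 1 * ‖η‖ := by gcongr
      _ = ‖η‖ := one_mul _
  apply le_antisymm (h1 ξ)
  have h3 := h1 (Inter_J ξ)
  rwa [Inter_J_J] at h3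

/-- The operator `J y J`. -/
noncomputable def Inter_R (y : HG M →L[ℂ] HG M) : HG M →L[ℂ] HG M :=
  Inter_J.comp (y.comp Inter_J : HG M →SL[starRingEnd ℂ] HG M)

theorem Inter_R_apply (y : HG M →L[ℂ] HG M) (ξ : HG M) :
    Inter_R y ξ = Inter_J (y (Inter_J ξ)) := rfl

theorem Inter_R_mul (y z : HG M →L[ℂ] HG M) : Inter_R (y * z) = Inter_R y * Inter_R z := by
  ext1 ξ
  change Inter_J (y (z (Inter_J ξ))) = Inter_J (y (Inter_J (Inter_J (z (Inter_J ξ)))))
  rw [Inter_J_J]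

theorem Inter_R_one : Inter_R (1 : HG M →L[ℂ] HG M) = 1 := by
  ext1 ξ
  change Inter_J (Inter_J ξ) = ξ
  rw [Inter_J_J]

theorem Inter_J_lam (g : M) (ξ : HG M) : Inter_J (lam g ξ) = rho g⁻¹ (Inter_J ξ) := by
  apply lp.ext
  funext h
  rw [Inter_J_apply, lam, rho, permL_apply, permL_apply, Inter_J_apply]
  simp

theorem Inter_lam_J (g : M) (ξ : HG M) : lam g (Inter_J ξ) = Inter_J (rho g⁻¹ ξ) := by
  have h1 := Inter_J_lam g (Inter_J ξ)
  rw [Inter_J_J] at h1
  rw [← h1, Inter_J_J]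

open Classical in
theorem Inter_R_lam {y : HG M →L[ℂ] HG M} (hy : y ∈ LG M) (g : M) :
    lam g * Inter_R y = Inter_R y * lam g := by
  ext1 ξ
  change lam g (Inter_J (y (Inter_J ξ))) = Inter_J (y (Inter_J (lam g ξ)))
  rw [Inter_lam_J, Inter_J_lam]
  have h1 := congrArg (fun T : HG M →L[ℂ] HG M => T (Inter_J ξ)) (mem_LG.1 hy g⁻¹)
  change rho g⁻¹ (y (Inter_J ξ)) = y (rho g⁻¹ (Inter_J ξ)) at h1
  rw [h1]

open Classical in
theorem Inter_R_comm {x y : HG M →L[ℂ] HG M} (hx : x ∈ LG M) (hy : y ∈ LG M) :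
    x * Inter_R y = Inter_R y * x := Coef_comm hx (Inter_R_lam hy)

open Classical in
theorem Inter_J_dl : Inter_J (dl (1 : M)) = dl 1 := by
  apply lp.ext
  funext h
  rw [Inter_J_apply, dl_apply, dl_apply]
  by_cases hh : h = 1
  · simp [hh]
  · simp [hh]

open Classical in
theorem Inter_R_dl {y : HG M →L[ℂ] HG M} (hy : y ∈ LG M) :
    Inter_R y (dl (1 : M)) = star y (dl 1) := by
  rw [Inter_R_apply, Inter_J_dl]
  apply lp.ext
  funext g
  rw [Inter_J_apply]
  exact (cf_star hy g).symm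

end J

section ball

variable {M : Type} [Group M]

open Classical in
/-- The vectors `w dl 1`, `w ∈ L(M)` a contraction. -/
def Inter_D (M : Type) [Group M] : Set (HG M) :=
  {ξ | ∃ w : LG M, ‖(w : HG M →L[ℂ] HG M)‖ ≤ 1 ∧ (w : HG M →L[ℂ] HG M) (dl 1) = ξ}

open Classical in
theorem Inter_dense : DenseRange (Finsupp.linearCombination ℂ (dl : M → HG M)) := by
  intro ξ
  have h1 := lp.hasSum_single (p := 2) (by norm_num) ξ
  refine mem_closure_of_tendsto h1 (Filter.Eventually.of_forall fun s => ?_)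
  refine ⟨∑ i ∈ s, Finsupp.single i (ξ i), ?_⟩
  rw [map_sum]
  refine Finset.sum_congr rfl fun i _ => ?_
  rw [Finsupp.linearCombination_single, dl, ← lp.single_smul]
  simp

open Classical in
theorem Inter_rho_dl (g h : M) : rho g (dl h) = dl (h * g) := by
  rw [rho, permL_dl]
  rfl

theorem Inter_rho_mul (g h : M) : rho g * rho h = rho (h * g) := by
  rw [rho, rho, rho, permL_mul]
  congr 1
  ext x
  simp [mul_assoc]

open Classical in
theorem Inter_D_iff (ξ : HG M) : ξ ∈ Inter_D M ↔ ∀ c : M →₀ ℂ,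
    ‖Finsupp.linearCombination ℂ (fun h => rho h ξ) c‖ ≤
      ‖Finsupp.linearCombination ℂ (dl : M → HG M) c‖ := by
  constructor
  · rintro ⟨w, hw, rfl⟩ c
    have h1 : Finsupp.linearCombination ℂ
        (fun h => rho h ((w : HG M →L[ℂ] HG M) (dl 1))) c =
        (w : HG M →L[ℂ] HG M) (Finsupp.linearCombination ℂ (dl : M → HG M) c) := by
      rw [Finsupp.linearCombination_apply, Finsupp.linearCombination_apply, Finsupp.sum,
        Finsupp.sum, map_sum]
      refine Finset.sum_congr rfl fun h _ => ?_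
      rw [map_smul]
      congr 1
      have h2 := congrArg (fun T : HG M →L[ℂ] HG M => T (dl 1)) (mem_LG.1 w.2 h)
      change rho h ((w : HG M →L[ℂ] HG M) (dl 1)) = (w : HG M →L[ℂ] HG M) (rho h (dl 1)) at h2
      rw [h2, Inter_rho_dl, one_mul]
    rw [h1]
    calc ‖(w : HG M →L[ℂ] HG M) (Finsupp.linearCombination ℂ (dl : M → HG M) c)‖
        ≤ ‖(w : HG M →L[ℂ] HG M)‖ * ‖Finsupp.linearCombination ℂ (dl : M → HG M) c‖ :=
          ContinuousLinearMap.le_opNorm _ _
      _ ≤ 1 * ‖Finsupp.linearCombination ℂ (dl : M → HG M) c‖ := by gcongr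
      _ = _ := one_mul _
  · intro hξ
    have hb : ∀ c : M →₀ ℂ, ‖Finsupp.linearCombination ℂ (fun h => rho h ξ) c‖ ≤
        1 * ‖Finsupp.linearCombination ℂ (dl : M → HG M) c‖ := by
      intro c
      rw [one_mul]
      exact hξ c
    set w : HG M →L[ℂ] HG M := (Finsupp.linearCombination ℂ (fun h => rho h ξ)).extendOfNorm
      (Finsupp.linearCombination ℂ (dl : M → HG M)) with hwdef
    have hw1 : ‖w‖ ≤ 1 := LinearMap.opNorm_extendOfNorm_le Inter_dense zero_le_one hb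
    have hwd : ∀ h : M, w (dl h) = rho h ξ := by
      intro h
      have h1 := LinearMap.extendOfNorm_eq (f := Finsupp.linearCombination ℂ (fun h => rho h ξ))
        (e := Finsupp.linearCombination ℂ (dl : M → HG M)) Inter_dense ⟨1, hb⟩
        (Finsupp.single h 1)
      rw [Finsupp.linearCombination_single, Finsupp.linearCombination_single, one_smul,
        one_smul] at h1
      exact h1
    have hmem : w ∈ LG M := by
      rw [mem_LG]
      intro g
      apply Coef_ext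
      intro h
      change rho g (w (dl h)) = w (rho g (dl h))
      rw [hwd, Inter_rho_dl, hwd]
      exact congrArg (fun T : HG M →L[ℂ] HG M => T ξ) (Inter_rho_mul g h)
    refine ⟨⟨w, hmem⟩, hw1, ?_⟩
    change w (dl 1) = ξ
    rw [hwd]
    apply lp.ext
    funext x
    rw [rho, permL_apply]
    simp

open Classical in
theorem Inter_D_closed : IsClosed (Inter_D M) := by
  have h1 : Inter_D M = ⋂ c : M →₀ ℂ, {ξ : HG M |
      ‖Finsupp.linearCombination ℂ (fun h => rho h ξ) c‖ ≤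
        ‖Finsupp.linearCombination ℂ (dl : M → HG M) c‖} := by
    ext ξ
    rw [Inter_D_iff]
    simp
  rw [h1]
  refine isClosed_iInter fun c => ?_
  apply isClosed_le
  · simp only [Finsupp.linearCombination_apply, Finsupp.sum]
    fun_prop
  · fun_prop

theorem Inter_D_convex (x y : HG M) (hx : x ∈ Inter_D M) (hy : y ∈ Inter_D M) (a b : ℝ)
    (ha : 0 ≤ a) (hb : 0 ≤ b) (hab : a + b = 1) : (a : ℂ) • x + (b : ℂ) • y ∈ Inter_D M := by
  classical
  obtain ⟨w, hw, rfl⟩ := hx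
  obtain ⟨v, hv, rfl⟩ := hy
  refine ⟨(a : ℂ) • w + (b : ℂ) • v, ?_, ?_⟩
  · change ‖(a : ℂ) • (w : HG M →L[ℂ] HG M) + (b : ℂ) • (v : HG M →L[ℂ] HG M)‖ ≤ 1
    calc ‖(a : ℂ) • (w : HG M →L[ℂ] HG M) + (b : ℂ) • (v : HG M →L[ℂ] HG M)‖
        ≤ ‖(a : ℂ) • (w : HG M →L[ℂ] HG M)‖ + ‖(b : ℂ) • (v : HG M →L[ℂ] HG M)‖ :=
          norm_add_le _ _
      _ = a * ‖(w : HG M →L[ℂ] HG M)‖ + b * ‖(v : HG M →L[ℂ] HG M)‖ := by
          rw [norm_smul, norm_smul, Complex.norm_real, Complex.norm_real, Real.norm_of_nonneg ha,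
            Real.norm_of_nonneg hb]
      _ ≤ a * 1 + b * 1 := by gcongr
      _ = 1 := by linarith
  · rfl

end ball

theorem Inter_norm_isom {M : Type} [Group M] {x : HG M →L[ℂ] HG M} (h : star x * x = 1)
    (ξ : HG M) : ‖x ξ‖ = ‖ξ‖ := by
  have h1 : ⟪x ξ, x ξ⟫_ℂ = ⟪ξ, ξ⟫_ℂ := by
    rw [← ContinuousLinearMap.adjoint_inner_right, ← ContinuousLinearMap.star_eq_adjoint]
    change ⟪ξ, (star x * x) ξ⟫_ℂ = _
    rw [h]
    rfl
  rw [inner_self_eq_norm_sq_to_K, inner_self_eq_norm_sq_to_K] at h1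
  have h2 : ‖x ξ‖ ^ 2 = ‖ξ‖ ^ 2 := by
    have h3 : ((‖x ξ‖ ^ 2 : ℝ) : ℂ) = ((‖ξ‖ ^ 2 : ℝ) : ℂ) := by
      push_cast
      exact h1
    exact_mod_cast h3
  exact (sq_eq_sq₀ (norm_nonneg _) (norm_nonneg _)).1 h2

open Classical in
/-- The invariant vector argument, for a representation `p ↦ a p * J (b p) J`. -/
theorem Inter_main {P M : Type} [Group P] [Group M] (a b : P → LG M)
    (a1 : a 1 = 1) (b1 : b 1 = 1) (am : ∀ p q, a (p * q) = a p * a q)
    (bm : ∀ p q, b (p * q) = b p * b q)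
    (au : ∀ p, star (a p) * a p = 1) (bu : ∀ p, star (b p) * b p = 1)
    (bu2 : ∀ p, b p * star (b p) = 1) :
    ∃ π : P →* (HG M →L[ℂ] HG M), (∀ p x, ‖π p x‖ = ‖x‖) ∧
      (∀ p, ‖π p (dl 1) - dl 1‖ =
        ‖(a p : HG M →L[ℂ] HG M) (dl 1) - (b p : HG M →L[ℂ] HG M) (dl 1)‖) ∧
      ((∀ p, ‖π p (dl 1) - dl 1‖ ≤ 1 / 2) →
        ∃ w : LG M, w ≠ 0 ∧ ∀ p, a p * w = w * b p) := by
  have au' : ∀ p, star (a p : HG M →L[ℂ] HG M) * (a p : HG M →L[ℂ] HG M) = 1 := fun p =>
    congrArg Subtype.val (au p)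
  have bu' : ∀ p, star (b p : HG M →L[ℂ] HG M) * (b p : HG M →L[ℂ] HG M) = 1 := fun p =>
    congrArg Subtype.val (bu p)
  have hcomm : ∀ (x : LG M) (p : P), (x : HG M →L[ℂ] HG M) * Inter_R (b p) =
      Inter_R (b p) * (x : HG M →L[ℂ] HG M) := fun x p => Inter_R_comm x.2 (b p).2
  let π : P →* (HG M →L[ℂ] HG M) :=
    { toFun := fun p => (a p : HG M →L[ℂ] HG M) * Inter_R (b p)
      map_one' := by
        rw [a1, b1]
        change (1 : HG M →L[ℂ] HG M) * Inter_R (1 : HG M →L[ℂ] HG M) = 1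
        rw [Inter_R_one, one_mul]
      map_mul' := fun p q => by
        rw [am, bm]
        change ((a p : HG M →L[ℂ] HG M) * (a q : HG M →L[ℂ] HG M)) *
          Inter_R ((b p : HG M →L[ℂ] HG M) * (b q : HG M →L[ℂ] HG M)) = _
        rw [Inter_R_mul, mul_assoc, ← mul_assoc (a q : HG M →L[ℂ] HG M), hcomm (a q) p,
          mul_assoc, mul_assoc] }
  have hπ : ∀ p x, π p x = (a p : HG M →L[ℂ] HG M) (Inter_R (b p) x) := fun p x => rfl
  have hRn : ∀ p x, ‖Inter_R (b p : HG M →L[ℂ] HG M) x‖ = ‖x‖ := by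
    intro p x
    rw [Inter_R_apply, Inter_norm_J, Inter_norm_isom (bu' p), Inter_norm_J]
  have hπn : ∀ p x, ‖π p x‖ = ‖x‖ := by
    intro p x
    rw [hπ, Inter_norm_isom (au' p), hRn]
  have hπw : ∀ p (w : LG M), π p ((w : HG M →L[ℂ] HG M) (dl 1)) =
      ((a p * w * star (b p) : LG M) : HG M →L[ℂ] HG M) (dl 1) := by
    intro p w
    rw [hπ]
    have h1 := congrArg (fun T : HG M →L[ℂ] HG M => T (dl 1)) (hcomm w p)
    change (w : HG M →L[ℂ] HG M) (Inter_R (b p) (dl 1)) =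
      Inter_R (b p) ((w : HG M →L[ℂ] HG M) (dl 1)) at h1
    rw [← h1, Inter_R_dl (b p).2]
    rfl
  refine ⟨π, hπn, ?_, ?_⟩
  · intro p
    have h2 : π p (dl 1) = Inter_R (b p) ((a p : HG M →L[ℂ] HG M) (dl 1)) := by
      rw [hπ]
      exact congrArg (fun T : HG M →L[ℂ] HG M => T (dl 1)) (hcomm (a p) p)
    have h3 : Inter_R (b p) ((b p : HG M →L[ℂ] HG M) (dl 1)) = (dl (1 : M) : HG M) := by
      have h4 := congrArg (fun T : HG M →L[ℂ] HG M => T (dl 1)) (hcomm (b p) p)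
      change (b p : HG M →L[ℂ] HG M) (Inter_R (b p) (dl 1)) =
        Inter_R (b p) ((b p : HG M →L[ℂ] HG M) (dl 1)) at h4
      rw [← h4, Inter_R_dl (b p).2]
      exact congrArg (fun T : LG M => (T : HG M →L[ℂ] HG M) (dl 1)) (bu2 p)
    have h5 : π p (dl 1) - dl 1 = Inter_R (b p) ((a p : HG M →L[ℂ] HG M) (dl 1) -
        (b p : HG M →L[ℂ] HG M) (dl 1)) := by
      rw [map_sub, h3, h2]
    rw [h5, hRn]
  · intro hclose
    have hdl : ‖dl (1 : M)‖ = 1 := by
      rw [dl, lp.norm_single (by norm_num)]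
      simp
    have han : ∀ p, ‖(a p : HG M →L[ℂ] HG M)‖ ≤ 1 := fun p =>
      ContinuousLinearMap.opNorm_le_bound _ zero_le_one fun x => by
        rw [Inter_norm_isom (au' p), one_mul]
    have bu2' : ∀ p, star (star (b p : HG M →L[ℂ] HG M)) * star (b p : HG M →L[ℂ] HG M) = 1 := by
      intro p
      rw [star_star]
      exact congrArg Subtype.val (bu2 p)
    have hbn : ∀ p, ‖star (b p : HG M →L[ℂ] HG M)‖ ≤ 1 := fun p =>
      ContinuousLinearMap.opNorm_le_bound _ zero_le_one fun x => by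
        rw [Inter_norm_isom (bu2' p), one_mul]
    obtain ⟨ξ, hξ, hinv⟩ := Inter_least π hπn
      (Inter_D M ∩ {ξ | ∀ p, ‖π p ξ - dl 1‖ ≤ 1 / 2})
      ⟨dl 1, ⟨1, ContinuousLinearMap.opNorm_le_bound _ zero_le_one fun x => by
        rw [one_mul]
        exact le_of_eq rfl, rfl⟩, hclose⟩
      (by
        refine Inter_D_closed.inter ?_
        have h1 : {ξ : HG M | ∀ p, ‖π p ξ - dl 1‖ ≤ 1 / 2} =
            ⋂ p, {ξ : HG M | ‖π p ξ - dl 1‖ ≤ 1 / 2} := by
          ext ξ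
          simp
        rw [h1]
        refine isClosed_iInter fun p => ?_
        exact isClosed_le (by fun_prop) (by fun_prop))
      (by
        intro x hx y hy s t hs ht hst
        refine ⟨Inter_D_convex x y hx.1 hy.1 s t hs ht hst, ?_⟩
        intro p
        have hst' : (s : ℂ) + (t : ℂ) = 1 := by exact_mod_cast hst
        have h1 : π p ((s : ℂ) • x + (t : ℂ) • y) - dl 1 =
            (s : ℂ) • (π p x - dl 1) + (t : ℂ) • (π p y - dl 1) := by
          have h2 : (dl (1 : M) : HG M) = (s : ℂ) • dl 1 + (t : ℂ) • dl 1 := by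
            rw [← add_smul, hst', one_smul]
          rw [map_add, map_smul, map_smul, smul_sub, smul_sub]
          nth_rewrite 1 [h2]
          abel
        rw [h1]
        calc ‖(s : ℂ) • (π p x - dl 1) + (t : ℂ) • (π p y - dl 1)‖
            ≤ ‖(s : ℂ) • (π p x - dl 1)‖ + ‖(t : ℂ) • (π p y - dl 1)‖ := norm_add_le _ _
          _ = s * ‖π p x - dl 1‖ + t * ‖π p y - dl 1‖ := by
              rw [norm_smul, norm_smul, Complex.norm_real, Complex.norm_real,
                Real.norm_of_nonneg hs, Real.norm_of_nonneg ht]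
          _ ≤ s * (1 / 2) + t * (1 / 2) := by
              have h3 := hx.2 p
              have h4 := hy.2 p
              gcongr
          _ = 1 / 2 := by linear_combination (1 / 2) * hst)
      (by
        rintro g _ ⟨⟨w, hw, rfl⟩, hx⟩
        refine ⟨⟨a g * w * star (b g), ?_, (hπw g w).symm⟩, ?_⟩
        · change ‖(a g : HG M →L[ℂ] HG M) * (w : HG M →L[ℂ] HG M) *
            star (b g : HG M →L[ℂ] HG M)‖ ≤ 1
          calc ‖(a g : HG M →L[ℂ] HG M) * (w : HG M →L[ℂ] HG M) *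
              star (b g : HG M →L[ℂ] HG M)‖
              ≤ ‖(a g : HG M →L[ℂ] HG M) * (w : HG M →L[ℂ] HG M)‖ *
                ‖star (b g : HG M →L[ℂ] HG M)‖ := norm_mul_le _ _
            _ ≤ (‖(a g : HG M →L[ℂ] HG M)‖ * ‖(w : HG M →L[ℂ] HG M)‖) *
                ‖star (b g : HG M →L[ℂ] HG M)‖ := by
                gcongr
                exact norm_mul_le _ _
            _ ≤ (1 * 1) * 1 := by
                gcongr
                · exact han g
                · exact hbn g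
            _ = 1 := by norm_num
        · intro p
          have h1 := hx (p * g)
          rw [map_mul] at h1
          exact h1)
    obtain ⟨⟨w, hw, rfl⟩, hx⟩ := hξ
    refine ⟨w, ?_, ?_⟩
    · rintro rfl
      have h1 := hx 1
      have h2 : π 1 (((0 : LG M) : HG M →L[ℂ] HG M) (dl 1)) - dl 1 = -dl 1 := by
        have h3 : ((0 : LG M) : HG M →L[ℂ] HG M) (dl (1 : M)) = 0 := rfl
        rw [h3, map_zero, zero_sub]
      rw [h2, norm_neg, hdl] at h1
      norm_num at h1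
    · intro p
      have h1 := hinv p
      rw [hπw] at h1
      have h2 : a p * w * star (b p) = w := by
        apply Subtype.ext
        apply eq_of_cf (a p * w * star (b p) : LG M).2 w.2
        intro g
        rw [cf, cf, h1]
      calc a p * w = a p * w * (star (b p) * b p) := by rw [bu, mul_one]
        _ = a p * w * star (b p) * b p := by rw [mul_assoc (a p * w)]
        _ = w * b p := by rw [h2]

open Classical in
/-- Two representations of `K × K` in `L(M)` by unitaries, close on the generators of both factors,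
are intertwined by a nonzero element of `L(M)`. -/
theorem exists_intertwiner {K M : Type} [Group K] [Group M] (hT : PropT K) :
    ∃ (S : Finset (K × K)) (ε : ℝ), 0 < ε ∧
      ∀ (u v : K × K →* unitary (LG M)),
        (∀ s ∈ S, ‖((u s : LG M) : HG M →L[ℂ] HG M) (dl 1) -
          ((v s : LG M) : HG M →L[ℂ] HG M) (dl 1)‖ ≤ ε) →
        ∃ w : LG M, w ≠ 0 ∧ ∀ p, (u p : LG M) * w = w * (v p : LG M) := by
  obtain ⟨S0, C, hC, hT⟩ := hT
  refine ⟨S0.image (fun k => (k, 1)) ∪ S0.image (fun k => (1, k)), 1 / (4 * C), by positivity, ?_⟩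
  intro u v huv
  have hcu : ∀ w : K × K →* unitary (LG M), ∀ p, star (w p : LG M) * (w p : LG M) = 1 :=
    fun w p => Unitary.coe_star_mul_self (w p)
  obtain ⟨π, hπn, hπd, hend⟩ := Inter_main (fun p => (u p : LG M)) (fun p => (v p : LG M))
    (by rw [map_one]; rfl) (by rw [map_one]; rfl)
    (fun p q => by rw [map_mul]; rfl) (fun p q => by rw [map_mul]; rfl)
    (hcu u) (hcu v) (fun p => Unitary.coe_mul_star_self (v p))
  apply hend
  have hl := hT (HG M) (π.comp (MonoidHom.inl K K)) (fun g x => hπn _ x) (dl 1) (1 / (4 * C))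
    (fun s hs => by
      change ‖π (s, 1) (dl 1) - dl 1‖ ≤ _
      rw [hπd]
      exact huv _ (Finset.mem_union_left _ (Finset.mem_image_of_mem _ hs)))
  have hr := hT (HG M) (π.comp (MonoidHom.inr K K)) (fun g x => hπn _ x) (dl 1) (1 / (4 * C))
    (fun s hs => by
      change ‖π (1, s) (dl 1) - dl 1‖ ≤ _
      rw [hπd]
      exact huv _ (Finset.mem_union_right _ (Finset.mem_image_of_mem _ hs)))
  rintro ⟨k, h⟩
  have h1 : ‖π (k, 1) (dl 1) - dl 1‖ ≤ C * (1 / (4 * C)) := hl k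
  have h2 : ‖π (1, h) (dl 1) - dl 1‖ ≤ C * (1 / (4 * C)) := hr h
  have h3 : C * (1 / (4 * C)) = 1 / 4 := by
    field_simp
  rw [h3] at h1 h2
  have h4 : π (k, h) (dl 1) - dl 1 =
      π (k, 1) (π (1, h) (dl 1) - dl 1) + (π (k, 1) (dl 1) - dl 1) := by
    have h5 : ((k, h) : K × K) = (k, 1) * (1, h) := by simp
    rw [h5, map_mul, map_sub]
    change π (k, 1) (π (1, h) (dl 1)) - dl 1 = _
    abel
  rw [h4]
  calc ‖π (k, 1) (π (1, h) (dl 1) - dl 1) + (π (k, 1) (dl 1) - dl 1)‖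
      ≤ ‖π (k, 1) (π (1, h) (dl 1) - dl 1)‖ + ‖π (k, 1) (dl 1) - dl 1‖ := norm_add_le _ _
    _ ≤ 1 / 4 + 1 / 4 := by
        rw [hπn]
        gcongr
    _ = 1 / 2 := by norm_num

end Pool.Agent.VN
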