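import Mathlib

/-!
# MP_7e9189_lc: the angle inequality for unitary representations of the Heisenberg group mod 5
-/

set_option autoImplicit false

namespace Pool.Agent.VN.PT

open scoped InnerProductSpace

variable {V : Type} [NormedAddCommGroup V] [InnerProductSpace ℂ V]

/-- Self-adjoint idempotents, elementwise. -/
structure Pr (P : V →L[ℂ] V) : Prop where
  idem : ∀ x, P (P x) = P x
  sa : ∀ x y, ⟪P x, y⟫_ℂ = ⟪x, P y⟫_ℂ

theorem Pr.inner_left {P : V →L[ℂ] V} (hP : Pr P) (x : V) : ⟪P x, x⟫_ℂ = ⟪P x, P x⟫_ℂ := by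
  rw [← hP.idem x, hP.sa, hP.idem]

theorem Pr.inner_right {P : V →L[ℂ] V} (hP : Pr P) (x : V) : ⟪x, P x⟫_ℂ = ⟪P x, P x⟫_ℂ := by
  rw [hP.sa, hP.idem]

theorem re_self (x : V) : (⟪x, x⟫_ℂ).re = ‖x‖ ^ 2 := by
  rw [inner_self_eq_norm_sq_to_K]
  norm_cast

theorem Pr.norm_sub {P : V →L[ℂ] V} (hP : Pr P) (x : V) :
    ‖x - P x‖ ^ 2 = ‖x‖ ^ 2 - ‖P x‖ ^ 2 := by
  rw [← re_self (x - P x), inner_sub_left, inner_sub_right, inner_sub_right, hP.inner_left,
    hP.inner_right, ← re_self x, ← re_self (P x)]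
  simp

theorem Pr.norm_sub_le {P : V →L[ℂ] V} (hP : Pr P) (x : V) : ‖x - P x‖ ^ 2 ≤ ‖x‖ ^ 2 := by
  rw [hP.norm_sub]; nlinarith [sq_nonneg ‖P x‖]

/-- The complement of a projection is a projection. -/
theorem Pr.compl {P : V →L[ℂ] V} (hP : Pr P) : Pr (1 - P) where
  idem x := by simp [hP.idem]
  sa x y := by
    change ⟪x - P x, y⟫_ℂ = ⟪x, y - P y⟫_ℂ
    rw [inner_sub_left, inner_sub_right, hP.sa]

theorem re_comm (x y : V) : (⟪x, y⟫_ℂ).re = (⟪y, x⟫_ℂ).re := by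
  have := inner_re_symm (𝕜 := ℂ) x y
  simpa using this

theorem angle_core {P Q : V →L[ℂ] V} (hP : Pr P) (hQ : Pr Q) {l : ℝ} (h0 : 0 < l) (h1 : l < 1)
    (x : V) (hx1 : P (Q (P x)) = ((l ^ 2 : ℝ) : ℂ) • P x)
    (hx2 : Q (P (Q x)) = ((l ^ 2 : ℝ) : ℂ) • Q x) :
    0 ≤ 2 * (⟪x - P x, x - Q x⟫_ℂ).re + l * (‖x - P x‖ ^ 2 + ‖x - Q x‖ ^ 2) := by
  have e1 : (⟪x - P x, x - Q x⟫_ℂ).re
      = ‖x‖ ^ 2 - ‖P x‖ ^ 2 - ‖Q x‖ ^ 2 + (⟪P x, Q x⟫_ℂ).re := by
    rw [inner_sub_left, inner_sub_right, inner_sub_right, hP.inner_left, hQ.inner_right,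
      ← re_self x, ← re_self (P x), ← re_self (Q x)]
    simp only [Complex.sub_re]
    ring
  have e2 : 0 ≤ l ^ 2 * (‖P x‖ ^ 2 + ‖Q x‖ ^ 2) - 2 * l * (⟪P x, Q x⟫_ℂ).re := by
    have h : ‖Q (P x) - (l : ℂ) • Q x‖ ^ 2
        = l ^ 2 * (‖P x‖ ^ 2 + ‖Q x‖ ^ 2) - 2 * l * (⟪P x, Q x⟫_ℂ).re := by
      have a1 : ⟪Q (P x), Q (P x)⟫_ℂ = ((l ^ 2 : ℝ) : ℂ) * ⟪P x, P x⟫_ℂ := by
        rw [hQ.sa, hQ.idem, ← hP.idem x, hP.sa, hP.idem x, hx1, inner_smul_right]
      have a2 : ⟪Q (P x), Q x⟫_ℂ = ⟪P x, Q x⟫_ℂ := by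
        rw [hQ.sa, hQ.idem]
      have a3 : ⟪Q x, Q (P x)⟫_ℂ = ⟪Q x, P x⟫_ℂ := by
        rw [← hQ.sa, hQ.idem]
      rw [← re_self (Q (P x) - (l : ℂ) • Q x), inner_sub_left, inner_sub_right, inner_sub_right,
        inner_smul_right, inner_smul_left, inner_smul_left, inner_smul_right, a1, a2, a3]
      simp only [Complex.sub_re, Complex.mul_re, Complex.ofReal_re, Complex.ofReal_im, zero_mul,
        sub_zero, Complex.conj_ofReal, Complex.mul_im, add_zero]
      rw [re_self, re_self, re_comm (Q x) (P x)]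
      ring
    rw [← h]; positivity
  have e3 : 0 ≤ (1 - l ^ 2) ^ 2 * ‖x‖ ^ 2
      - (1 - l ^ 2) * (‖P x‖ ^ 2 + ‖Q x‖ ^ 2 - 2 * (⟪P x, Q x⟫_ℂ).re) := by
    set T : V →L[ℂ] V := P - Q with hT
    have hTa : ∀ u : V, T u = P u - Q u := fun u => rfl
    have hTs : ∀ u v : V, ⟪T u, v⟫_ℂ = ⟪u, T v⟫_ℂ := by
      intro u v
      rw [hTa, hTa, inner_sub_left, inner_sub_right, hP.sa, hQ.sa]
    have hT3 : T (T (T x)) = ((1 - l ^ 2 : ℝ) : ℂ) • T x := by
      simp only [hTa, map_sub, hP.idem, hQ.idem, hx1, hx2]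
      push_cast
      simp only [sub_smul, smul_sub, one_smul]
      abel
    have hn : (⟪T x, T x⟫_ℂ).re = ‖P x‖ ^ 2 + ‖Q x‖ ^ 2 - 2 * (⟪P x, Q x⟫_ℂ).re := by
      rw [hTa, inner_sub_left, inner_sub_right, inner_sub_right, ← re_self (P x),
        ← re_self (Q x)]
      simp only [Complex.sub_re]
      rw [re_comm (Q x) (P x)]
      ring
    have h : ‖((1 - l ^ 2 : ℝ) : ℂ) • x - T (T x)‖ ^ 2
        = (1 - l ^ 2) ^ 2 * ‖x‖ ^ 2 - (1 - l ^ 2) * (⟪T x, T x⟫_ℂ).re := by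
      rw [← re_self (((1 - l ^ 2 : ℝ) : ℂ) • x - T (T x)), inner_sub_left, inner_sub_right,
        inner_sub_right, inner_smul_right, inner_smul_left, inner_smul_left, inner_smul_right,
        hTs (T x) (T (T x)), hT3, inner_smul_right, hTs (T x) x, ← hTs x (T x)]
      simp only [Complex.sub_re, Complex.mul_re, Complex.ofReal_re, Complex.ofReal_im, zero_mul,
        sub_zero, Complex.conj_ofReal, Complex.mul_im, add_zero]
      rw [re_self]
      ring
    rw [← hn, ← h]; positivity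
  rw [e1, hP.norm_sub, hQ.norm_sub]
  set n := ‖x‖ ^ 2
  set p := ‖P x‖ ^ 2
  set q := ‖Q x‖ ^ 2
  set r := (⟪P x, Q x⟫_ℂ).re
  have f1 : 0 ≤ l * (p + q) - 2 * r := by
    by_contra hh
    push Not at hh
    nlinarith
  have hl : 0 < 1 - l ^ 2 := by nlinarith
  have f2 : 0 ≤ (1 - l ^ 2) * n - (p + q - 2 * r) := by
    by_contra hh
    push Not at hh
    nlinarith
  have hl2 : 0 < 1 - l := by linarith
  by_contra hh
  push Not at hh
  nlinarith [mul_nonneg (by linarith : (0:ℝ) ≤ 1 + l) f1]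

/-- A unitary one-parameter group indexed by `ZMod 5`. -/
structure OP (e : ZMod 5 → (V →L[ℂ] V)) : Prop where
  zero : e 0 = 1
  add : ∀ i j, e (i + j) = e i * e j
  adj : ∀ i x y, ⟪e i x, y⟫_ℂ = ⟪x, e (-i) y⟫_ℂ

/-- The average over the group. -/
noncomputable def Av (e : ZMod 5 → (V →L[ℂ] V)) : V →L[ℂ] V := (1 / 5 : ℂ) • ∑ i, e i

theorem OP.mul_av {e : ZMod 5 → (V →L[ℂ] V)} (he : OP e) (i : ZMod 5) : e i * Av e = Av e := by
  unfold Av
  rw [mul_smul_comm, Finset.mul_sum]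
  congr 1
  rw [← Equiv.sum_comp (Equiv.addLeft i) e]
  exact Finset.sum_congr rfl fun j _ => (he.add i j).symm

theorem OP.av_mul {e : ZMod 5 → (V →L[ℂ] V)} (he : OP e) (i : ZMod 5) : Av e * e i = Av e := by
  unfold Av
  rw [smul_mul_assoc, Finset.sum_mul]
  congr 1
  rw [← Equiv.sum_comp (Equiv.addRight i) e]
  exact Finset.sum_congr rfl fun j _ => (he.add j i).symm

theorem OP.av_idem {e : ZMod 5 → (V →L[ℂ] V)} (he : OP e) : Av e * Av e = Av e := by
  change ((1 / 5 : ℂ) • ∑ i, e i) * Av e = Av e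
  rw [smul_mul_assoc, Finset.sum_mul, Finset.sum_congr rfl fun i _ => he.mul_av i]
  simp only [Finset.sum_const, Finset.card_univ, ZMod.card]
  rw [← Nat.cast_smul_eq_nsmul ℂ, smul_smul]
  norm_num

theorem OP.pr {e : ZMod 5 → (V →L[ℂ] V)} (he : OP e) : Pr (Av e) where
  idem x := by
    have := he.av_idem
    exact congrArg (fun T : V →L[ℂ] V => T x) this
  sa x y := by
    have h := Equiv.sum_comp (Equiv.neg (ZMod 5)) (fun i => ⟪x, e i y⟫_ℂ)
    simp only [Equiv.neg_apply] at h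
    simp only [Av, smul_apply, sum_apply,
      inner_smul_left, inner_smul_right, sum_inner, inner_sum, he.adj]
    rw [h]
    congr 1
    rw [map_div₀, map_one, map_ofNat]

theorem av_mul_av (e f : ZMod 5 → (V →L[ℂ] V)) :
    Av e * Av f = (1 / 5 : ℂ) • (1 / 5 : ℂ) • ∑ i, ∑ j, e i * f j := by
  rw [Av, Av, smul_mul_assoc, mul_smul_comm, Finset.sum_mul_sum]

theorem av_neg (e : ZMod 5 → (V →L[ℂ] V)) : Av (fun i => e (-i)) = Av e := by
  unfold Av
  congr 1
  exact Equiv.sum_comp (Equiv.neg (ZMod 5)) e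

instance : Fact (Nat.Prime 5) := ⟨by norm_num⟩

theorem heis_core {ea eb ez : ZMod 5 → (V →L[ℂ] V)} (ha : OP ea) (hb : OP eb) (hz : OP ez)
    (hab : ∀ i j, ea i * eb j = ez (i * j) * (eb j * ea i)) :
    (1 - Av ez) * (Av ea * (Av eb * Av ea)) = (1 / 5 : ℂ) • ((1 - Av ez) * Av ea) := by
  have hj : ∀ j : ZMod 5, j ≠ 0 → Av ea * (eb j * Av ea) = Av ez * (eb j * Av ea) := by
    intro j hj
    change ((1 / 5 : ℂ) • ∑ i, ea i) * (eb j * Av ea) = ((1 / 5 : ℂ) • ∑ i, ez i) * (eb j * Av ea)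
    rw [smul_mul_assoc, Finset.sum_mul, smul_mul_assoc, Finset.sum_mul]
    congr 1
    have h1 : ∀ i : ZMod 5, ea i * (eb j * Av ea) = ez (i * j) * (eb j * Av ea) := by
      intro i
      rw [← mul_assoc, hab, mul_assoc, mul_assoc, ha.mul_av]
    rw [Finset.sum_congr rfl fun i _ => h1 i]
    exact Equiv.sum_comp (Equiv.mulRight₀ j hj) (fun i => ez i * (eb j * Av ea))
  have hzz : (1 - Av ez) * Av ez = 0 := by
    rw [sub_mul, one_mul, hz.av_idem, sub_self]
  have key : ∀ j : ZMod 5, (1 - Av ez) * (Av ea * (eb j * Av ea))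
      = if j = 0 then (1 - Av ez) * Av ea else 0 := by
    intro j
    split_ifs with h
    · subst h
      rw [hb.zero, one_mul, ha.av_idem]
    · rw [hj j h, ← mul_assoc, hzz, zero_mul]
  have : Av eb * Av ea = (1 / 5 : ℂ) • ∑ j, eb j * Av ea := by
    conv_lhs => rw [Av]
    rw [smul_mul_assoc, Finset.sum_mul]
  rw [this, mul_smul_comm, mul_smul_comm, Finset.mul_sum, Finset.mul_sum,
    Finset.sum_congr rfl fun j _ => key j]
  simp

/-- The angle inequality. -/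
theorem heis_angle {ea eb ez : ZMod 5 → (V →L[ℂ] V)} (ha : OP ea) (hb : OP eb) (hz : OP ez)
    (hab : ∀ i j, ea i * eb j = ez (i * j) * (eb j * ea i))
    (hza : ∀ i j, ez i * ea j = ea j * ez i) (hzb : ∀ i j, ez i * eb j = eb j * ez i)
    {l : ℝ} (h0 : 0 < l) (h1 : l < 1) (hl : l ^ 2 = 1 / 5) (x : V) :
    0 ≤ 2 * (⟪x - Av ea x, x - Av eb x⟫_ℂ).re
      + l * (‖x - Av ea x‖ ^ 2 + ‖x - Av eb x‖ ^ 2) := by
  set P := Av ea with hPdef
  set Q := Av eb with hQdef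
  set Z := Av ez with hZdef
  have hP : Pr P := ha.pr
  have hQ : Pr Q := hb.pr
  have hZ : Pr Z := hz.pr
  have cZP : Z * P = P * Z := by
    rw [hZdef, hPdef, av_mul_av, av_mul_av, Finset.sum_comm]
    congr 2
    exact Finset.sum_congr rfl fun i _ => Finset.sum_congr rfl fun j _ => hza j i
  have cZQ : Z * Q = Q * Z := by
    rw [hZdef, hQdef, av_mul_av, av_mul_av, Finset.sum_comm]
    congr 2
    exact Finset.sum_congr rfl fun i _ => Finset.sum_congr rfl fun j _ => hzb j i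
  have cZP' : ∀ v, Z (P v) = P (Z v) := fun v => congrArg (fun T : V →L[ℂ] V => T v) cZP
  have cZQ' : ∀ v, Z (Q v) = Q (Z v) := fun v => congrArg (fun T : V →L[ℂ] V => T v) cZQ
  -- on the range of `Z` the two projections commute
  have hPQ : P * Q * Z = Q * P * Z := by
    have h : ∀ i j, ea i * eb j * Z = eb j * ea i * Z := by
      intro i j
      rw [hab, mul_assoc, mul_assoc]
      have : eb j * (ea i * Z) = Z * (eb j * ea i) := by
        have e1 : ea i * Z = Z * ea i := by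
          rw [hZdef, Av, mul_smul_comm, smul_mul_assoc, Finset.mul_sum, Finset.sum_mul]
          congr 1
          exact Finset.sum_congr rfl fun k _ => (hza k i).symm
        have e2 : eb j * Z = Z * eb j := by
          rw [hZdef, Av, mul_smul_comm, smul_mul_assoc, Finset.mul_sum, Finset.sum_mul]
          congr 1
          exact Finset.sum_congr rfl fun k _ => (hzb k j).symm
        rw [e1, ← mul_assoc, e2, mul_assoc]
      rw [this, ← mul_assoc, hz.mul_av]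
    rw [hPdef, hQdef, av_mul_av, av_mul_av, smul_mul_assoc, smul_mul_assoc, smul_mul_assoc,
      smul_mul_assoc, Finset.sum_mul, Finset.sum_mul]
    simp only [Finset.sum_mul]
    congr 2
    conv_rhs => rw [Finset.sum_comm]
    exact Finset.sum_congr rfl fun i _ => Finset.sum_congr rfl fun j _ => h i j
  have hPQ' : ∀ v, P (Q (Z v)) = Q (P (Z v)) := fun v =>
    congrArg (fun T : V →L[ℂ] V => T v) hPQ
  set y := Z x with hy
  set w := x - Z x with hw
  have hxyw : x = y + w := by simp [hy, hw]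
  have hZy : Z y = y := hZ.idem x
  have hZw : Z w = 0 := by simp [hw, hZ.idem]
  -- orthogonality of the two parts
  have orth : ∀ u v : V, Z u = u → Z v = 0 → ⟪u, v⟫_ℂ = 0 := by
    intro u v hu hv
    rw [← hu, hZ.sa, hv, inner_zero_right]
  have hPy : Z (P y) = P y := by rw [cZP', hZy]
  have hQy : Z (Q y) = Q y := by rw [cZQ', hZy]
  have hPw : Z (P w) = 0 := by rw [cZP', hZw, map_zero]
  have hQw : Z (Q w) = 0 := by rw [cZQ', hZw, map_zero]
  have split : ∀ (D E : V →L[ℂ] V), (Z (D y) = D y) → (Z (E y) = E y) → Z (D w) = 0 →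
      Z (E w) = 0 → ⟪D x, E x⟫_ℂ = ⟪D y, E y⟫_ℂ + ⟪D w, E w⟫_ℂ := by
    intro D E h1 h2 h3 h4
    rw [hxyw, map_add, map_add, inner_add_left, inner_add_right, inner_add_right,
      orth _ _ h1 h4, ← inner_conj_symm (D w) (E y), orth _ _ h2 h3]
    simp
  have s1 := split (1 - P) (1 - Q) (by simp [hZy, hPy]) (by simp [hZy, hQy])
    (by simp [hZw, hPw]) (by simp [hZw, hQw])
  have s2 := split (1 - P) (1 - P) (by simp [hZy, hPy]) (by simp [hZy, hPy])
    (by simp [hZw, hPw]) (by simp [hZw, hPw])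
  have s3 := split (1 - Q) (1 - Q) (by simp [hZy, hQy]) (by simp [hZy, hQy])
    (by simp [hZw, hQw]) (by simp [hZw, hQw])
  simp only [sub_apply, one_apply_eq_self] at s1 s2 s3
  have p2 : ‖x - P x‖ ^ 2 = ‖y - P y‖ ^ 2 + ‖w - P w‖ ^ 2 := by
    rw [← re_self (x - P x), s2, Complex.add_re, re_self, re_self]
  have p3 : ‖x - Q x‖ ^ 2 = ‖y - Q y‖ ^ 2 + ‖w - Q w‖ ^ 2 := by
    rw [← re_self (x - Q x), s3, Complex.add_re, re_self, re_self]
  -- the part `y`
  have ty : 0 ≤ (⟪y - P y, y - Q y⟫_ℂ).re := by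
    have h : ⟪y - P y, y - Q y⟫_ℂ = ⟪y - P y - Q (y - P y), y - P y - Q (y - P y)⟫_ℂ := by
      have c : P (Q y) = Q (P y) := by
        have := hPQ' x
        rwa [← hy] at this
      have hQ1 : Pr (1 - Q) := hQ.compl
      have hP1 : Pr (1 - P) := hP.compl
      have q1 : ∀ v, (1 - Q : V →L[ℂ] V) v = v - Q v := fun v => rfl
      have p1 : ∀ v, (1 - P : V →L[ℂ] V) v = v - P v := fun v => rfl
      have cc : (1 - Q : V →L[ℂ] V) ((1 - P : V →L[ℂ] V) y)
          = (1 - P : V →L[ℂ] V) ((1 - Q : V →L[ℂ] V) y) := by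
        simp only [q1, p1, map_sub, c]
        abel
      rw [← q1 y, ← p1 y, ← q1 ((1 - P : V →L[ℂ] V) y)]
      rw [hQ1.sa, hQ1.idem, cc]
      rw [hP1.sa y, ← hP1.sa y]
      conv_rhs => rw [← hP1.sa, hP1.idem]
    rw [h, re_self]
    positivity
  -- the part `w`
  have hcore := heis_core ha hb hz hab
  have hcore' := heis_core (ea := eb) (eb := ea) (ez := fun i => ez (-i)) hb ha
    ⟨by simpa using hz.zero, fun i j => by
      show ez (-(i + j)) = ez (-i) * ez (-j)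
      rw [neg_add, hz.add], fun i u v => by
      show ⟪ez (-i) u, v⟫_ℂ = ⟪u, ez (- -i) v⟫_ℂ
      rw [hz.adj]⟩
    (fun i j => by
      show eb i * ea j = ez (-(i * j)) * (ea j * eb i)
      rw [hab, mul_comm j i, ← mul_assoc, ← hz.add, neg_add_cancel, hz.zero, one_mul])
  rw [av_neg] at hcore'
  rw [← hZdef, ← hPdef, ← hQdef] at hcore hcore'
  have kill : ∀ v, v - Z v = (1 - Z : V →L[ℂ] V) v := fun v => rfl
  have hww : (1 - Z : V →L[ℂ] V) w = w := by rw [← kill, hZw, sub_zero]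
  have hx1 : P (Q (P w)) = ((l ^ 2 : ℝ) : ℂ) • P w := by
    have h := congrArg (fun T : V →L[ℂ] V => T w) hcore
    simp only [mul_apply_eq_comp, smul_apply, ← kill] at h
    have a1 : Z (P (Q (P w))) = 0 := by rw [cZP', cZQ', hPw, map_zero, map_zero]
    rw [a1, hPw, sub_zero, sub_zero] at h
    rw [h, hl]
    norm_num
  have hx2 : Q (P (Q w)) = ((l ^ 2 : ℝ) : ℂ) • Q w := by
    have h := congrArg (fun T : V →L[ℂ] V => T w) hcore'
    simp only [mul_apply_eq_comp, smul_apply, ← kill] at h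
    have a1 : Z (Q (P (Q w))) = 0 := by rw [cZQ', cZP', hQw, map_zero, map_zero]
    rw [a1, hQw, sub_zero, sub_zero] at h
    rw [h, hl]
    norm_num
  have tw := angle_core hP hQ h0 h1 w hx1 hx2
  rw [s1, Complex.add_re, p2, p3]
  nlinarith [mul_nonneg h0.le (add_nonneg (sq_nonneg ‖y - P y‖) (sq_nonneg ‖y - Q y‖))]

end Pool.Agent.VN.PT
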