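import Pool.Agent.VN.PTA

/-!
# MP_7e9189_lc: three projections with small angles, power iteration
-/

set_option autoImplicit false

namespace Pool.Agent.VN.PT

open scoped InnerProductSpace

variable {V : Type} [NormedAddCommGroup V] [InnerProductSpace ℂ V]

/-- The data of three projections with pairwise angle inequality. -/
structure Tri (D1 D2 D3 : V →L[ℂ] V) (l : ℝ) : Prop where
  h1 : Pr D1
  h2 : Pr D2
  h3 : Pr D3
  i12 : ∀ x, 0 ≤ 2 * (⟪D1 x, D2 x⟫_ℂ).re + l * (‖D1 x‖ ^ 2 + ‖D2 x‖ ^ 2)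
  i23 : ∀ x, 0 ≤ 2 * (⟪D2 x, D3 x⟫_ℂ).re + l * (‖D2 x‖ ^ 2 + ‖D3 x‖ ^ 2)
  i31 : ∀ x, 0 ≤ 2 * (⟪D3 x, D1 x⟫_ℂ).re + l * (‖D3 x‖ ^ 2 + ‖D1 x‖ ^ 2)

namespace Tri

/-- The energy. -/
noncomputable def en (D1 D2 D3 : V →L[ℂ] V) (x : V) : ℝ := ‖D1 x‖ ^ 2 + ‖D2 x‖ ^ 2 + ‖D3 x‖ ^ 2

variable {D1 D2 D3 : V →L[ℂ] V} {l : ℝ}

theorem en_nonneg (x : V) : 0 ≤ en D1 D2 D3 x := by unfold en; positivity

theorem pr_norm_le {P : V →L[ℂ] V} (hP : Pr P) (x : V) : ‖P x‖ ^ 2 ≤ ‖x‖ ^ 2 := by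
  have := hP.norm_sub x
  nlinarith [sq_nonneg ‖x - P x‖]

theorem en_le (h : Tri D1 D2 D3 l) (x : V) : en D1 D2 D3 x ≤ 3 * ‖x‖ ^ 2 := by
  unfold en
  linarith [pr_norm_le h.h1 x, pr_norm_le h.h2 x, pr_norm_le h.h3 x]

/-- The sum of the three projections. -/
noncomputable def Del (D1 D2 D3 : V →L[ℂ] V) : V →L[ℂ] V := D1 + D2 + D3

theorem Del_apply (x : V) : Del D1 D2 D3 x = D1 x + D2 x + D3 x := rfl

theorem Del_sa (h : Tri D1 D2 D3 l) (x y : V) :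
    ⟪Del D1 D2 D3 x, y⟫_ℂ = ⟪x, Del D1 D2 D3 y⟫_ℂ := by
  rw [Del_apply, Del_apply, inner_add_left, inner_add_left, inner_add_right, inner_add_right,
    h.h1.sa, h.h2.sa, h.h3.sa]

theorem en_eq (h : Tri D1 D2 D3 l) (x : V) :
    (⟪Del D1 D2 D3 x, x⟫_ℂ).re = en D1 D2 D3 x := by
  rw [Del_apply, inner_add_left, inner_add_left, h.h1.inner_left, h.h2.inner_left,
    h.h3.inner_left, Complex.add_re, Complex.add_re, re_self, re_self, re_self]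
  rfl

theorem norm_Del_sq (x : V) :
    ‖Del D1 D2 D3 x‖ ^ 2 = en D1 D2 D3 x + 2 * (⟪D1 x, D2 x⟫_ℂ).re
      + 2 * (⟪D2 x, D3 x⟫_ℂ).re + 2 * (⟪D3 x, D1 x⟫_ℂ).re := by
  rw [← re_self (Del D1 D2 D3 x), Del_apply]
  simp only [inner_add_left, inner_add_right, Complex.add_re, re_self]
  rw [re_comm (D2 x) (D1 x), re_comm (D3 x) (D2 x), re_comm (D1 x) (D3 x)]
  unfold en
  ring

theorem gap (h : Tri D1 D2 D3 l) (x : V) :
    (1 - 2 * l) * en D1 D2 D3 x ≤ ‖Del D1 D2 D3 x‖ ^ 2 := by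
  rw [norm_Del_sq]
  have a := h.i12 x
  have b := h.i23 x
  have c := h.i31 x
  have : en D1 D2 D3 x = ‖D1 x‖ ^ 2 + ‖D2 x‖ ^ 2 + ‖D3 x‖ ^ 2 := rfl
  rw [this]
  nlinarith

theorem norm_Del_le (x : V) : ‖Del D1 D2 D3 x‖ ^ 2 ≤ 3 * en D1 D2 D3 x := by
  have h : ‖Del D1 D2 D3 x‖ ≤ ‖D1 x‖ + ‖D2 x‖ + ‖D3 x‖ := by
    rw [Del_apply]; exact norm_add₃_le
  have h2 : ‖Del D1 D2 D3 x‖ ^ 2 ≤ (‖D1 x‖ + ‖D2 x‖ + ‖D3 x‖) ^ 2 :=
    pow_le_pow_left₀ (norm_nonneg _) h 2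
  unfold en
  nlinarith [sq_nonneg (‖D1 x‖ - ‖D2 x‖), sq_nonneg (‖D2 x‖ - ‖D3 x‖),
    sq_nonneg (‖D3 x‖ - ‖D1 x‖)]

/-- The averaging operator. -/
noncomputable def stp (D1 D2 D3 : V →L[ℂ] V) (x : V) : V := x - (1 / 3 : ℂ) • Del D1 D2 D3 x

theorem en_stp (h : Tri D1 D2 D3 l) (x : V) :
    en D1 D2 D3 (stp D1 D2 D3 x) ≤ (1 - (1 - 2 * l) / 3) * en D1 D2 D3 x := by
  set T := Del D1 D2 D3 with hT
  have e : en D1 D2 D3 (stp D1 D2 D3 x)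
      = en D1 D2 D3 x - 2 / 3 * ‖T x‖ ^ 2 + 1 / 9 * en D1 D2 D3 (T x) := by
    rw [← en_eq h, ← en_eq h x, ← en_eq h (T x), ← re_self (T x), ← hT]
    have hs : stp D1 D2 D3 x = x - (1 / 3 : ℂ) • T x := rfl
    rw [hs, map_sub, map_smul, inner_sub_left, inner_sub_right, inner_sub_right,
      inner_smul_right, inner_smul_left, inner_smul_left, inner_smul_right,
      hT, Del_sa h (Del D1 D2 D3 x) x]
    have hc : (starRingEnd ℂ) (1 / 3 : ℂ) = 1 / 3 := by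
      rw [map_div₀, map_one, map_ofNat]
    rw [hc]
    have h3 : (1 / 3 : ℂ) = ((1 / 3 : ℝ) : ℂ) := by push_cast; rfl
    rw [h3]
    simp only [Complex.sub_re, Complex.mul_re, Complex.ofReal_re, Complex.ofReal_im, zero_mul,
      sub_zero, Complex.mul_im, add_zero]
    ring
  have h1 := en_le h (T x)
  have h2 := gap h x
  rw [← hT] at h2
  rw [e]
  linarith

/-- The iteration. -/
noncomputable def itr (D1 D2 D3 : V →L[ℂ] V) (x : V) : ℕ → V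
  | 0 => x
  | n + 1 => stp D1 D2 D3 (itr D1 D2 D3 x n)

theorem en_itr (h : Tri D1 D2 D3 l) (hl : l < 1 / 2) (h0 : 0 < l) (x : V) (n : ℕ) :
    en D1 D2 D3 (itr D1 D2 D3 x n) ≤ (1 - (1 - 2 * l) / 3) ^ n * en D1 D2 D3 x := by
  induction n with
  | zero => simp [itr]
  | succ n ih =>
    rw [itr, pow_succ']
    calc en D1 D2 D3 (stp D1 D2 D3 (itr D1 D2 D3 x n))
        ≤ (1 - (1 - 2 * l) / 3) * en D1 D2 D3 (itr D1 D2 D3 x n) := en_stp h _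
      _ ≤ (1 - (1 - 2 * l) / 3) * ((1 - (1 - 2 * l) / 3) ^ n * en D1 D2 D3 x) := by
          apply mul_le_mul_of_nonneg_left ih
          linarith
      _ = _ := by ring

theorem converge [CompleteSpace V] (h : Tri D1 D2 D3 l) (hl : l < 1 / 2) (h0 : 0 < l) (x : V) :
    ∃ y, D1 y = 0 ∧ D2 y = 0 ∧ D3 y = 0 ∧
      ‖x - y‖ ≤ Real.sqrt (en D1 D2 D3 x) / (1 - Real.sqrt (1 - (1 - 2 * l) / 3)) := by
  set ρ := 1 - (1 - 2 * l) / 3 with hρ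
  have hρ0 : 0 ≤ ρ := by rw [hρ]; linarith
  have hρ1 : ρ < 1 := by rw [hρ]; linarith
  set r := Real.sqrt ρ with hr
  have hr0 : 0 ≤ r := Real.sqrt_nonneg _
  have hr1 : r < 1 := by
    rw [hr]
    calc Real.sqrt ρ < Real.sqrt 1 := Real.sqrt_lt_sqrt hρ0 hρ1
      _ = 1 := Real.sqrt_one
  set u := itr D1 D2 D3 x with hu
  set s := Real.sqrt (en D1 D2 D3 x) with hs
  have hen : ∀ n, en D1 D2 D3 (u n) ≤ (r ^ n * s) ^ 2 := by
    intro n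
    refine (en_itr h hl h0 x n).trans (le_of_eq ?_)
    rw [mul_pow, hs, Real.sq_sqrt (en_nonneg x), ← pow_mul, mul_comm n 2, pow_mul, hr,
      Real.sq_sqrt hρ0]
  have hd : ∀ n, dist (u n) (u (n + 1)) ≤ s * r ^ n := by
    intro n
    have e1 : u n - u (n + 1) = (1 / 3 : ℂ) • Del D1 D2 D3 (u n) := by
      have : u (n + 1) = u n - (1 / 3 : ℂ) • Del D1 D2 D3 (u n) := rfl
      rw [this]; abel
    rw [dist_eq_norm, e1, norm_smul]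
    have h3 : ‖(1 / 3 : ℂ)‖ = 1 / 3 := by norm_num
    rw [h3]
    have h4 : ‖Del D1 D2 D3 (u n)‖ ^ 2 ≤ 3 * (r ^ n * s) ^ 2 :=
      (norm_Del_le (u n)).trans (by linarith [hen n])
    have h5 : (0:ℝ) ≤ r ^ n * s := mul_nonneg (pow_nonneg hr0 n) (Real.sqrt_nonneg _)
    have h6 : ‖Del D1 D2 D3 (u n)‖ ≤ 3 * (r ^ n * s) := by
      apply le_of_sq_le_sq _ (by positivity)
      nlinarith [sq_nonneg (r ^ n * s)]
    linarith
  have hcs : CauchySeq u := cauchySeq_of_le_geometric r s hr1 hd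
  obtain ⟨y, hy⟩ := cauchySeq_tendsto_of_complete hcs
  have hlim : Filter.Tendsto (fun n => en D1 D2 D3 (u n)) Filter.atTop (nhds 0) := by
    have h1 : Filter.Tendsto (fun n : ℕ => (r ^ n * s) ^ 2) Filter.atTop (nhds 0) := by
      have := ((tendsto_pow_atTop_nhds_zero_of_lt_one hr0 hr1).mul_const s).pow 2
      simpa using this
    exact squeeze_zero (fun n => en_nonneg _) hen h1
  have hcont : Continuous (fun v => en D1 D2 D3 v) := by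
    unfold en
    fun_prop
  have hy0 : en D1 D2 D3 y = 0 :=
    tendsto_nhds_unique ((hcont.tendsto y).comp hy) hlim
  have hz : ∀ t : ℝ, 0 ≤ t → t ^ 2 = 0 → t = 0 := fun t _ h => by
    exact pow_eq_zero_iff (two_ne_zero) |>.mp h
  have hy0' : ‖D1 y‖ ^ 2 + ‖D2 y‖ ^ 2 + ‖D3 y‖ ^ 2 = 0 := hy0
  refine ⟨y, ?_, ?_, ?_, ?_⟩
  · apply norm_eq_zero.mp
    apply hz _ (norm_nonneg _)
    nlinarith [sq_nonneg ‖D1 y‖, sq_nonneg ‖D2 y‖, sq_nonneg ‖D3 y‖]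
  · apply norm_eq_zero.mp
    apply hz _ (norm_nonneg _)
    nlinarith [sq_nonneg ‖D1 y‖, sq_nonneg ‖D2 y‖, sq_nonneg ‖D3 y‖]
  · apply norm_eq_zero.mp
    apply hz _ (norm_nonneg _)
    nlinarith [sq_nonneg ‖D1 y‖, sq_nonneg ‖D2 y‖, sq_nonneg ‖D3 y‖]
  · have := dist_le_of_le_geometric_of_tendsto₀ r s hr1 hd hy
    rwa [dist_eq_norm] at this

end Tri

end Pool.Agent.VN.PT
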