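import Pool.Agent.VN.PTB

/-!
# MP_7e9189_lc: Kazhdan displacement bound for groups generated by a triangle
-/

set_option autoImplicit false

namespace Pool.Agent.VN.PT

open scoped InnerProductSpace

variable {K : Type} [Group K]

theorem pow_val_add {s : K} (hs : s ^ 5 = 1) (i j : ZMod 5) :
    s ^ (i + j).val = s ^ i.val * s ^ j.val := by
  rw [ZMod.val_add, ← pow_eq_pow_mod _ hs, pow_add]

theorem pow_val_mul {s : K} (hs : s ^ 5 = 1) (i j : ZMod 5) :
    s ^ (i * j).val = s ^ (i.val * j.val) := by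
  rw [ZMod.val_mul, ← pow_eq_pow_mod _ hs]

theorem comm_pow_five {a b : K} (hb : b ^ 5 = 1)
    (hzb : Commute (a * b * a⁻¹ * b⁻¹) b) : (a * b * a⁻¹ * b⁻¹) ^ 5 = 1 := by
  have h1 : (a * b * a⁻¹ * b⁻¹) * b = a * b * a⁻¹ := by group
  have h2 : ((a * b * a⁻¹ * b⁻¹) * b) ^ 5 = 1 := by
    rw [h1, conj_pow, hb]; simp
  rw [hzb.mul_pow, hb, mul_one] at h2
  exact h2

theorem comm_pow_pow {a b : K}
    (hza : Commute (a * b * a⁻¹ * b⁻¹) a) (hzb : Commute (a * b * a⁻¹ * b⁻¹) b) (m n : ℕ) :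
    a ^ m * b ^ n = (a * b * a⁻¹ * b⁻¹) ^ (m * n) * (b ^ n * a ^ m) := by
  set z := a * b * a⁻¹ * b⁻¹ with hz
  have h1 : a * b ^ n = z ^ n * b ^ n * a := by
    have e : z * b = a * b * a⁻¹ := by rw [hz]; group
    rw [← hzb.mul_pow, e, conj_pow]
    group
  induction m with
  | zero => simp
  | succ m ih =>
    calc a ^ (m + 1) * b ^ n = a * (a ^ m * b ^ n) := by rw [pow_succ']; group
      _ = a * z ^ (m * n) * (b ^ n * a ^ m) := by rw [ih]; group
      _ = z ^ (m * n) * (a * b ^ n) * a ^ m := by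
          rw [← (hza.pow_left (m * n)).eq]
          group
      _ = z ^ (m * n) * (z ^ n * b ^ n * a) * a ^ m := by rw [h1]
      _ = z ^ ((m + 1) * n) * (b ^ n * a ^ (m + 1)) := by
          rw [add_mul, one_mul, pow_add, pow_succ']
          group

section rep

variable {V : Type} [NormedAddCommGroup V] [InnerProductSpace ℂ V]
variable (π : K →* (V →L[ℂ] V)) (hπ : ∀ g x, ‖π g x‖ = ‖x‖)

/-- The one-parameter group of an element of order dividing five. -/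
noncomputable def ex (s : K) (i : ZMod 5) : V →L[ℂ] V := π (s ^ i.val)

include hπ in
theorem inner_pres (g : K) (x y : V) : ⟪π g x, π g y⟫_ℂ = ⟪x, y⟫_ℂ := by
  let L : V →ₗᵢ[ℂ] V := ⟨(π g : V →ₗ[ℂ] V), hπ g⟩
  exact L.inner_map_map x y

include hπ in
theorem inner_adj (g : K) (x y : V) : ⟪π g x, y⟫_ℂ = ⟪x, π g⁻¹ y⟫_ℂ := by
  have h : π g (π g⁻¹ y) = y := by
    have := congrArg (fun T : V →L[ℂ] V => T y) (map_mul π g g⁻¹)
    simpa using this.symm
  conv_lhs => rw [← h]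
  exact inner_pres π hπ g x _

include hπ in
theorem ex_op {s : K} (hs : s ^ 5 = 1) : OP (ex π s) where
  zero := by simp [ex]
  add i j := by
    unfold ex
    rw [pow_val_add hs, map_mul]
  adj i x y := by
    unfold ex
    rw [inner_adj π hπ]
    have : (s ^ i.val)⁻¹ = s ^ (-i).val := by
      rw [inv_eq_iff_mul_eq_one, ← pow_val_add hs]
      simp
    rw [this]

theorem ex_comm {s t : K} (h : Commute s t) (i j : ZMod 5) :
    ex π s i * ex π t j = ex π t j * ex π s i := by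
  unfold ex
  rw [← map_mul, ← map_mul, (h.pow_pow _ _).eq]

include hπ in
theorem ang {a b : K} (ha : a ^ 5 = 1) (hb : b ^ 5 = 1)
    (hza : Commute (a * b * a⁻¹ * b⁻¹) a) (hzb : Commute (a * b * a⁻¹ * b⁻¹) b)
    {l : ℝ} (h0 : 0 < l) (h1 : l < 1) (hl : l ^ 2 = 1 / 5) (x : V) :
    0 ≤ 2 * (⟪x - Av (ex π a) x, x - Av (ex π b) x⟫_ℂ).re
      + l * (‖x - Av (ex π a) x‖ ^ 2 + ‖x - Av (ex π b) x‖ ^ 2) := by
  have hz5 := comm_pow_five hb hzb
  refine heis_angle (ez := ex π (a * b * a⁻¹ * b⁻¹)) (ex_op π hπ ha) (ex_op π hπ hb)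
    (ex_op π hπ hz5) ?_ (ex_comm π hza) (ex_comm π hzb) h0 h1 hl x
  intro i j
  unfold ex
  rw [← map_mul, ← map_mul, ← map_mul, pow_val_mul hz5, comm_pow_pow hza hzb]

include hπ in
theorem disp_pow {s : K} {x : V} {δ : ℝ} (h : ‖π s x - x‖ ≤ δ) (n : ℕ) :
    ‖x - π (s ^ n) x‖ ≤ n * δ := by
  induction n with
  | zero => simp
  | succ n ih =>
    have e : x - π (s ^ (n + 1)) x = (x - π (s ^ n) x) + π (s ^ n) (x - π s x) := by
      rw [pow_succ, map_mul, map_sub]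
      simp
    rw [e]
    calc _ ≤ ‖x - π (s ^ n) x‖ + ‖π (s ^ n) (x - π s x)‖ := norm_add_le _ _
      _ ≤ n * δ + δ := by
          rw [hπ, norm_sub_rev x (π s x)]
          linarith
      _ = _ := by push_cast; ring

include hπ in
theorem disp_av {s : K} {x : V} {δ : ℝ} (h : ‖π s x - x‖ ≤ δ) :
    ‖x - Av (ex π s) x‖ ≤ 2 * δ := by
  have e : x - Av (ex π s) x = (1 / 5 : ℂ) • ∑ i : ZMod 5, (x - ex π s i x) := by
    rw [Finset.sum_sub_distrib]
    simp only [Av, smul_apply, sum_apply, Finset.sum_const, Finset.card_univ, ZMod.card]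
    rw [← Nat.cast_smul_eq_nsmul ℂ, smul_sub, smul_smul]
    norm_num
  rw [e, norm_smul]
  have h5 : ‖(1 / 5 : ℂ)‖ = 1 / 5 := by norm_num
  have hsum : ‖∑ i : ZMod 5, (x - ex π s i x)‖ ≤ ∑ i : ZMod 5, (i.val : ℝ) * δ :=
    (norm_sum_le _ _).trans (Finset.sum_le_sum fun i _ => disp_pow π hπ h i.val)
  have hval : ∑ i : ZMod 5, (i.val : ℝ) * δ = 10 * δ := by
    rw [← Finset.sum_mul]
    congr 1
    have : (∑ i : ZMod 5, i.val) = 10 := by decide
    exact_mod_cast this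
  rw [h5]
  rw [hval] at hsum
  linarith

theorem fixed_of_av {s : K} (hs : s ^ 5 = 1) (hπ : ∀ g x, ‖π g x‖ = ‖x‖) {y : V}
    (h : y - Av (ex π s) y = 0) : π s y = y := by
  have h1 : Av (ex π s) y = y := (sub_eq_zero.mp h).symm
  have h2 := congrArg (fun T : V →L[ℂ] V => T y) ((ex_op π hπ hs).mul_av 1)
  simp only [mul_apply_eq_comp, h1] at h2
  have h3 : ex π s 1 = π s := by
    unfold ex
    have : (1 : ZMod 5).val = 1 := by decide
    rw [this, pow_one]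
  rwa [h3] at h2

end rep

theorem kazhdan {a b c : K} (ha : a ^ 5 = 1) (hb : b ^ 5 = 1) (hc : c ^ 5 = 1)
    (hab : Commute (a * b * a⁻¹ * b⁻¹) a ∧ Commute (a * b * a⁻¹ * b⁻¹) b)
    (hbc : Commute (b * c * b⁻¹ * c⁻¹) b ∧ Commute (b * c * b⁻¹ * c⁻¹) c)
    (hca : Commute (c * a * c⁻¹ * a⁻¹) c ∧ Commute (c * a * c⁻¹ * a⁻¹) a)
    (hK : Subgroup.closure {a, b, c} = ⊤) :
    ∃ C : ℝ, 0 < C ∧ ∀ (V : Type) [NormedAddCommGroup V] [InnerProductSpace ℂ V]
      [CompleteSpace V] (π : K →* (V →L[ℂ] V)), (∀ g x, ‖π g x‖ = ‖x‖) →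
      ∀ (x : V) (δ : ℝ), ‖π a x - x‖ ≤ δ → ‖π b x - x‖ ≤ δ → ‖π c x - x‖ ≤ δ →
        ∀ g, ‖π g x - x‖ ≤ C * δ := by
  set l : ℝ := Real.sqrt (1 / 5) with hl
  have hl2 : l ^ 2 = 1 / 5 := by rw [hl, Real.sq_sqrt (by norm_num)]
  have h0 : 0 < l := Real.sqrt_pos.mpr (by norm_num)
  have h12 : l < 1 / 2 := by nlinarith
  have h1 : l < 1 := by linarith
  set r := Real.sqrt (1 - (1 - 2 * l) / 3) with hr
  have hr1 : r < 1 := by
    rw [hr]
    calc Real.sqrt (1 - (1 - 2 * l) / 3) < Real.sqrt 1 :=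
          Real.sqrt_lt_sqrt (by linarith) (by linarith)
      _ = 1 := Real.sqrt_one
  refine ⟨2 * (4 / (1 - r)), by have : 0 < 1 - r := by linarith
                                positivity, ?_⟩
  intro V _ _ _ π hπ x δ hxa hxb hxc g
  have hδ : 0 ≤ δ := (norm_nonneg _).trans hxa
  have tri : Tri (1 - Av (ex π a)) (1 - Av (ex π b)) (1 - Av (ex π c)) l :=
    { h1 := (ex_op π hπ ha).pr.compl
      h2 := (ex_op π hπ hb).pr.compl
      h3 := (ex_op π hπ hc).pr.compl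
      i12 := fun v => ang π hπ ha hb hab.1 hab.2 h0 h1 hl2 v
      i23 := fun v => ang π hπ hb hc hbc.1 hbc.2 h0 h1 hl2 v
      i31 := fun v => ang π hπ hc ha hca.1 hca.2 h0 h1 hl2 v }
  obtain ⟨y, y1, y2, y3, hy⟩ := tri.converge h12 h0 x
  have ya : π a y = y := fixed_of_av π ha hπ y1
  have yb : π b y = y := fixed_of_av π hb hπ y2
  have yc : π c y = y := fixed_of_av π hc hπ y3
  have yg : ∀ g, π g y = y := by
    intro g
    have hg : g ∈ Subgroup.closure ({a, b, c} : Set K) := by rw [hK]; trivial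
    refine Subgroup.closure_induction (p := fun g _ => π g y = y) ?_ ?_ ?_ ?_ hg
    · rintro s (rfl | rfl | rfl)
      · exact ya
      · exact yb
      · exact yc
    · simp
    · intro s t _ _ hs ht
      rw [map_mul, mul_apply_eq_comp, ht, hs]
    · intro s _ hs
      have h : π s⁻¹ (π s y) = y := by
        have := congrArg (fun T : V →L[ℂ] V => T y) (map_mul π s⁻¹ s)
        simpa using this.symm
      rwa [hs] at h
  have hen : Real.sqrt (Tri.en (1 - Av (ex π a)) (1 - Av (ex π b)) (1 - Av (ex π c)) x)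
      ≤ 4 * δ := by
    apply Real.sqrt_le_iff.mpr
    refine ⟨by positivity, ?_⟩
    have e1 : ‖(1 - Av (ex π a) : V →L[ℂ] V) x‖ ≤ 2 * δ := disp_av π hπ hxa
    have e2 : ‖(1 - Av (ex π b) : V →L[ℂ] V) x‖ ≤ 2 * δ := disp_av π hπ hxb
    have e3 : ‖(1 - Av (ex π c) : V →L[ℂ] V) x‖ ≤ 2 * δ := disp_av π hπ hxc
    have f : ∀ t : ℝ, 0 ≤ t → t ≤ 2 * δ → t ^ 2 ≤ 4 * δ ^ 2 := by
      intro t ht ht2
      nlinarith
    unfold Tri.en
    nlinarith [f _ (norm_nonneg _) e1, f _ (norm_nonneg _) e2, f _ (norm_nonneg _) e3,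
      sq_nonneg δ]
  have hxy : ‖x - y‖ ≤ 4 / (1 - r) * δ := by
    refine hy.trans ?_
    have : 0 < 1 - r := by linarith
    rw [div_mul_eq_mul_div]
    exact div_le_div_of_nonneg_right hen this.le
  have e : π g x - x = π g (x - y) - (x - y) := by
    rw [map_sub, yg g]; abel
  rw [e]
  calc ‖π g (x - y) - (x - y)‖ ≤ ‖π g (x - y)‖ + ‖x - y‖ := norm_sub_le _ _
    _ = 2 * ‖x - y‖ := by rw [hπ]; ring
    _ ≤ 2 * (4 / (1 - r)) * δ := by nlinarith

end Pool.Agent.VN.PT
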