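import Pool.Agent.VN.Coef
import Pool.Agent.VN.GA

/-!
# MP_7e9189_lc: rigidity relative to `K × K`
-/

set_option autoImplicit false

namespace Pool.Agent.VN

open Pool.H88.RFP

/-- The unitary of `L(G)` given by a group element. -/
noncomputable def uL {G : Type} [Group G] (g : G) : LG G := ⟨lam g, lam_mem g⟩

theorem uL_mul {G : Type} [Group G] (g h : G) : uL (g * h) = uL g * uL h :=
  Subtype.ext (lam_mul g h)

theorem uL_one {G : Type} [Group G] : uL (1 : G) = 1 := Subtype.ext lam_one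

theorem star_uL {G : Type} [Group G] (g : G) : star (uL g) = uL g⁻¹ := Subtype.ext (star_lam g)

section coef

variable {G : Type} [Group G]

open Classical in
theorem Rig_cf_smul_uL (c : ℂ) (g h : G) :
    cf ((c • uL g : LG G) : HG G →L[ℂ] HG G) h = if h = g then c else 0 := by
  have h1 : cf ((c • uL g : LG G) : HG G →L[ℂ] HG G) h = c * cf (lam g) h := by
    simp [cf, uL]
  rw [h1, cf_lam]
  split_ifs <;> simp

open Classical in
/-- An element of `L(G)` with coefficients supported on `g` is a multiple of `g`. -/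
theorem Rig_eq_smul_uL (x : LG G) (g : G)
    (hx : ∀ h, h ≠ g → cf (x : HG G →L[ℂ] HG G) h = 0) :
    x = cf (x : HG G →L[ℂ] HG G) g • uL g := by
  apply Subtype.ext
  apply eq_of_cf x.2 (cf (x : HG G →L[ℂ] HG G) g • uL g : LG G).2
  intro h
  rw [Rig_cf_smul_uL]
  by_cases hh : h = g
  · rw [if_pos hh, hh]
  · rw [if_neg hh, hx h hh]

theorem Rig_uniq {c c' : ℂ} {g h : G} (hc : c ≠ 0) (e : c • uL g = c' • uL h) : g = h := by
  classical
  by_contra hn
  have h1 := Rig_cf_smul_uL c g g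
  rw [e, Rig_cf_smul_uL, if_neg hn, if_pos rfl] at h1
  exact hc h1.symm

theorem Rig_star_mul (g : G) : star (uL g) * uL g = 1 := by
  rw [star_uL, ← uL_mul, inv_mul_cancel, uL_one]

theorem Rig_mul_star (g : G) : uL g * star (uL g) = 1 := by
  rw [star_uL, ← uL_mul, mul_inv_cancel, uL_one]

open Classical in
/-- Coefficients of an element commuting with group elements vanish on infinite orbits. -/
theorem Rig_finite {x : LG G} {ι : Type} (s : ι → G)
    (hs : ∀ i, uL (s i) * x = x * uL (s i)) (g : G)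
    (hg : cf (x : HG G →L[ℂ] HG G) g ≠ 0) :
    (Set.range fun i => s i * g * (s i)⁻¹).Finite := by
  by_contra hinf
  exact hg (cf_eq_zero_of_infinite x.2 s (fun i => congrArg Subtype.val (hs i)) g hinf)

end coef

variable {K A B : Type} [Group K] [Group A] [Group B]

open Classical in
theorem Rig_inA_of_commute (hK : Icc K) (x : LG (GA K A))
    (hx : ∀ k, uL (GA.iota K A (k, k)) * x = x * uL (GA.iota K A (k, k))) (g : GA K A)
    (hg : cf (x : HG (GA K A) →L[ℂ] HG (GA K A)) g ≠ 0) : ∃ a : A, g = GA.inA a :=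
  GA.eq_inA_of_finite hK g (Rig_finite (fun k : K => GA.iota K A (k, k)) hx g hg)

open Classical in
theorem Rig_a_of_commute [Infinite K] (x : LG (GA K A))
    (hx : ∀ k, uL (GA.iota K A (1, k)) * x = x * uL (GA.iota K A (1, k))) (g : GA K A)
    (hg : cf (x : HG (GA K A) →L[ℂ] HG (GA K A)) g ≠ 0) : g.a = 1 :=
  GA.a_eq_one_of_finite g (Rig_finite (fun k : K => GA.iota K A (1, k)) hx g hg)

/-- An element of `L(GA K A)` commuting with `K × K` is a scalar (F3). -/
theorem scalar_of_commute [Infinite K] (hK : Icc K) (x : LG (GA K A))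
    (hx : ∀ p, uL (GA.iota K A p) * x = x * uL (GA.iota K A p)) :
    ∃ c : ℂ, x = c • (1 : LG (GA K A)) := by
  classical
  refine ⟨cf (x : HG (GA K A) →L[ℂ] HG (GA K A)) 1, ?_⟩
  rw [← uL_one]
  apply Rig_eq_smul_uL
  intro h hh
  by_contra hne
  obtain ⟨a, rfl⟩ := Rig_inA_of_commute hK x (fun k => hx (k, k)) h hne
  have h2 := Rig_a_of_commute x (fun k => hx (1, k)) _ hne
  apply hh
  change a = 1 at h2
  rw [h2]
  rfl

/-- The image of an element of `A` is a multiple of an element of `B`. -/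
theorem Rig_image [Infinite K] (hK : Icc K) (Φ : LG (GA K A) ≃⋆ₐ[ℂ] LG (GA K B))
    (hΦ : ∀ p, Φ (uL (GA.iota K A p)) = uL (GA.iota K B p)) (a : A) :
    ∃ (b : B) (c : ℂ), c ≠ 0 ∧ Φ (uL (GA.inA a)) = c • uL (GA.inA b) := by
  classical
  by_cases ha : a = 1
  · refine ⟨1, 1, one_ne_zero, ?_⟩
    have h1 : (GA.inA (1 : A) : GA K A) = 1 := rfl
    have h2 : (GA.inA (1 : B) : GA K B) = 1 := rfl
    rw [ha, h1, h2, uL_one, uL_one, map_one, one_smul]
  obtain ⟨h, hh⟩ := exists_ne (1 : K)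
  set w := Φ (uL (GA.inA a)) with hw
  -- `w` commutes with the constants
  have hwc : ∀ k, uL (GA.iota K B (k, k)) * w = w * uL (GA.iota K B (k, k)) := by
    intro k
    rw [← hΦ, hw, ← map_mul, ← map_mul, ← uL_mul, ← uL_mul, (GA.inA_commute a k).eq]
  have hsw : star w * w = 1 := by
    rw [hw, ← map_star, ← map_mul, Rig_star_mul, map_one]
  have hws : w * star w = 1 := by
    rw [hw, ← map_star, ← map_mul, Rig_mul_star, map_one]
  set Y := w * uL (GA.iota K B (1, h)) * star w with hY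
  have hYc : ∀ k, uL (GA.iota K B (1, k)) * Y = Y * uL (GA.iota K B (1, k)) := by
    intro k
    have e : Y = Φ (uL (GA.inA a * GA.iota K A (1, h) * (GA.inA a)⁻¹)) := by
      rw [hY, hw, ← hΦ, ← map_star, ← map_mul, ← map_mul, star_uL, ← uL_mul, ← uL_mul]
    rw [e, ← hΦ, ← map_mul, ← map_mul, ← uL_mul, ← uL_mul, (GA.conj_commute a ha h k).eq]
  have hYw : Y * w = w * uL (GA.iota K B (1, h)) := by
    rw [hY, mul_assoc, hsw, mul_one]
  have hYY : star Y * Y = 1 := by
    rw [hY, star_mul, star_mul, star_star]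
    calc w * (star (uL (GA.iota K B (1, h))) * star w) *
          (w * uL (GA.iota K B (1, h)) * star w)
        = w * (star (uL (GA.iota K B (1, h))) * (star w * w) *
          uL (GA.iota K B (1, h))) * star w := by
          simp only [mul_assoc]
      _ = 1 := by rw [hsw, mul_one, Rig_star_mul, mul_one, hws]
  -- the coefficients
  have key : ∀ b : B, cf (w : HG (GA K B) →L[ℂ] HG (GA K B)) (GA.inA b) ≠ 0 →
      cf (Y : HG (GA K B) →L[ℂ] HG (GA K B))
        (GA.inA b * GA.iota K B (1, h) * (GA.inA b)⁻¹) = 1 := by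
    intro b hb
    have h1 : cf (w : HG (GA K B) →L[ℂ] HG (GA K B)) (GA.inA b) =
        cf ((w : HG (GA K B) →L[ℂ] HG (GA K B)) * lam (GA.iota K B (1, h)))
          (GA.inA b * GA.iota K B (1, h)) := by
      rw [cf_mul_lam w.2, mul_inv_cancel_right]
    have h2 : (w : HG (GA K B) →L[ℂ] HG (GA K B)) * lam (GA.iota K B (1, h)) =
        (Y : HG (GA K B) →L[ℂ] HG (GA K B)) * (w : HG (GA K B) →L[ℂ] HG (GA K B)) :=
      congrArg Subtype.val hYw.symm
    rw [h2, cf_mul Y.2, tsum_eq_single (GA.inA b)] at h1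
    · exact (mul_eq_right₀ hb).1 h1.symm
    · intro s hs
      by_contra hne
      have hne1 : cf (Y : HG (GA K B) →L[ℂ] HG (GA K B))
          (GA.inA b * GA.iota K B (1, h) * s⁻¹) ≠ 0 := left_ne_zero_of_mul hne
      have hne2 : cf (w : HG (GA K B) →L[ℂ] HG (GA K B)) s ≠ 0 := right_ne_zero_of_mul hne
      obtain ⟨b', rfl⟩ := Rig_inA_of_commute hK w hwc s hne2
      have h3 := Rig_a_of_commute Y hYc _ hne1
      apply hs
      change b * 1 * b'⁻¹ = 1 at h3
      rw [mul_one, mul_inv_eq_one] at h3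
      rw [h3]
  -- `w` is not zero
  have hw0 : ∃ g, cf (w : HG (GA K B) →L[ℂ] HG (GA K B)) g ≠ 0 := by
    by_contra hcon
    push Not at hcon
    have h0 : (w : HG (GA K B) →L[ℂ] HG (GA K B)) = 0 := eq_zero_of_cf w.2 hcon
    have h00 : w = 0 := Subtype.ext h0
    have h1 : (1 : LG (GA K B)) = 0 := by rw [← hsw, h00, mul_zero]
    have h2 := Rig_cf_smul_uL (1 : ℂ) (1 : GA K B) 1
    rw [uL_one, h1, smul_zero, if_pos rfl] at h2
    simp [cf] at h2
  obtain ⟨g, hg⟩ := hw0
  obtain ⟨b, rfl⟩ := Rig_inA_of_commute hK w hwc g hg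
  refine ⟨b, cf (w : HG (GA K B) →L[ℂ] HG (GA K B)) (GA.inA b), hg, ?_⟩
  apply Rig_eq_smul_uL
  intro g' hg'
  by_contra hne
  obtain ⟨b', rfl⟩ := Rig_inA_of_commute hK w hwc g' hne
  apply hg'
  have e1 := key b hg
  have e2 := key b' hne
  have hYY' : star (Y : HG (GA K B) →L[ℂ] HG (GA K B)) *
      (Y : HG (GA K B) →L[ℂ] HG (GA K B)) = 1 := congrArg Subtype.val hYY
  have e3 := cf_unitary hYY' (by rw [e2, norm_one]) (by rw [e1, norm_one])
  rw [GA.conj_injective h hh _ _ e3]

/-- Rigidity relative to `K × K`. -/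
theorem rigid [Infinite K] (hK : Icc K) (Φ : LG (GA K A) ≃⋆ₐ[ℂ] LG (GA K B))
    (hΦ : ∀ p, Φ (uL (GA.iota K A p)) = uL (GA.iota K B p)) : Nonempty (A ≃* B) := by
  have h1 := Rig_image hK Φ hΦ
  choose σ c hc hσ using h1
  have hmul : ∀ x y, σ (x * y) = σ x * σ y := by
    intro x y
    have e : c (x * y) • uL (GA.inA (σ (x * y)) : GA K B) =
        (c x * c y) • uL (GA.inA (σ x * σ y)) := by
      rw [← hσ, GA.inA_mul, uL_mul, map_mul, hσ, hσ, GA.inA_mul, uL_mul, smul_mul_smul_comm]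
    exact GA.inA_injective (Rig_uniq (hc _) e)
  have hinj : Function.Injective σ := by
    intro x y hxy
    have e : c y • uL (GA.inA x : GA K A) = c x • uL (GA.inA y) := by
      apply EquivLike.injective Φ
      rw [map_smul, map_smul, hσ, hσ, hxy, smul_smul, smul_smul, mul_comm]
    exact GA.inA_injective (Rig_uniq (hc _) e)
  have hsurj : Function.Surjective σ := by
    intro b
    have hΦ' : ∀ p, Φ.symm (uL (GA.iota K B p)) = uL (GA.iota K A p) := by
      intro p
      rw [← hΦ, StarAlgEquiv.symm_apply_apply]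
    obtain ⟨a, d, hd, e⟩ := Rig_image hK Φ.symm hΦ' b
    refine ⟨a, ?_⟩
    have e2 : (d * c a) • uL (GA.inA (σ a) : GA K B) = (1 : ℂ) • uL (GA.inA b) := by
      rw [mul_smul, ← hσ, ← map_smul, ← e, StarAlgEquiv.apply_symm_apply, one_smul]
    exact GA.inA_injective (Rig_uniq (mul_ne_zero hd (hc a)) e2)
  exact ⟨{ Equiv.ofBijective σ ⟨hinj, hsurj⟩ with map_mul' := hmul }⟩

end Pool.Agent.VN
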