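import Pool.Agent.VN.Inter

/-!
# MP_7e9189_lc: property (T) and separability
-/

set_option autoImplicit false

namespace Pool.Agent.VN

open Pool.H88.RFP

open scoped InnerProductSpace

open Classical in
theorem Sep_isSeparable (M : Type) [Group M] [Countable M] :
    TopologicalSpace.SeparableSpace (HG M) := by
  have h0 : TopologicalSpace.IsSeparable (Set.range (dl : M → HG M)) :=
    (Set.countable_range _).isSeparable
  have h1 : TopologicalSpace.IsSeparable
      (closure (Submodule.span ℂ (Set.range (dl : M → HG M)) : Set (HG M))) :=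
    (TopologicalSpace.IsSeparable.span h0).closure
  have h2 : closure (Submodule.span ℂ (Set.range (dl : M → HG M)) : Set (HG M)) = Set.univ := by
    apply Set.eq_univ_of_forall
    intro f
    have h3 := lp.hasSum_single (E := fun _ : M => ℂ) (p := 2) (by norm_num) f
    apply mem_closure_of_tendsto h3
    filter_upwards with s
    apply Submodule.sum_mem
    intro g _
    have h4 : lp.single (E := fun _ : M => ℂ) 2 g (f g) = f g • dl g := by
      rw [dl, ← lp.single_smul]
      simp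
    rw [h4]
    exact Submodule.smul_mem _ _ (Submodule.subset_span ⟨g, rfl⟩)
  rw [h2] at h1
  exact TopologicalSpace.isSeparable_univ_iff.1 h1

/-- Pigeonhole in a separable metric space. -/
theorem Sep_exists_close {X : Type} [PseudoMetricSpace X] [TopologicalSpace.SeparableSpace X]
    {I : Type} [Uncountable I] (x : I → X) (ε : ℝ) (hε : 0 < ε) :
    ∃ i j, i ≠ j ∧ dist (x i) (x j) ≤ ε := by
  by_contra h
  push Not at h
  have h1 : Pairwise (Function.onFun Disjoint fun i => Metric.ball (x i) (ε / 2)) := by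
    intro i j hij
    apply Metric.ball_disjoint_ball
    have := h i j hij
    linarith
  have h2 : Countable I := Pairwise.countable_of_isOpen_disjoint h1
    (fun i => Metric.isOpen_ball) (fun i => ⟨x i, Metric.mem_ball_self (by linarith)⟩)
  exact not_countable h2

/-- The representation of `K × K` by unitaries of `L(M)` given by `θ`. -/
noncomputable def Sep_rep {K A M : Type} [Group K] [Group A] [Group M]
    (θ : LG (GA K A) ≃⋆ₐ[ℂ] LG M) : K × K →* unitary (LG M) where
  toFun p := ⟨θ (uL (GA.iota K A p)), by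
    have h1 : star (θ (uL (GA.iota K A p))) = θ (uL (GA.iota K A p⁻¹)) := by
      rw [map_inv, ← star_uL]
      exact (map_star θ (uL (GA.iota K A p))).symm
    rw [Unitary.mem_iff, h1, ← map_mul θ, ← map_mul θ, ← uL_mul, ← uL_mul, ← map_mul, ← map_mul]
    simp [uL_one]⟩
  map_one' := Subtype.ext (by simp [uL_one])
  map_mul' p q := Subtype.ext (by simp [uL_mul])

theorem Sep_rep_coe {K A M : Type} [Group K] [Group A] [Group M]
    (θ : LG (GA K A) ≃⋆ₐ[ℂ] LG M) (p : K × K) :
    (Sep_rep θ p : LG M) = θ (uL (GA.iota K A p)) := rfl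

/-- An element commuting with the image of `K × K` is a scalar. -/
theorem Sep_scalar {K A M : Type} [Group K] [Infinite K] [Group A] [Group M] (hK : Icc K)
    (θ : LG (GA K A) ≃⋆ₐ[ℂ] LG M) (x : LG M)
    (hx : ∀ p, (Sep_rep θ p : LG M) * x = x * (Sep_rep θ p : LG M)) :
    ∃ c : ℂ, x = c • (1 : LG M) := by
  obtain ⟨c, hc⟩ := scalar_of_commute hK (θ.symm x) (fun p => by
    have h1 := hx p
    rw [Sep_rep_coe] at h1
    have h2 : θ (uL (GA.iota K A p) * θ.symm x) = θ (θ.symm x * uL (GA.iota K A p)) := by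
      rw [map_mul θ, map_mul θ, StarAlgEquiv.apply_symm_apply]
      exact h1
    exact EquivLike.injective θ h2)
  refine ⟨c, ?_⟩
  rw [← StarAlgEquiv.apply_symm_apply θ x, hc, map_smul, map_one]

open Classical in
/-- Intertwined representations are unitarily equivalent. -/
theorem Sep_unitary {K A B M : Type} [Group K] [Infinite K] [Group A] [Group B] [Group M]
    (hK : Icc K) (θ : LG (GA K A) ≃⋆ₐ[ℂ] LG M) (θ' : LG (GA K B) ≃⋆ₐ[ℂ] LG M) (w : LG M)
    (hw : w ≠ 0) (h : ∀ p, (Sep_rep θ p : LG M) * w = w * (Sep_rep θ' p : LG M)) :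
    ∃ U : unitary (LG M), ∀ p, (Sep_rep θ p : LG M) * (U : LG M) =
      (U : LG M) * (Sep_rep θ' p : LG M) := by
  -- the adjoint relation
  have hs : ∀ p, star w * (Sep_rep θ p : LG M) = (Sep_rep θ' p : LG M) * star w := by
    intro p
    have h1 := congrArg star (h p⁻¹)
    have h2 : star ((Sep_rep θ p⁻¹ : unitary (LG M)) : LG M) = (Sep_rep θ p : LG M) := by
      rw [← Unitary.coe_star, Unitary.star_eq_inv, ← map_inv, inv_inv]
    have h3 : star ((Sep_rep θ' p⁻¹ : unitary (LG M)) : LG M) = (Sep_rep θ' p : LG M) := by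
      rw [← Unitary.coe_star, Unitary.star_eq_inv, ← map_inv, inv_inv]
    rw [star_mul, star_mul, h2, h3] at h1
    exact h1
  have hl : ∀ p, (Sep_rep θ' p : LG M) * (star w * w) = (star w * w) * (Sep_rep θ' p : LG M) := by
    intro p
    rw [← mul_assoc, ← hs, mul_assoc, h, mul_assoc]
  have hr : ∀ p, (Sep_rep θ p : LG M) * (w * star w) = (w * star w) * (Sep_rep θ p : LG M) := by
    intro p
    rw [← mul_assoc, h, mul_assoc, ← hs, mul_assoc]
  obtain ⟨c, hc⟩ := Sep_scalar hK θ' (star w * w) hl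
  obtain ⟨c', hc'⟩ := Sep_scalar hK θ (w * star w) hr
  have hcc : c = c' := by
    have h1 : w * (star w * w) = w * star w * w := by rw [mul_assoc]
    rw [hc, hc'] at h1
    simp only [mul_smul_comm, mul_one, smul_mul_assoc, one_mul] at h1
    have h2 : (c - c') • w = 0 := by rw [sub_smul, h1, sub_self]
    rcases smul_eq_zero.1 h2 with h3 | h3
    · exact sub_eq_zero.1 h3
    · exact absurd h3 hw
  subst hcc
  -- `c` is a positive real
  have hc1 : c = ((‖(w : HG M →L[ℂ] HG M) (dl 1)‖ ^ 2 : ℝ) : ℂ) := by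
    have h1 : (star (w : HG M →L[ℂ] HG M) * (w : HG M →L[ℂ] HG M)) (dl 1) =
        c • (dl (1 : M)) := by
      have h2 := congrArg (fun y : LG M => (y : HG M →L[ℂ] HG M) (dl (1 : M))) hc
      simpa using h2
    have h3 : ⟪dl (1 : M), (star (w : HG M →L[ℂ] HG M) * (w : HG M →L[ℂ] HG M)) (dl 1)⟫_ℂ =
        ((‖(w : HG M →L[ℂ] HG M) (dl 1)‖ ^ 2 : ℝ) : ℂ) := by
      rw [ContinuousLinearMap.star_eq_adjoint]
      change ⟪dl (1 : M), (ContinuousLinearMap.adjoint (w : HG M →L[ℂ] HG M))
        ((w : HG M →L[ℂ] HG M) (dl 1))⟫_ℂ = _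
      rw [ContinuousLinearMap.adjoint_inner_right, inner_self_eq_norm_sq_to_K]
      push_cast
      rfl
    rw [h1, inner_smul_right, inner_dl, dl_apply] at h3
    simpa using h3
  have hc0 : c ≠ 0 := by
    intro h0
    apply hw
    have h1 : star w * w = 0 := by rw [hc, h0, zero_smul]
    apply Subtype.ext
    have h2 : star (w : HG M →L[ℂ] HG M) * (w : HG M →L[ℂ] HG M) = 0 := by
      have := congrArg (fun y : LG M => (y : HG M →L[ℂ] HG M)) h1
      simpa using this
    exact (CStarRing.star_mul_self_eq_zero_iff _).1 h2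
  set t : ℝ := ‖(w : HG M →L[ℂ] HG M) (dl 1)‖ with ht
  have ht0 : t ≠ 0 := by
    intro h0
    apply hc0
    rw [hc1, h0]
    simp
  have htc : ((t : ℂ)⁻¹ * (t : ℂ)⁻¹) * c = 1 := by
    have h1 : (t : ℂ) ≠ 0 := by exact_mod_cast ht0
    rw [hc1]
    push_cast
    field_simp
  have hst : star ((t : ℂ)⁻¹) = (t : ℂ)⁻¹ := by simp
  refine ⟨⟨(t : ℂ)⁻¹ • w, ?_⟩, ?_⟩
  · rw [Unitary.mem_iff]
    constructor
    · rw [star_smul, hst, smul_mul_smul_comm, hc, smul_smul, htc, one_smul]
    · rw [star_smul, hst, smul_mul_smul_comm, hc', smul_smul, htc, one_smul]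
  · intro p
    change (Sep_rep θ p : LG M) * ((t : ℂ)⁻¹ • w) = ((t : ℂ)⁻¹ • w) * (Sep_rep θ' p : LG M)
    rw [mul_smul_comm, smul_mul_assoc, h]

/-- If `L(GA K (A i))`, `i` in an uncountable set, are all `*`-isomorphic to `L(M)` with `M`
countable, then two of the `A i` are isomorphic. -/
theorem exists_iso {K : Type} [Group K] [Infinite K] (hK : Icc K) (hT : PropT K)
    {I : Type} [Uncountable I] (A : I → Type) [∀ i, Group (A i)] {M : Type} [Group M] [Countable M]
    (θ : ∀ i, LG (GA K (A i)) ≃⋆ₐ[ℂ] LG M) : ∃ i j, i ≠ j ∧ Nonempty (A i ≃* A j) := by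
  classical
  obtain ⟨S, ε, hε, hS⟩ := exists_intertwiner (M := M) hT
  have : TopologicalSpace.SeparableSpace (HG M) := Sep_isSeparable M
  obtain ⟨i, j, hij, hd⟩ := Sep_exists_close
    (fun (i : I) (s : S) => (((Sep_rep (θ i) (s : K × K) : unitary (LG M)) : LG M) :
      HG M →L[ℂ] HG M) (dl 1)) ε hε
  refine ⟨i, j, hij, ?_⟩
  obtain ⟨w, hw, hww⟩ := hS (Sep_rep (θ i)) (Sep_rep (θ j)) (fun s hs => by
    rw [← dist_eq_norm]
    exact le_trans (dist_le_pi_dist (fun s : S => (((Sep_rep (θ i) (s : K × K) :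
      unitary (LG M)) : LG M) : HG M →L[ℂ] HG M) (dl 1)) (fun s : S => (((Sep_rep (θ j)
      (s : K × K) : unitary (LG M)) : LG M) : HG M →L[ℂ] HG M) (dl 1)) ⟨s, hs⟩) hd)
  obtain ⟨U, hU⟩ := Sep_unitary hK (θ i) (θ j) w hw hww
  refine rigid hK (((θ i).trans (Unitary.conjStarAlgAut ℂ (LG M) (star U))).trans
    (θ j).symm) (fun p => ?_)
  rw [StarAlgEquiv.trans_apply, StarAlgEquiv.trans_apply, Unitary.conjStarAlgAut_apply]
  have h1 : (star (U : LG M)) * ((Sep_rep (θ i) p : LG M) * (U : LG M)) =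
      (Sep_rep (θ j) p : LG M) := by
    rw [hU, ← mul_assoc, Unitary.star_mul_self_of_mem U.2, one_mul]
  rw [← Sep_rep_coe, Unitary.coe_star, star_star, mul_assoc, h1, Sep_rep_coe,
    StarAlgEquiv.symm_apply_apply]

end Pool.Agent.VN
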