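import Mathlib

/-!
# MP_7e9189_lc: the abelian 2-groups of trees of decreasing sequences

For a well-ordered type `O` and `g : O` the group `AG g` is generated by `x_s`, `s` a node of
the tree of decreasing sequences below `g` (with multiplicity `ℕ`); `AG g` and `AG d` are
isomorphic only if `g = d`.
-/

set_option autoImplicit false

namespace Pool.Agent.VN

open Finsupp

/-- The coefficient group `ℚ/ℤ`. -/
abbrev QZ := AddCircle (1 : ℚ)

/-- The class of `2^-k`. -/
noncomputable def ek (k : ℕ) : QZ := (((1 / 2 : ℚ) ^ k : ℚ) : AddCircle (1 : ℚ))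

lemma ek_zero : ek 0 = 0 := by
  unfold ek
  rw [pow_zero]
  exact AddCircle.coe_period (1 : ℚ)

lemma ek_succ_add (k : ℕ) : ek (k + 1) + ek (k + 1) = ek k := by
  unfold ek
  rw [← AddCircle.coe_add]
  congr 1
  rw [pow_succ]
  ring

lemma ek_one_ne : ek 1 ≠ 0 := by
  unfold ek
  intro h
  rw [AddCircle.coe_eq_zero_iff] at h
  obtain ⟨n, hn⟩ := h
  have h2 : (n : ℚ) * 2 = 1 := by
    have : (n : ℚ) = 1 / 2 := by simpa using hn
    rw [this]; norm_num
  have h3 : n * 2 = 1 := by exact_mod_cast h2
  omega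

section nodes

variable {O : Type}

/-- Nodes: lists over `O × ℕ`, the head is the last chosen entry. -/
abbrev Nd (O : Type) := List (O × ℕ)

/-- The rank of a node below `g`. -/
def rkN (g : O) : Nd O → O
  | [] => g
  | c :: _ => c.1

@[simp] lemma rkN_nil (g : O) : rkN g [] = g := rfl
@[simp] lemma rkN_cons (g : O) (c : O × ℕ) (s : Nd O) : rkN g (c :: s) = c.1 := rfl

/-- `2^-k` times the sum over the nonempty suffixes `t` of `s` of `2^-(|s|-|t|+1) t`. -/
noncomputable def XX : ℕ → Nd O → (Nd O →₀ QZ)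
  | _, [] => 0
  | k, c :: s => single (c :: s) (ek (k + 1)) + XX (k + 1) s

@[simp] lemma XX_nil (k : ℕ) : XX k ([] : Nd O) = 0 := rfl
lemma XX_cons (k : ℕ) (c : O × ℕ) (s : Nd O) :
    XX k (c :: s) = single (c :: s) (ek (k + 1)) + XX (k + 1) s := rfl

lemma XX_add (s : Nd O) : ∀ k, XX (k + 1) s + XX (k + 1) s = XX k s := by
  induction s with
  | nil => intro k; simp
  | cons c s ih =>
    intro k
    rw [XX_cons, XX_cons, ← ih (k + 1)]
    rw [← ek_succ_add (k + 1), single_add]
    abel

/-- The generators. -/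
noncomputable def xg (s : Nd O) : Nd O →₀ QZ := XX 0 s

@[simp] lemma xg_nil : xg ([] : Nd O) = 0 := rfl

lemma xg_cons_add (c : O × ℕ) (s : Nd O) : xg (c :: s) + xg (c :: s) = xg s := by
  unfold xg
  rw [XX_cons, ← XX_add s 0]
  have h : single (c :: s) (ek (0 + 1)) + single (c :: s) (ek (0 + 1)) =
      (0 : Nd O →₀ QZ) := by
    rw [← single_add, ek_succ_add, ek_zero, single_zero]
  calc _ = (single (c :: s) (ek (0 + 1)) + single (c :: s) (ek (0 + 1))) +
        (XX (0 + 1) s + XX (0 + 1) s) := by abel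
    _ = _ := by rw [h, zero_add]

lemma xg_singleton_ne (c : O × ℕ) : xg [c] ≠ 0 := by
  intro h
  have h1 := DFunLike.congr_fun h [c]
  unfold xg at h1
  rw [XX_cons, XX_nil, add_zero, single_eq_same] at h1
  exact ek_one_ne h1

lemma XX_apply_nil (s : Nd O) : ∀ k, XX k s [] = 0 := by
  induction s with
  | nil => intro k; rfl
  | cons c s ih =>
    intro k
    rw [XX_cons, Finsupp.add_apply, ih, single_eq_of_ne (by simp), add_zero]

lemma XX_apply_ne (s : Nd O) : ∀ k t, XX k s t ≠ 0 → t <:+ s := by
  induction s with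
  | nil => intro k t h; exact absurd rfl h
  | cons c s ih =>
    intro k t h
    rw [XX_cons, Finsupp.add_apply] at h
    by_cases h1 : t = c :: s
    · rw [h1]
    · rw [single_eq_of_ne h1, zero_add] at h
      exact (ih _ _ h).trans (List.suffix_cons c s)

lemma mapDomain_XX_tail (s : Nd O) : ∀ (k : ℕ) (c : O × ℕ) (t : Nd O), t ≠ [] →
    mapDomain List.tail (XX k (c :: s)) t = XX k s t := by
  induction s with
  | nil =>
    intro k c t ht
    rw [XX_cons, XX_nil, add_zero, mapDomain_single, List.tail_cons, single_eq_of_ne ht]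
    rfl
  | cons d s ih =>
    intro k c t ht
    rw [XX_cons, mapDomain_add, Finsupp.add_apply, ih (k + 1) d t ht, mapDomain_single,
      List.tail_cons, XX_cons, Finsupp.add_apply]

lemma xg_tail (s : Nd O) (t : Nd O) (ht : t ≠ []) :
    xg s t + xg s t = mapDomain List.tail (xg s) t := by
  cases s with
  | nil => simp
  | cons c s =>
    rw [← Finsupp.add_apply, xg_cons_add]
    exact (mapDomain_XX_tail s 0 c t ht).symm

/-- maps respecting one-step extensions map generators to generators -/
lemma mapDomain_XX (P : Nd O → Nd O) (s : Nd O) :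
    ∀ (k : ℕ), P [] = [] → (∀ (c : O × ℕ) (t : Nd O), (c :: t) <:+ s →
      ∃ c', P (c :: t) = c' :: P t) → mapDomain P (XX k s) = XX k (P s) := by
  induction s with
  | nil => intro k h0 _; rw [h0, XX_nil, mapDomain_zero]
  | cons c s ih =>
    intro k h0 h
    obtain ⟨c', hc'⟩ := h c s (List.suffix_refl _)
    rw [XX_cons, mapDomain_add, mapDomain_single,
      ih (k + 1) h0 (fun d t hd => h d t (hd.trans (List.suffix_cons c s))), hc', XX_cons]

end nodes

section tree

variable {O : Type} [LinearOrder O]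

/-- The nodes of the tree below `g`. -/
def IsT (g : O) : Nd O → Prop
  | [] => True
  | c :: s => c.1 < rkN g s ∧ IsT g s

@[simp] lemma isT_nil (g : O) : IsT g [] := trivial
lemma isT_cons {g : O} {c : O × ℕ} {s : Nd O} :
    IsT g (c :: s) ↔ c.1 < rkN g s ∧ IsT g s := Iff.rfl

lemma isT_rk_le {g : O} : ∀ {s : Nd O}, IsT g s → rkN g s ≤ g
  | [], _ => le_refl _
  | _ :: _, h => le_trans (le_of_lt h.1) (isT_rk_le h.2)

lemma isT_rk_lt {g : O} {s : Nd O} (h : IsT g s) (hs : s ≠ []) : rkN g s < g := by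
  cases s with
  | nil => exact absurd rfl hs
  | cons c s => exact lt_of_lt_of_le h.1 (isT_rk_le h.2)

lemma isT_tail {g : O} {s : Nd O} (h : IsT g s) : IsT g s.tail := by
  cases s with
  | nil => trivial
  | cons c s => exact h.2

lemma isT_suffix {g : O} {s t : Nd O} (h : IsT g s) (hts : t <:+ s) : IsT g t := by
  induction s with
  | nil => rw [List.suffix_nil] at hts; rw [hts]; trivial
  | cons c s ih =>
    rcases List.suffix_cons_iff.1 hts with h1 | h1
    · rw [h1]; exact h
    · exact ih h.2 h1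

/-- The group `AG g`. -/
noncomputable def AG (g : O) : AddSubgroup (Nd O →₀ QZ) :=
  AddSubgroup.closure (xg '' {s | IsT g s})

lemma xg_mem {g : O} {s : Nd O} (h : IsT g s) : xg s ∈ AG g :=
  AddSubgroup.subset_closure ⟨s, h, rfl⟩

/-- `x_s` as an element of `AG g`. -/
noncomputable def xG {g : O} {s : Nd O} (h : IsT g s) : AG g := ⟨xg s, xg_mem h⟩

lemma xG_cons_add {g : O} {c : O × ℕ} {s : Nd O} (h : IsT g (c :: s)) :
    xG h + xG h = xG h.2 := Subtype.ext (xg_cons_add c s)

lemma AG_nil_apply {g : O} {y : Nd O →₀ QZ} (hy : y ∈ AG g) : y [] = 0 := by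
  induction hy using AddSubgroup.closure_induction with
  | mem x hx =>
    obtain ⟨s, _, rfl⟩ := hx
    exact XX_apply_nil s 0
  | zero => rfl
  | add x y _ _ hx hy => rw [Finsupp.add_apply, hx, hy, add_zero]
  | neg x _ hx => rw [Finsupp.neg_apply, hx, neg_zero]

lemma AG_isT {g : O} {y : Nd O →₀ QZ} (hy : y ∈ AG g) : ∀ t, y t ≠ 0 → IsT g t := by
  induction hy using AddSubgroup.closure_induction with
  | mem x hx =>
    obtain ⟨s, hs, rfl⟩ := hx
    intro t ht
    exact isT_suffix hs (XX_apply_ne s 0 t ht)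
  | zero => intro t ht; exact absurd rfl ht
  | add x y _ _ hx hy =>
    intro t ht
    rw [Finsupp.add_apply] at ht
    by_cases h1 : x t = 0
    · rw [h1, zero_add] at ht
      exact hy t ht
    · exact hx t h1
  | neg x _ hx =>
    intro t ht
    rw [Finsupp.neg_apply] at ht
    exact hx t (fun h => ht (by rw [h, neg_zero]))

lemma AG_tail {g : O} {y : Nd O →₀ QZ} (hy : y ∈ AG g) (t : Nd O) (ht : t ≠ []) :
    y t + y t = mapDomain List.tail y t := by
  induction hy using AddSubgroup.closure_induction with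
  | mem x hx =>
    obtain ⟨s, _, rfl⟩ := hx
    exact xg_tail s t ht
  | zero => simp
  | add x y _ _ hx hy =>
    rw [mapDomain_add, Finsupp.add_apply, Finsupp.add_apply, ← hx, ← hy]
    abel
  | neg x _ hx =>
    have h : mapDomain List.tail (-x) = - mapDomain List.tail x := by
      have h1 : mapDomain List.tail (-x) + mapDomain List.tail x = 0 := by
        rw [← mapDomain_add, neg_add_cancel, mapDomain_zero]
      exact eq_neg_of_add_eq_zero_left h1
    rw [h, Finsupp.neg_apply, Finsupp.neg_apply, ← hx]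
    abel

/-- a nonzero value of the doubled function comes from a child -/
lemma AG_child {g : O} {y : Nd O →₀ QZ} (hy : y ∈ AG g) (t : Nd O) (ht : t ≠ [])
    (h : y t + y t ≠ 0) : ∃ c : O × ℕ, y (c :: t) ≠ 0 := by
  rw [AG_tail hy t ht] at h
  have h1 : t ∈ (mapDomain List.tail y).support := by
    rw [Finsupp.mem_support_iff]; exact h
  have h2 := mapDomain_support h1
  rw [Finset.mem_image] at h2
  obtain ⟨u, hu, hut⟩ := h2
  cases u with
  | nil => exact absurd hut.symm ht
  | cons c u =>
    refine ⟨c, ?_⟩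
    have h3 : u = t := hut
    rw [← h3]
    exact Finsupp.mem_support_iff.1 hu

variable [WellFoundedLT O]

/-- Divisibility by `2^(1 + ...)`, transfinite. -/
def Qd (B : Type) [AddCommGroup B] (β : O) : B → Prop :=
  WellFounded.fix (C := fun _ => B → Prop) (wellFounded_lt (α := O))
    (fun β ih x => ∀ (β' : O) (h : β' < β), ∃ y, ih β' h y ∧ y + y = x) β

lemma Qd_iff (B : Type) [AddCommGroup B] (β : O) (x : B) :
    Qd B β x ↔ ∀ (β' : O), β' < β → ∃ y, Qd B β' y ∧ y + y = x := by
  unfold Qd
  rw [WellFounded.fix_eq]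

lemma Qd_map {B C : Type} [AddCommGroup B] [AddCommGroup C] (e : B ≃+ C) (β : O) :
    ∀ x, Qd B β x → Qd C β (e x) := by
  induction β using WellFoundedLT.induction with
  | _ β ih =>
    intro x hx
    rw [Qd_iff] at hx ⊢
    intro β' hβ'
    obtain ⟨y, hy, hyx⟩ := hx β' hβ'
    exact ⟨e y, ih β' hβ' y hy, by rw [← map_add, hyx]⟩

lemma Qd_xG {g : O} (β : O) :
    ∀ {s : Nd O} (h : IsT g s), β ≤ rkN g s → Qd (AG g) β (xG h) := by
  induction β using WellFoundedLT.induction with
  | _ β ih =>
    intro s h hβ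
    rw [Qd_iff]
    intro β' hβ'
    have h1 : IsT g ((β', 0) :: s) := ⟨lt_of_lt_of_le hβ' hβ, h⟩
    exact ⟨xG h1, ih β' hβ' h1 (le_refl _), xG_cons_add h1⟩

lemma Qd_supp {g : O} (β : O) :
    ∀ (x : AG g), Qd (AG g) β x → ∀ t, (x : Nd O →₀ QZ) t ≠ 0 → β ≤ rkN g t := by
  induction β using WellFoundedLT.induction with
  | _ β ih =>
    intro x hx t ht
    rw [Qd_iff] at hx
    by_contra hlt
    rw [not_le] at hlt
    obtain ⟨y, hy, hyx⟩ := hx _ hlt
    have hne : t ≠ [] := by
      rintro rfl
      exact ht (AG_nil_apply x.2)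
    have h1 : (y : Nd O →₀ QZ) t + (y : Nd O →₀ QZ) t ≠ 0 := by
      rw [← Finsupp.add_apply]
      have h2 : (y : Nd O →₀ QZ) + (y : Nd O →₀ QZ) = x := by
        rw [← hyx]; rfl
      rw [h2]; exact ht
    obtain ⟨c, hc⟩ := AG_child y.2 t hne h1
    have h3 := ih _ hlt y hy (c :: t) hc
    have h4 := (AG_isT y.2 (c :: t) hc).1
    rw [rkN_cons] at h3
    exact absurd (lt_of_le_of_lt h3 h4) (lt_irrefl _)

lemma AG_not_iso_of_lt {g d : O} (h : g < d) (e : AG g ≃+ AG d) : False := by
  have h1 : IsT d [(g, 0)] := ⟨h, trivial⟩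
  have h2 : Qd (AG d) g (xG h1) := Qd_xG g h1 (le_refl _)
  have h3 := Qd_map e.symm g _ h2
  have h4 : e.symm (xG h1) = 0 := by
    apply Subtype.ext
    ext t
    by_contra hne
    have hne' : ((e.symm (xG h1) : AG g) : Nd O →₀ QZ) t ≠ 0 := hne
    have h5 := Qd_supp g _ h3 t hne'
    have h6 : t ≠ [] := by
      rintro rfl
      exact hne' (AG_nil_apply (e.symm (xG h1)).2)
    have h7 := isT_rk_lt (AG_isT (e.symm (xG h1)).2 t hne') h6
    exact absurd (lt_of_lt_of_le h7 h5) (lt_irrefl _)
  have h5 : xG h1 = 0 := by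
    have := congrArg e h4
    rwa [e.apply_symm_apply, map_zero] at this
  exact xg_singleton_ne (g, 0) (congrArg Subtype.val h5)

/-- `AG g` and `AG d` are isomorphic only if `g = d`. -/
theorem AG_eq_of_addEquiv {g d : O} (e : AG g ≃+ AG d) : g = d := by
  rcases lt_trichotomy g d with h | h | h
  · exact (AG_not_iso_of_lt h e).elim
  · exact h
  · exact (AG_not_iso_of_lt h e.symm).elim

end tree

section countable

variable {O : Type} [LinearOrder O]

lemma isT_countable (g : O) (hc : (Set.Iio g).Countable) : {s | IsT g s}.Countable := by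
  have h1 : {s : Nd O | IsT g s} ⊆ {l : Nd O | ∀ x ∈ l, x ∈ (Set.Iio g) ×ˢ (Set.univ : Set ℕ)} := by
    intro s hs
    have : ∀ t : Nd O, IsT g t → ∀ x ∈ t, x ∈ (Set.Iio g) ×ˢ (Set.univ : Set ℕ) := by
      intro t
      induction t with
      | nil => intro _ x hx; exact absurd hx (by simp)
      | cons c t ih =>
        intro ht x hx
        rcases List.mem_cons.1 hx with h | h
        · rw [h]
          exact ⟨lt_of_lt_of_le ht.1 (isT_rk_le ht.2), trivial⟩
        · exact ih ht.2 x h
    exact this s hs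
  refine Set.Countable.mono h1 ?_
  have h2 : ((Set.Iio g) ×ˢ (Set.univ : Set ℕ)).Countable := hc.prod Set.countable_univ
  have : Countable ((Set.Iio g) ×ˢ (Set.univ : Set ℕ) : Set (O × ℕ)) := h2.to_subtype
  rw [← Set.range_list_map_coe]
  exact Set.countable_range _

instance QZ_countable : Countable QZ :=
  Function.Surjective.countable
    (QuotientAddGroup.mk_surjective (s := AddSubgroup.zmultiples (1 : ℚ)))

theorem AG_countable (g : O) (hc : (Set.Iio g).Countable) : Countable (AG g) := by
  have : Countable {t : Nd O // IsT g t} := (isT_countable g hc).to_subtype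
  let F : AG g → ({t : Nd O // IsT g t} →₀ QZ) := fun y => (y : Nd O →₀ QZ).subtypeDomain (IsT g)
  have hF : Function.Injective F := by
    intro y z h
    apply Subtype.ext
    ext t
    by_cases ht : IsT g t
    · have := DFunLike.congr_fun h (⟨t, ht⟩ : {t : Nd O // IsT g t})
      exact this
    · have h1 : (y : Nd O →₀ QZ) t = 0 := by
        by_contra hne
        exact ht (AG_isT y.2 t hne)
      have h2 : (z : Nd O →₀ QZ) t = 0 := by
        by_contra hne
        exact ht (AG_isT z.2 t hne)
      rw [h1, h2]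
  exact hF.countable

end countable

/-! ### The well-ordered type of all countable ordinals -/

open Ordinal

/-- The set of countable ordinals, as a type in `Type`. -/
abbrev Om : Type := (Ordinal.omega 1 : Ordinal.{0}).ToType

/-- The ordinal of an element of `Om`. -/
noncomputable def r (x : Om) : Ordinal.{0} := (Ordinal.ToType.mk.symm x).1

theorem r_strictMono : StrictMono r := by
  intro x y h
  exact (Ordinal.ToType.mk (o := (Ordinal.omega 1 : Ordinal.{0}))).symm.strictMono h

theorem r_lt (x : Om) : r x < ω₁ := (Ordinal.ToType.mk.symm x).2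

theorem exists_r {o : Ordinal.{0}} (h : o < ω₁) : ∃ x, r x = o :=
  ⟨Ordinal.ToType.mk ⟨o, h⟩, by unfold r; rw [OrderIso.symm_apply_apply]⟩

/-- The group attached to `g`, written multiplicatively. -/
abbrev Ag (g : Om) : Type := Multiplicative (AG g)

theorem Iio_ord_countable {o : Ordinal.{0}} (h : o < ω₁) : (Set.Iio o).Countable := by
  have h1 : o.card < Cardinal.aleph 1 := Cardinal.lt_omega_iff_card_lt.1 h
  have h2 : o.card ≤ Cardinal.aleph0 := Cardinal.lt_aleph_one_iff.1 h1
  rw [← Cardinal.le_aleph0_iff_set_countable, Cardinal.mk_Iio_ordinal, Cardinal.lift_le_aleph0]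
  exact h2

theorem Iio_countable (g : Om) : (Set.Iio g).Countable :=
  Set.MapsTo.countable_of_injOn (f := r) (t := Set.Iio (r g))
    (fun _ hx => r_strictMono hx) (r_strictMono.injective.injOn) (Iio_ord_countable (r_lt g))

instance (g : Om) : Countable (Ag g) := by
  have := AG_countable g (Iio_countable g)
  exact inferInstanceAs (Countable (AG g))

end Pool.Agent.VN
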